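import Pool.Agent.CeerI.Comp

/-!
# Tools for priority constructions: bounded quantifiers and computable sequences
(for MP_55b29c_lc)

Lemmas of `Pool.Agent.CeerI.Comp` which are used together with the ones below
(`ComputablePred` = decidable, `REPred` = recursively enumerable):
`re_iff, re_comp, re_bool, re_and, re_or, re_ex, dec_iff, dec_of_re, dec_comp, dec_and, dec_or,
comp_ite`.
-/

namespace Pool.Agent.DMO

open Pool.Agent.CeerI

section

variable {α β : Type} [Primcodable α] [Primcodable β]

/-! ### Boolean functions -/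

/-- Bounded conjunction. -/
def ballB (b : α × ℕ → Bool) (a : α) (n : ℕ) : Bool :=
  Nat.rec true (fun i ih => ih && b (a, i)) n

omit [Primcodable α] in
theorem ballB_iff (b : α × ℕ → Bool) (a : α) (n : ℕ) :
    ballB b a n = true ↔ ∀ i < n, b (a, i) = true := by
  induction n with
  | zero => simp [ballB]
  | succ n ih =>
    have h : ballB b a (n + 1) = (ballB b a n && b (a, n)) := rfl
    rw [h, Bool.and_eq_true, ih]
    constructor
    · rintro ⟨h1, h2⟩ i hi
      rcases Nat.lt_succ_iff_lt_or_eq.1 hi with hi | rfl
      · exact h1 i hi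
      · exact h2
    · intro h1
      exact ⟨fun i hi => h1 i (Nat.lt_succ_of_lt hi), h1 n (Nat.lt_succ_self n)⟩

theorem ballB_computable {b : α × ℕ → Bool} (hb : Computable b) {n : α → ℕ}
    (hn : Computable n) : Computable fun a => ballB b a (n a) := by
  have h : Computable₂ fun (a : α) (p : ℕ × Bool) => p.2 && b (a, p.1) :=
    Primrec.and.to_comp.comp (Computable.snd.comp Computable.snd)
      (hb.comp (Computable.fst.pair (Computable.fst.comp Computable.snd)))
  exact Computable.nat_rec hn (Computable.const true) h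

/-! ### Decidable predicates -/

theorem dec_of_comp {f : α → Bool} (hf : Computable f) : ComputablePred fun a => f a = true :=
  dec_iff.2 ⟨f, hf, fun _ => Iff.rfl⟩

theorem dec_not {p : α → Prop} (hp : ComputablePred p) : ComputablePred fun a => ¬ p a := by
  obtain ⟨f, hf, h⟩ := dec_iff.1 hp
  exact dec_iff.2 ⟨fun a => !(f a), Primrec.not.to_comp.comp hf, fun a => by simp [h]⟩

theorem dec_imp {p q : α → Prop} (hp : ComputablePred p) (hq : ComputablePred q) :
    ComputablePred fun a => p a → q a := by
  obtain ⟨f, hf, h⟩ := dec_iff.1 (dec_or (dec_not hp) hq)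
  exact dec_iff.2 ⟨f, hf, fun a => by rw [← h]; tauto⟩

theorem dec_iff' {p q : α → Prop} (hp : ComputablePred p) (hq : ComputablePred q) :
    ComputablePred fun a => p a ↔ q a := by
  obtain ⟨f, hf, h⟩ := dec_iff.1 (dec_and (dec_imp hp hq) (dec_imp hq hp))
  exact dec_iff.2 ⟨f, hf, fun a => by rw [← h]; tauto⟩

theorem dec_ball {p : α × ℕ → Prop} (hp : ComputablePred p) {n : α → ℕ} (hn : Computable n) :
    ComputablePred fun a => ∀ i < n a, p (a, i) := by
  obtain ⟨f, hf, h⟩ := dec_iff.1 hp
  refine dec_iff.2 ⟨fun a => ballB f a (n a), ballB_computable hf hn, fun a => ?_⟩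
  rw [ballB_iff]
  simp only [h]

theorem dec_bex {p : α × ℕ → Prop} (hp : ComputablePred p) {n : α → ℕ} (hn : Computable n) :
    ComputablePred fun a => ∃ i < n a, p (a, i) := by
  obtain ⟨f, hf, h⟩ := dec_iff.1 (dec_not (dec_ball (dec_not hp) hn))
  refine dec_iff.2 ⟨f, hf, fun a => ?_⟩
  rw [← h]
  push Not
  exact Iff.rfl

theorem dec_eq {f g : α → β} [DecidableEq β] (hf : Computable f) (hg : Computable g) :
    ComputablePred fun a => f a = g a :=
  dec_iff.2 ⟨fun a => decide (f a = g a),
    (Primrec.eq (α := β)).decide.to_comp.comp hf hg, fun a => by simp⟩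

theorem dec_lt {f g : α → ℕ} (hf : Computable f) (hg : Computable g) :
    ComputablePred fun a => f a < g a :=
  dec_iff.2 ⟨fun a => decide (f a < g a),
    Primrec.nat_lt.decide.to_comp.comp hf hg, fun a => by simp⟩

theorem dec_le {f g : α → ℕ} (hf : Computable f) (hg : Computable g) :
    ComputablePred fun a => f a ≤ g a :=
  dec_iff.2 ⟨fun a => decide (f a ≤ g a),
    Primrec.nat_le.decide.to_comp.comp hf hg, fun a => by simp⟩

theorem dec_of_iff {p q : α → Prop} (hp : ComputablePred p) (h : ∀ a, q a ↔ p a) :
    ComputablePred q := by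
  obtain ⟨f, hf, h'⟩ := dec_iff.1 hp
  exact dec_iff.2 ⟨f, hf, fun a => by rw [h, h']⟩

/-! ### Recursively enumerable predicates -/

theorem dec_re {p : α → Prop} (hp : ComputablePred p) : REPred p := by
  obtain ⟨f, hf, h⟩ := dec_iff.1 hp
  exact (re_bool hf).of_eq fun a => (h a).symm

/-- Existential quantifier over an arbitrary coded type. -/
theorem re_exists {p : α × β → Prop} (hp : REPred p) : REPred fun a => ∃ b, p (a, b) := by
  obtain ⟨D, hD, h⟩ := re_iff.1 hp
  refine re_iff.2 ⟨fun r => Option.casesOn (motive := fun _ => Bool)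
    (Encodable.decode (α := β) (Nat.unpair r.2).1) false
    fun b => D ((r.1, b), (Nat.unpair r.2).2), ?_, ?_⟩
  · refine Computable.option_casesOn ?_ (Computable.const false) ?_
    · exact Computable.decode.comp (Computable.fst.comp (Computable.unpair.comp Computable.snd))
    · exact hD.comp (((Computable.fst.comp Computable.fst).pair Computable.snd).pair
        (Computable.snd.comp (Computable.unpair.comp (Computable.snd.comp Computable.fst))))
  · intro a
    constructor
    · rintro ⟨b, hb⟩
      obtain ⟨m, hm⟩ := (h _).1 hb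
      refine ⟨Nat.pair (Encodable.encode b) m, ?_⟩
      simpa using hm
    · rintro ⟨n, hn⟩
      cases hd : Encodable.decode (α := β) (Nat.unpair n).1 with
      | none => simp [hd] at hn
      | some b =>
        refine ⟨b, (h _).2 ⟨(Nat.unpair n).2, ?_⟩⟩
        simpa [hd] using hn

/-- Bounded universal quantifier. -/
theorem re_ball {p : α × ℕ → Prop} (hp : REPred p) {n : α → ℕ} (hn : Computable n) :
    REPred fun a => ∀ i < n a, p (a, i) := by
  obtain ⟨D, hD, h⟩ := re_iff.1 hp
  have h1 : ComputablePred fun q : (α × ℕ) × ℕ => D ((q.1.1, q.2), q.1.2) = true := by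
    refine dec_of_comp (hD.comp ?_)
    exact ((Computable.fst.comp Computable.fst).pair Computable.snd).pair
      (Computable.snd.comp Computable.fst)
  -- the witness is bounded by `W`
  have h2 : ComputablePred fun q : α × ℕ =>
      ∀ i < n q.1, ∃ w < q.2, D ((q.1, i), w) = true := by
    have h3 : ComputablePred fun q : (α × ℕ) × ℕ =>
        ∃ w < q.1.2, D ((q.1.1, q.2), w) = true := by
      have h4 : ComputablePred fun q : ((α × ℕ) × ℕ) × ℕ =>
          D ((q.1.1.1, q.1.2), q.2) = true := by
        refine dec_of_comp (hD.comp ?_)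
        exact (((Computable.fst.comp Computable.fst).comp Computable.fst).pair
          (Computable.snd.comp Computable.fst)).pair Computable.snd
      exact dec_bex h4 (Computable.snd.comp Computable.fst)
    exact dec_ball h3 (hn.comp Computable.fst)
  refine (re_ex (dec_re h2)).of_eq fun a => ?_
  constructor
  · rintro ⟨W, hW⟩ i hi
    obtain ⟨w, -, hw⟩ := hW i hi
    exact (h _).2 ⟨w, hw⟩
  · intro H
    have H' : ∀ i, ∃ w, i < n a → D ((a, i), w) = true := by
      intro i
      by_cases hi : i < n a
      · obtain ⟨w, hw⟩ := (h _).1 (H i hi)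
        exact ⟨w, fun _ => hw⟩
      · exact ⟨0, fun h => absurd h hi⟩
    choose w hw using H'
    refine ⟨(Finset.range (n a)).sup w + 1, fun i hi => ⟨w i, ?_, hw i hi⟩⟩
    exact Nat.lt_succ_of_le (Finset.le_sup (Finset.mem_range.2 hi))

theorem re_imp {p q : α → Prop} (hp : ComputablePred p) (hq : REPred q) :
    REPred fun a => p a → q a :=
  (re_or (dec_re (dec_not hp)) hq).of_eq fun a => by tauto

/-! ### Computable sequences from a recursively enumerable step relation -/

/-- SEQ. If the step relation is recursively enumerable and total on the invariant `I`, then there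
is a computable sequence of states. -/
theorem seq {S : Type} [Primcodable S] {R : ℕ → S → S → Prop}
    (hR : REPred fun x : (ℕ × S) × S => R x.1.1 x.1.2 x.2) {I : S → Prop}
    (htot : ∀ k s, I s → ∃ s', R k s s') (hI : ∀ k s s', I s → R k s s' → I s')
    (s0 : S) (h0 : I s0) :
    ∃ σ : ℕ → S, Computable σ ∧ σ 0 = s0 ∧ (∀ k, R k (σ k) (σ (k + 1))) ∧ ∀ k, I (σ k) := by
  obtain ⟨D, hD, h⟩ := re_iff.1 hR
  -- one step as a computable function of stage, state and search bound
  let F : (ℕ × S) → ℕ → Option S := fun a n =>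
    Option.casesOn (motive := fun _ => Option S) (Encodable.decode (α := S) (Nat.unpair n).1) none
      fun s' => bif D ((a, s'), (Nat.unpair n).2) then some s' else none
  have hF : Computable₂ F := by
    refine Computable.option_casesOn ?_ (Computable.const none) ?_
    · exact Computable.decode.comp (Computable.fst.comp (Computable.unpair.comp Computable.snd))
    · refine Computable.cond ?_ (Computable.option_some.comp Computable.snd)
        (Computable.const none)
      exact hD.comp (((Computable.fst.comp Computable.fst).pair Computable.snd).pair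
        (Computable.snd.comp (Computable.unpair.comp (Computable.snd.comp Computable.fst))))
  have hFs : ∀ a n s', F a n = some s' → R a.1 a.2 s' := by
    intro a n s' hn
    refine (h (a, s')).2 ⟨(Nat.unpair n).2, ?_⟩
    simp only [F] at hn
    cases hd : Encodable.decode (α := S) (Nat.unpair n).1 with
    | none => simp [hd] at hn
    | some t =>
      rw [hd] at hn
      cases hb : D ((a, t), (Nat.unpair n).2) with
      | false => simp [hb] at hn
      | true =>
        simp only [hb, cond_true, Option.some.injEq] at hn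
        rw [← hn]
        exact hb
  have hFe : ∀ a s', R a.1 a.2 s' → ∃ n, (F a n).isSome := by
    intro a s' hs
    obtain ⟨w, hw⟩ := (h (a, s')).1 hs
    refine ⟨Nat.pair (Encodable.encode s') w, ?_⟩
    simp [F, hw]
  let P : (ℕ × S) →. S := fun a => Nat.rfindOpt (F a)
  have hP : Partrec P := Partrec.rfindOpt hF
  have hPs : ∀ a s', s' ∈ P a → R a.1 a.2 s' := by
    intro a s' hs
    obtain ⟨n, hn⟩ := Nat.rfindOpt_spec hs
    exact hFs a n s' hn
  have hPe : ∀ a, (∃ s', R a.1 a.2 s') → (P a).Dom := by
    rintro a ⟨s', hs⟩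
    obtain ⟨n, hn⟩ := hFe a s' hs
    obtain ⟨t, ht⟩ := Option.isSome_iff_exists.1 hn
    exact Nat.rfindOpt_dom.2 ⟨n, t, ht⟩
  let G : ℕ →. S := fun n => Nat.rec (Part.some s0) (fun k IH => IH.bind fun s => P (k, s)) n
  have hG : Partrec G := by
    have h2 : Partrec₂ fun (_ : ℕ) (p : ℕ × S) => P (p.1, p.2) :=
      hP.comp ((Computable.fst.comp Computable.snd).pair (Computable.snd.comp Computable.snd))
    exact Partrec.nat_rec Computable.id (Partrec.const' (Part.some s0)) h2
  have hGI : ∀ n, ∃ s, s ∈ G n ∧ I s := by
    intro n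
    induction n with
    | zero => exact ⟨s0, Part.mem_some _, h0⟩
    | succ n ih =>
      obtain ⟨s, hs, hs'⟩ := ih
      have hd := hPe (n, s) (htot n s hs')
      refine ⟨(P (n, s)).get hd, ?_, hI n s _ hs' (hPs (n, s) _ (Part.get_mem hd))⟩
      exact Part.mem_bind hs (Part.get_mem hd)
  choose σ hσ hσI using hGI
  refine ⟨σ, ?_, ?_, ?_, hσI⟩
  · have : Partrec fun n => (Part.some (σ n) : Part S) :=
      hG.of_eq fun n => Part.eq_some_iff.2 (hσ n)
    exact this
  · exact (Part.mem_some_iff.1 (hσ 0))
  · intro k
    have h1 : σ (k + 1) ∈ (G k).bind fun s => P (k, s) := hσ (k + 1)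
    obtain ⟨s, hs, hs'⟩ := Part.mem_bind_iff.1 h1
    have h2 : s = σ k := Part.mem_unique hs (hσ k)
    subst h2
    exact hPs _ _ hs'

end

end Pool.Agent.DMO
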