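import Pool.Agent.DMO.Tool

/-!
# Definitions for MP_55b29c_lc (Downey–Moses: computable self-embeddings of linear orders)

The order is a relation `r : ℕ → ℕ → Bool` (`r a b = true` means `a ≤ b`).
-/

namespace Pool.Agent.DMO

/-! ### Orders on the natural numbers -/

/-- `r` is (the non-strict relation of) a linear order on the natural numbers. -/
structure LO (r : ℕ → ℕ → Bool) : Prop where
  refl : ∀ a, r a a = true
  anti : ∀ a b, r a b = true → r b a = true → a = b
  trans : ∀ a b c, r a b = true → r b c = true → r a c = true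
  total : ∀ a b, r a b = true ∨ r b a = true

/-- `a < b` in the order `r`. -/
def Lt (r : ℕ → ℕ → Bool) (a b : ℕ) : Prop := r b a = false

/-- `b` is the immediate successor of `a` in the order `r`. -/
def Adj (r : ℕ → ℕ → Bool) (a b : ℕ) : Prop :=
  Lt r a b ∧ ∀ c, Lt r a c → Lt r c b → False

/-- There is a finite path of immediate successors from `P` to `Q` (so `[P, Q]` is finite). -/
def Path (r : ℕ → ℕ → Bool) : ℕ → ℕ → Prop := Relation.ReflTransGen (Adj r)

/-- Some convex subset is strongly eta-like (condition (b) of the problem). -/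
def HasSEta (r : ℕ → ℕ → Bool) : Prop :=
  ∃ C : Set ℕ, (∀ a b c, a ∈ C → c ∈ C → r a b = true → r b c = true → b ∈ C) ∧
    ∃ f : ℚ → ℕ, (∀ q, 1 ≤ f q) ∧ BddAbove (Set.range f) ∧
      ∃ e : C ≃ Lex (Σ q : ℚ, Fin (f q)), ∀ a b : C, r a b = true ↔ e a ≤ e b

/-- Between two elements at infinite distance there are arbitrarily long finite chains of
consecutive elements (strictly between them). -/
def LongChains (r : ℕ → ℕ → Bool) : Prop :=
  ∀ P Q, Lt r P Q → ¬ Path r P Q → ∀ N : ℕ, ∃ c : ℕ → ℕ,
    (∀ t < N, Lt r P (c t) ∧ Lt r (c t) Q) ∧ ∀ t, t + 1 < N → Adj r (c t) (c (t + 1))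

/-- No computable order preserving injection of the order `s` except the identity. -/
def Rigid (s : ℕ → ℕ → Bool) : Prop :=
  ∀ g : ℕ → ℕ, Computable g → Function.Injective g →
    (∀ a b, s a b = true → s (g a) (g b) = true) → g = id

/-- The order `1 + r + 1`: `0` is the first element, `1` the last one, `n + 2` is the element
`n` of the order `r`. -/
def ends (r : ℕ → ℕ → Bool) (a b : ℕ) : Bool :=
  a == 0 || b == 1 || (decide (2 ≤ a) && decide (2 ≤ b) && r (a - 2) (b - 2))

/-! ### Programs -/

/-- The `e`-th program. -/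
def prog (e : ℕ) : Nat.Partrec.Code := Denumerable.ofNat Nat.Partrec.Code e

/-- The `e`-th program with input `y` gives the output `z` within `K` steps. -/
def ev (K e y z : ℕ) : Prop := (prog e).evaln K y = some z

/-- The `e`-th program computes the total function `f`. -/
def Computes (e : ℕ) (f : ℕ → ℕ) : Prop := ∀ x, f x ∈ (prog e).eval x

/-! ### States of the construction -/

/-- An entry: label, image (an element of the order `r`), and the flag `this label and the next
one (in the list) are frozen`. -/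
abbrev Ent := ℕ × ℕ × Bool

/-- A state: the list of the `e` which have acted, and the list of the entries, in the order of
the images. -/
abbrev St := List ℕ × List Ent

/-- The entry number `i`. -/
def ent (L : List Ent) (i : ℕ) : Ent := L.getD i (0, 0, false)

/-- The label of the entry number `i`. -/
def lab (L : List Ent) (i : ℕ) : ℕ := (ent L i).1

/-- The image of the entry number `i`. -/
def im (L : List Ent) (i : ℕ) : ℕ := (ent L i).2.1

/-- The flag of the entry number `i`. -/
def fl (L : List Ent) (i : ℕ) : Bool := (ent L i).2.2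

/-- The invariant. The labels are `0, …, L.length - 1` in some order, the images increase, frozen
pairs have adjacent images, the first entry is `(0, 0)` and the last one is `(1, 1)`. -/
structure Inv (r : ℕ → ℕ → Bool) (L : List Ent) : Prop where
  two : 2 ≤ L.length
  lab_lt : ∀ i < L.length, lab L i < L.length
  lab_inj : ∀ i < L.length, ∀ j < L.length, lab L i = lab L j → i = j
  im_lt : ∀ i j, i < j → j < L.length → Lt r (im L i) (im L j)
  fl_adj : ∀ i < L.length, fl L i = true → i + 1 < L.length ∧ Adj r (im L i) (im L (i + 1))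
  lab_first : lab L 0 = 0
  im_first : im L 0 = 0
  lab_last : lab L (L.length - 1) = 1
  im_last : im L (L.length - 1) = 1

/-- The new position of the old position `t` if `m` new entries are inserted after the
position `k`. -/
def sh (k m t : ℕ) : ℕ := if t ≤ k then t else t + m

/-- Odd steps: the least element `u` which is not yet an image gets the new label `L.length`; the
new entry is put after the position `p`. -/
def Ext (r : ℕ → ℕ → Bool) (L L' : List Ent) : Prop :=
  ∃ p u, p + 1 < L.length ∧ (∀ i < L.length, im L i ≠ u) ∧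
    (∀ v < u, ∃ i < L.length, im L i = v) ∧ Lt r (im L p) u ∧ Lt r u (im L (p + 1)) ∧
    L'.length = L.length + 1 ∧ (∀ t < L.length, ent L' (sh p 1 t) = ent L t) ∧
    ent L' (p + 1) = (L.length, u, false)

/-- The data `i, j` (first and last position of the segment), `y, z, w` (positions in the
segment with `φ_e (y) = z`, `φ_e (z) = w`) and `k` (a position between `y` and `z` whose flag is
`false`) allow `e` to act. -/
def Valid (K e : ℕ) (L : List Ent) (i j y z w k : ℕ) : Prop :=
  (1 ≤ i ∧ i ≤ j ∧ j + 1 < L.length ∧ fl L (i - 1) = false ∧ fl L j = false) ∧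
  (∀ t, i ≤ t → t ≤ j → e < lab L t ∧ e < im L t) ∧
  (i ≤ y ∧ y ≤ j ∧ i ≤ z ∧ z ≤ j ∧ i ≤ w ∧ w ≤ j) ∧
  (y < z ∧ z < w ∨ w < z ∧ z < y) ∧
  (ev K e (lab L y) (lab L z) ∧ ev K e (lab L z) (lab L w)) ∧
  (min y z ≤ k ∧ k < max y z ∧ fl L k = false)

/-- The distance of two positions. -/
def dd (z w : ℕ) : ℕ := max z w - min z w

/-- The action with these data leads from `L` to `L'`: `m = |z - w|` new entries after the
position `k`, the pairs between `z` and `w` are frozen, the segment `i, …, j + m` of `L'` is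
mapped to a chain of consecutive elements between the images of `i - 1` and `j + 1`. -/
def ActTo (r : ℕ → ℕ → Bool) (L L' : List Ent) (i j z w k : ℕ) : Prop :=
  L'.length = L.length + dd z w ∧
  (∀ t < L.length, lab L' (sh k (dd z w) t) = lab L t) ∧
  (∀ t < L.length, (t < i ∨ j < t) → im L' (sh k (dd z w) t) = im L t) ∧
  (∀ t < L.length, (fl L' (sh k (dd z w) t) = true ↔
    (fl L t = true ∨ (min z w ≤ t ∧ t < max z w)))) ∧
  (∀ t < dd z w, lab L' (k + 1 + t) = L.length + t ∧ fl L' (k + 1 + t) = false) ∧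
  Lt r (im L (i - 1)) (im L' i) ∧ Lt r (im L' (j + dd z w)) (im L (j + 1)) ∧
  (∀ t, i ≤ t → t < j + dd z w → Adj r (im L' t) (im L' (t + 1)))

/-- Even steps (for the program `e`, computations with less than `K` steps). -/
def EvenStep (r : ℕ → ℕ → Bool) (K e : ℕ) (s s' : St) : Prop :=
  (e ∈ s.1 ∧ s' = s) ∨
  (e ∉ s.1 ∧ s'.1 = e :: s.1 ∧ ∃ i j y z w k, Valid K e s.2 i j y z w k ∧
    ActTo r s.2 s'.2 i j z w k) ∨
  (e ∉ s.1 ∧ s' = s ∧ ∀ i j y z w k, Valid K e s.2 i j y z w k →
    Path r (im s.2 (i - 1)) (im s.2 (j + 1)))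

/-- The step relation: stage `2 l` treats `e = l.unpair.1` (with `l` steps of the programs), stage
`2 l + 1` adds the least missing element. -/
def Step (r : ℕ → ℕ → Bool) (k : ℕ) (s s' : St) : Prop :=
  (k % 2 = 0 ∧ EvenStep r (k / 2) (k / 2).unpair.1 s s') ∨
  (k % 2 = 1 ∧ s'.1 = s.1 ∧ Ext r s.2 s'.2)

/-- The initial state. -/
def st0 : St := ([], [(0, 0, false), (1, 1, false)])

/-! ### Labels -/

/-- The position of the label `a`. -/
def pos (L : List Ent) (a : ℕ) : ℕ := L.findIdx fun x => decide (x.1 = a)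

/-- The image of the label `a`. -/
def imgL (L : List Ent) (a : ℕ) : ℕ := im L (pos L a)

/-- The labels `a` and `b` are neighbours and frozen. -/
def frzL (L : List Ent) (a b : ℕ) : Prop :=
  ∃ i, i + 1 < L.length ∧ lab L i = a ∧ lab L (i + 1) = b ∧ fl L i = true

/-! ### The abstract properties of the construction

`N k` is the number of labels at stage `k` (the labels are `0, …, N k - 1`), `img k a` the image
of the label `a` at stage `k`, `frz k a b` says that the label `b` follows the label `a`
immediately and that this pair is frozen, `acts k e` says that `e` acts in the step from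
`k` to `k + 1`. -/

/-- What an action does. `n, img, frz` belong to the stage before the action, `n', img', frz'` to
the stage after it. `Seg` is the set of the labels of the segment (after the action), `m` the
number of new labels. -/
def ActGen (r : ℕ → ℕ → Bool) (n n' : ℕ) (img img' : ℕ → ℕ) (frz frz' : ℕ → ℕ → Prop)
    (e : ℕ) : Prop :=
  ∃ (Seg : ℕ → Prop) (y z w m : ℕ),
    (∀ a, Seg a → a < n' ∧ e < a ∧ (a < n → e < img a)) ∧
    (∀ a, n ≤ a → a < n' → Seg a) ∧
    (∀ a < n, ¬ Seg a → img' a = img a) ∧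
    (∀ a b, frz' a b → (Seg a ↔ Seg b)) ∧
    (∀ a b, frz' a b → ¬ Seg a → frz a b) ∧
    1 ≤ m ∧ n' = n + m ∧ y < n ∧ z < n ∧ w < n ∧
    z ∈ (prog e).eval y ∧ w ∈ (prog e).eval z ∧
    (((∀ t < m, Lt r (img' y) (img' (n + t)) ∧ Lt r (img' (n + t)) (img' z)) ∧
        ∃ c : ℕ → ℕ, c 0 = z ∧ c m = w ∧ ∀ t < m, frz' (c t) (c (t + 1))) ∨
      ((∀ t < m, Lt r (img' z) (img' (n + t)) ∧ Lt r (img' (n + t)) (img' y)) ∧
        ∃ c : ℕ → ℕ, c 0 = w ∧ c m = z ∧ ∀ t < m, frz' (c t) (c (t + 1))))

/-- All intervals in which `e` could act have been seen to be finite (`n, img, frz` belong to the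
stage, `K` bounds the computations). -/
def NoActGen (r : ℕ → ℕ → Bool) (n : ℕ) (img : ℕ → ℕ) (frz : ℕ → ℕ → Prop) (K e : ℕ) : Prop :=
  ∀ p q y z w, p < n → q < n → y < n → z < n → w < n →
    Lt r (img p) (img y) → Lt r (img y) (img q) →
    Lt r (img p) (img z) → Lt r (img z) (img q) →
    Lt r (img p) (img w) → Lt r (img w) (img q) →
    (Lt r (img y) (img z) ∧ Lt r (img z) (img w) ∨
      Lt r (img w) (img z) ∧ Lt r (img z) (img y)) →
    (∀ a < n, Lt r (img p) (img a) → Lt r (img a) (img q) → e < a ∧ e < img a) →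
    (∀ a, frz p a → Lt r (img a) (img q) → False) →
    (∀ a, frz a q → Lt r (img p) (img a) → False) →
    ev K e y z → ev K e z w →
    ¬ Relation.ReflTransGen frz y z → ¬ Relation.ReflTransGen frz z y →
    Path r (img p) (img q)

/-- The abstract properties of the construction. -/
structure Run (r : ℕ → ℕ → Bool) (N : ℕ → ℕ) (img : ℕ → ℕ → ℕ) (frz : ℕ → ℕ → ℕ → Prop)
    (acts : ℕ → ℕ → Prop) : Prop where
  two : ∀ k, 2 ≤ N k
  mono : ∀ k, N k ≤ N (k + 1)
  img_zero : ∀ k, img k 0 = 0
  img_one : ∀ k, img k 1 = 1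
  img_inj : ∀ k a b, a < N k → b < N k → img k a = img k b → a = b
  ord : ∀ k a b, a < N k → b < N k → Lt r (img k a) (img k b) →
    Lt r (img (k + 1) a) (img (k + 1) b)
  frz_lt : ∀ k a b, frz k a b → a < N k ∧ b < N k
  frz_adj : ∀ k a b, frz k a b → Adj r (img k a) (img k b)
  frz_mono : ∀ k a b, frz k a b → frz (k + 1) a b
  odd_N : ∀ l, N (2 * l + 2) = N (2 * l + 1) + 1
  odd_img : ∀ l a, a < N (2 * l + 1) → img (2 * l + 2) a = img (2 * l + 1) a
  odd_frz : ∀ l a b, frz (2 * l + 2) a b → frz (2 * l + 1) a b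
  odd_new : ∀ l a, a < N (2 * l + 1) → img (2 * l + 1) a ≠ img (2 * l + 2) (N (2 * l + 1))
  odd_least : ∀ l, ∀ v < img (2 * l + 2) (N (2 * l + 1)), ∃ a < N (2 * l + 1),
    img (2 * l + 1) a = v
  idle : ∀ l, (∀ e, ¬ acts (2 * l) e) → N (2 * l + 1) = N (2 * l) ∧
    (∀ a < N (2 * l), img (2 * l + 1) a = img (2 * l) a) ∧
    ∀ a b, frz (2 * l + 1) a b → frz (2 * l) a b
  act_even : ∀ k e, acts k e → ∃ l, k = 2 * l ∧ l.unpair.1 = e
  act_once : ∀ k k' e, acts k e → acts k' e → k = k'
  act : ∀ k e, acts k e →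
    ActGen r (N k) (N (k + 1)) (img k) (img (k + 1)) (frz k) (frz (k + 1)) e
  no_act : ∀ l e, l.unpair.1 = e → (∀ k, ¬ acts k e) →
    NoActGen r (N (2 * l)) (img (2 * l)) (frz (2 * l)) l e

/-- `h` is the limit of the images. -/
def Lim (N : ℕ → ℕ) (img : ℕ → ℕ → ℕ) (h : ℕ → ℕ) : Prop :=
  ∀ a, ∃ k₀, ∀ k ≥ k₀, a < N k ∧ img k a = h a

/-- `a` and `b` are connected by frozen pairs (in either direction) at stage `k`. -/
def Con (frz : ℕ → ℕ → ℕ → Prop) (k : ℕ) : ℕ → ℕ → Prop :=
  Relation.ReflTransGen fun x y => frz k x y ∨ frz k y x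

/-! ### The easy direction -/

/-- There are at least `N` elements strictly between `x` and `y`. -/
def Far (s : ℕ → ℕ → Bool) (N x y : ℕ) : Prop :=
  ∃ c : List ℕ, c.length = N ∧ c.Nodup ∧ ∀ z ∈ c, Lt s x z ∧ Lt s z y

/-- An interval in which the relation `Far` is dense. -/
def FarDense (s : ℕ → ℕ → Bool) : Prop :=
  ∃ N a b : ℕ, 1 ≤ N ∧ Far s N a b ∧
    ∀ x y, s a x = true → s y b = true → Far s N x y → ∃ z, Far s N x z ∧ Far s N z y

end Pool.Agent.DMO
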