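import Pool.Agent.DMO.Defs

/-!
# Basic lemmas for MP_55b29c_lc
-/

namespace Pool.Agent.DMO

/-! ### Orders -/

section

variable {r : ℕ → ℕ → Bool}

theorem Lt.irrefl (hr : LO r) {a : ℕ} (h : Lt r a a) : False := by
  have := hr.refl a
  rw [h] at this
  exact Bool.false_ne_true this

theorem Lt.le (hr : LO r) {a b : ℕ} (h : Lt r a b) : r a b = true := by
  rcases hr.total a b with h' | h'
  · exact h'
  · rw [h] at h'
    exact absurd h' Bool.false_ne_true

theorem Lt.ne (hr : LO r) {a b : ℕ} (h : Lt r a b) : a ≠ b := by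
  rintro rfl
  exact h.irrefl hr

theorem lt_iff (hr : LO r) {a b : ℕ} : Lt r a b ↔ r a b = true ∧ a ≠ b := by
  constructor
  · intro h
    exact ⟨h.le hr, h.ne hr⟩
  · rintro ⟨h1, h2⟩
    by_contra h3
    have h4 : r b a = true := by
      unfold Lt at h3
      simpa using h3
    exact h2 (hr.anti a b h1 h4)

theorem not_lt (hr : LO r) {a b : ℕ} : ¬ Lt r a b ↔ r b a = true := by
  unfold Lt
  simp

theorem le_iff (hr : LO r) {a b : ℕ} : r a b = true ↔ Lt r a b ∨ a = b := by
  constructor
  · intro h
    by_cases hab : a = b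
    · exact Or.inr hab
    · exact Or.inl ((lt_iff hr).2 ⟨h, hab⟩)
  · rintro (h | rfl)
    · exact h.le hr
    · exact hr.refl a

theorem Lt.trans (hr : LO r) {a b c : ℕ} (h : Lt r a b) (h' : Lt r b c) : Lt r a c := by
  rw [lt_iff hr] at h h' ⊢
  refine ⟨hr.trans a b c h.1 h'.1, ?_⟩
  rintro rfl
  exact h.2 (hr.anti a b h.1 h'.1)

theorem Lt.trans_le (hr : LO r) {a b c : ℕ} (h : Lt r a b) (h' : r b c = true) : Lt r a c := by
  rcases (le_iff hr).1 h' with h' | rfl
  · exact h.trans hr h'
  · exact h

theorem le_trans_lt (hr : LO r) {a b c : ℕ} (h : r a b = true) (h' : Lt r b c) : Lt r a c := by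
  rcases (le_iff hr).1 h with h | rfl
  · exact h.trans hr h'
  · exact h'

theorem Lt.asymm (hr : LO r) {a b : ℕ} (h : Lt r a b) (h' : Lt r b a) : False :=
  (h.trans hr h').irrefl hr

theorem lt_trichotomy (hr : LO r) (a b : ℕ) : Lt r a b ∨ a = b ∨ Lt r b a := by
  by_cases h : Lt r a b
  · exact Or.inl h
  · rw [not_lt hr, le_iff hr] at h
    rcases h with h | h
    · exact Or.inr (Or.inr h)
    · exact Or.inr (Or.inl h.symm)

/-- `r` as a linear order on a copy of the natural numbers. -/
def Car (_ : LO r) : Type := ℕ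

/-- The identity map into the copy. -/
def Car.mk (hr : LO r) (n : ℕ) : Car hr := n

/-- The identity map from the copy. -/
def Car.val {hr : LO r} (a : Car hr) : ℕ := a

noncomputable instance (hr : LO r) : LinearOrder (Car hr) where
  le a b := r a.val b.val = true
  lt a b := Lt r a.val b.val
  le_refl a := hr.refl _
  le_trans a b c := hr.trans _ _ _
  le_antisymm a b := hr.anti _ _
  lt_iff_le_not_ge a b := by
    change Lt r a.val b.val ↔ r a.val b.val = true ∧ ¬ r b.val a.val = true
    constructor
    · intro h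
      exact ⟨h.le hr, by rw [h]; exact Bool.false_ne_true⟩
    · rintro ⟨-, h⟩
      unfold Lt
      simpa using h
  le_total a b := hr.total _ _
  toDecidableLE := Classical.decRel _

instance (hr : LO r) : Countable (Car hr) := inferInstanceAs (Countable ℕ)

theorem Car.le_def {hr : LO r} {a b : Car hr} : a ≤ b ↔ r a.val b.val = true := Iff.rfl

theorem Car.lt_def {hr : LO r} {a b : Car hr} : a < b ↔ Lt r a.val b.val := Iff.rfl

end

/-! ### Entries -/

theorem ent_of_range_map (F : ℕ → Ent) (n t : ℕ) (ht : t < n) :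
    ent ((List.range n).map F) t = F t := by
  unfold ent
  rw [List.getD_eq_getElem _ _ (by simpa using ht)]
  simp

theorem ent_eq_getElem (L : List Ent) (t : ℕ) (ht : t < L.length) : ent L t = L[t] := by
  unfold ent
  rw [List.getD_eq_getElem _ _ ht]

/-- Every list of entries is given by a function. -/
theorem exists_list (F : ℕ → Ent) (n : ℕ) :
    ∃ L : List Ent, L.length = n ∧ ∀ t < n, ent L t = F t :=
  ⟨(List.range n).map F, by simp, fun t ht => ent_of_range_map F n t ht⟩

/-! ### The shift of positions -/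

theorem sh_le {k m t : ℕ} (h : t ≤ k) : sh k m t = t := by
  unfold sh
  rw [if_pos h]

theorem sh_gt {k m t : ℕ} (h : k < t) : sh k m t = t + m := by
  unfold sh
  rw [if_neg (by omega)]

theorem sh_lt {k m t n : ℕ} (h : t < n) : sh k m t < n + m := by
  unfold sh
  split_ifs <;> omega

theorem sh_lt_iff {k m s t : ℕ} : sh k m s < sh k m t ↔ s < t := by
  unfold sh
  split_ifs <;> omega

theorem sh_inj {k m s t : ℕ} : sh k m s = sh k m t ↔ s = t := by
  unfold sh
  split_ifs <;> omega

theorem sh_ge_self {k m t : ℕ} : t ≤ sh k m t := by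
  unfold sh
  split_ifs <;> omega

/-- Every position of the new list is a shifted old position or one of the new ones. -/
theorem sh_cases (k m n s : ℕ) (hk : k < n) (hs : s < n + m) :
    (∃ t < n, s = sh k m t) ∨ ∃ t < m, s = k + 1 + t := by
  by_cases h1 : s ≤ k
  · exact Or.inl ⟨s, by omega, (sh_le h1).symm⟩
  · by_cases h2 : s < k + 1 + m
    · exact Or.inr ⟨s - (k + 1), by omega, by omega⟩
    · exact Or.inl ⟨s - m, by omega, by rw [sh_gt (by omega)]; omega⟩

/-- A new position is not a shifted old one. -/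
theorem sh_ne_new {k m t s : ℕ} (hs : s < m) : sh k m t ≠ k + 1 + s := by
  unfold sh
  split_ifs <;> omega

/-! ### Positions of labels -/

section

variable {r : ℕ → ℕ → Bool} {L : List Ent}

/-- Every label below the length occurs. -/
theorem Inv.exists_lab (hL : Inv r L) {a : ℕ} (ha : a < L.length) :
    ∃ i < L.length, lab L i = a := by
  have hinj : Function.Injective fun i : Fin L.length => (⟨lab L i, hL.lab_lt i i.2⟩ :
      Fin L.length) := by
    intro i j hij
    have : lab L i = lab L j := by simpa using hij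
    exact Fin.ext (hL.lab_inj i i.2 j j.2 this)
  obtain ⟨i, hi⟩ := (Finite.injective_iff_surjective.1 hinj) ⟨a, ha⟩
  exact ⟨i, i.2, by simpa using hi⟩

theorem pos_spec (hL : Inv r L) {a : ℕ} (ha : a < L.length) :
    pos L a < L.length ∧ lab L (pos L a) = a := by
  obtain ⟨i, hi, hia⟩ := hL.exists_lab ha
  have h1 : pos L a < L.length := by
    unfold pos
    rw [List.findIdx_lt_length]
    refine ⟨L[i], List.getElem_mem hi, ?_⟩
    unfold lab at hia
    rw [ent_eq_getElem L i hi] at hia
    simpa using hia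
  refine ⟨h1, ?_⟩
  have h2 := List.findIdx_getElem (p := fun x : Ent => decide (x.1 = a)) (xs := L) (w := h1)
  unfold lab
  rw [ent_eq_getElem L _ h1]
  exact of_decide_eq_true h2

theorem pos_lab (hL : Inv r L) {i : ℕ} (hi : i < L.length) : pos L (lab L i) = i := by
  obtain ⟨h1, h2⟩ := pos_spec hL (hL.lab_lt i hi)
  exact hL.lab_inj _ h1 _ hi h2

theorem imgL_lab (hL : Inv r L) {i : ℕ} (hi : i < L.length) : imgL L (lab L i) = im L i := by
  unfold imgL
  rw [pos_lab hL hi]

theorem lt_imgL_iff (hr : LO r) (hL : Inv r L) {a b : ℕ} (ha : a < L.length)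
    (hb : b < L.length) : Lt r (imgL L a) (imgL L b) ↔ pos L a < pos L b := by
  obtain ⟨ha1, ha2⟩ := pos_spec hL ha
  obtain ⟨hb1, hb2⟩ := pos_spec hL hb
  constructor
  · intro h
    by_contra h'
    rcases Nat.lt_or_eq_of_le (Nat.le_of_not_lt h') with h1 | h1
    · exact h.asymm hr (hL.im_lt _ _ h1 ha1)
    · unfold imgL at h
      rw [h1] at h
      exact h.irrefl hr
  · intro h
    exact hL.im_lt _ _ h hb1

theorem imgL_inj (hr : LO r) (hL : Inv r L) {a b : ℕ} (ha : a < L.length)
    (hb : b < L.length) (h : imgL L a = imgL L b) : a = b := by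
  obtain ⟨ha1, ha2⟩ := pos_spec hL ha
  obtain ⟨hb1, hb2⟩ := pos_spec hL hb
  rcases Nat.lt_trichotomy (pos L a) (pos L b) with h1 | h1 | h1
  · have := (lt_imgL_iff hr hL ha hb).2 h1
    rw [h] at this
    exact absurd this fun h => h.irrefl hr
  · rw [← ha2, ← hb2, h1]
  · have := (lt_imgL_iff hr hL hb ha).2 h1
    rw [h] at this
    exact absurd this fun h => h.irrefl hr

theorem imgL_zero (hL : Inv r L) : imgL L 0 = 0 := by
  have h1 : 0 < L.length := by have := hL.two; omega
  have := imgL_lab hL h1
  rwa [hL.lab_first, hL.im_first] at this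

theorem imgL_one (hL : Inv r L) : imgL L 1 = 1 := by
  have h1 : L.length - 1 < L.length := by have := hL.two; omega
  have := imgL_lab hL h1
  rwa [hL.lab_last, hL.im_last] at this

end

end Pool.Agent.DMO
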