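import Pool.Agent.DMO.Targets

/-!
# Assembly for MP_55b29c_lc
-/

namespace Pool.Agent.DMO

/-- The order axioms are transported along a bijection. -/
theorem LO.of_equiv {r s : ℕ → ℕ → Bool} (hr : LO r) (e : ℕ ≃ ℕ)
    (h : ∀ a b, r a b = s (e a) (e b)) : LO s := by
  have h' : ∀ a b, s a b = r (e.symm a) (e.symm b) := by
    intro a b
    rw [h]
    simp
  refine ⟨fun a => ?_, fun a b hab hba => ?_, fun a b c hab hbc => ?_, fun a b => ?_⟩
  · rw [h']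
    exact hr.refl _
  · rw [h'] at hab hba
    exact e.symm.injective (hr.anti _ _ hab hba)
  · rw [h'] at hab hbc ⊢
    exact hr.trans _ _ _ hab hbc
  · rw [h', h']
    exact hr.total _ _

/-- The main theorem, from the targets. -/
theorem main_of (hISO : T_ISO) (hFD : T_FD) (hGCON : T_GCON) (hENDS : T_ENDS) (hENDH : T_ENDH)
    (hLCC : T_LCC) (hH1 : T_HALF1) (hH2 : T_HALF2) (hBACK : T_BACK)
    (r : ℕ → ℕ → Bool) (hr : LO r) (r₀ : ℕ → ℕ → Bool) (hr₀ : Computable₂ r₀)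
    (e₀ : ℕ ≃ ℕ) (he₀ : ∀ a b, r a b = r₀ (e₀ a) (e₀ b))
    (hadj : ComputablePred fun x : ℕ × ℕ => Adj r₀ x.1 x.2) :
    (∀ s : ℕ → ℕ → Bool, Computable₂ s →
        (∃ e : ℕ ≃ ℕ, ∀ a b, r a b = s (e a) (e b)) →
        ∃ g : ℕ → ℕ, Computable g ∧ Function.Injective g ∧ g ≠ id ∧
          ∀ a b, s a b = true → s (g a) (g b) = true) ↔ HasSEta r := by
  constructor
  · intro H
    by_contra hS
    have hr₀' : LO r₀ := hr.of_equiv e₀ he₀
    have hS₀ : ¬ HasSEta r₀ := fun h => hS (hISO r₀ r e₀.symm (by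
      intro a b
      rw [he₀]
      simp) h)
    obtain ⟨hE, hEc, hE0, hE1, hEa⟩ := hENDS r₀ hr₀' hr₀ hadj
    have hSE : ¬ HasSEta (ends r₀) := fun h => hS₀ (hENDH r₀ hr₀' h)
    have hLC := hLCC (ends r₀) hE hSE
    obtain ⟨N, img, frz, acts, s, hRun, hsc, hs⟩ := hH1 (ends r₀) hE hE0 hE1 hEc hEa hLC
    obtain ⟨h, hh0, hh1, hsh, hrig⟩ := hH2 (ends r₀) N img frz acts hE hE0 hE1 hRun s hs
    obtain ⟨s₀, hs₀c, ⟨e, he⟩, hrig₀⟩ := hBACK r₀ s h hr₀' hsc hh0 hh1 hsh hrig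
    obtain ⟨g, hgc, hgi, hgne, hgm⟩ := H s₀ hs₀c ⟨e₀.trans e, fun a b => by
      rw [he₀, he]
      rfl⟩
    exact hgne (hrig₀ g hgc hgi hgm)
  · rintro hS s hs ⟨e, he⟩
    have hsLO : LO s := hr.of_equiv e he
    exact hGCON s hsLO hs (hFD s hsLO (hISO r s e he hS))

end Pool.Agent.DMO
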