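import Pool.Agent.DMO.Targets

/-!
# T_ACT1: the action is possible if the interval is infinite
-/

set_option autoImplicit false

namespace Pool.Agent.DMO

namespace HACT1

/-- The old position which belongs to the position `t` of the new list. -/
def old (k m t : ℕ) : ℕ := if t ≤ k then t else t - m

theorem old_sh {k m t : ℕ} : old k m (sh k m t) = t := by
  unfold old sh
  split_ifs <;> omega

/-- The entries of the new list. -/
def F (L : List Ent) (c : ℕ → ℕ) (i j z w k m t : ℕ) : Ent :=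
  if k < t ∧ t ≤ k + m then (L.length + (t - k - 1), c (t - i), false)
  else (lab L (old k m t), if i ≤ t ∧ t ≤ j + m then c (t - i) else im L (old k m t),
    fl L (old k m t) || (decide (min z w ≤ old k m t) && decide (old k m t < max z w)))

theorem F_new {L : List Ent} {c : ℕ → ℕ} {i j z w k m t : ℕ} (h1 : k < t) (h2 : t ≤ k + m) :
    F L c i j z w k m t = (L.length + (t - k - 1), c (t - i), false) := by
  unfold F
  rw [if_pos ⟨h1, h2⟩]

theorem F_sh {L : List Ent} {c : ℕ → ℕ} {i j z w k m t : ℕ} :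
    F L c i j z w k m (sh k m t) =
      (lab L t, if i ≤ sh k m t ∧ sh k m t ≤ j + m then c (sh k m t - i) else im L t,
        fl L t || (decide (min z w ≤ t) && decide (t < max z w))) := by
  unfold F
  have h : ¬ (k < sh k m t ∧ sh k m t ≤ k + m) := by
    unfold sh
    split_ifs <;> omega
  rw [if_neg h, old_sh]

theorem F_seg {L : List Ent} {c : ℕ → ℕ} {i j z w k m t : ℕ} (h1 : i ≤ t) (h2 : t ≤ j + m) :
    (F L c i j z w k m t).2.1 = c (t - i) := by
  unfold F
  by_cases h : k < t ∧ t ≤ k + m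
  · rw [if_pos h]
  · rw [if_neg h, if_pos ⟨h1, h2⟩]

end HACT1

open HACT1 in
theorem p_ACT1 : T_ACT1 := by
  intro r L K e i j y z w k hr hch hL hV hP
  obtain ⟨⟨hi1, hij, hjL, -, -⟩, -, ⟨hiy, hyj, hiz, hzj, hiw, hwj⟩, -, -, hk1, hk2, -⟩ := hV
  have hik : i ≤ k := le_trans (le_min hiy hiz) hk1
  have hkj : k < j := lt_of_lt_of_le hk2 (max_le hyj hzj)
  have hPQ : Lt r (im L (i - 1)) (im L (j + 1)) := hL.im_lt _ _ (by omega) hjL
  obtain ⟨c, hc1, hc2⟩ := hch _ _ hPQ hP (j - i + 1 + dd z w)
  obtain ⟨m, hm⟩ : ∃ m, m = dd z w := ⟨_, rfl⟩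
  rw [← hm] at hc1 hc2
  obtain ⟨L', hlen, hent⟩ := exists_list (F L c i j z w k m) (L.length + m)
  have hseg : ∀ t, i ≤ t → t ≤ j + m → im L' t = c (t - i) := by
    intro t h1 h2
    unfold im
    rw [hent t (by omega)]
    exact F_seg h1 h2
  refine ⟨L', ?_, ?_, ?_, ?_, ?_, ?_, ?_, ?_⟩
  · rw [← hm]
    exact hlen
  · intro t ht
    rw [← hm]
    unfold lab
    rw [hent _ (sh_lt ht), F_sh]
    rfl
  · intro t ht h
    rw [← hm]
    unfold im
    rw [hent _ (sh_lt ht), F_sh]
    have h' : ¬ (i ≤ sh k m t ∧ sh k m t ≤ j + m) := by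
      unfold sh
      split_ifs <;> omega
    simp only [if_neg h']
    rfl
  · intro t ht
    rw [← hm]
    unfold fl
    rw [hent _ (sh_lt ht), F_sh]
    unfold fl
    simp
  · intro t ht
    rw [← hm] at ht
    unfold lab fl
    rw [hent _ (by omega), F_new (by omega) (by omega)]
    refine ⟨?_, rfl⟩
    have h : k + 1 + t - k - 1 = t := by omega
    simp only [h]
  · rw [hseg i le_rfl (by omega)]
    exact (hc1 _ (by omega)).1
  · rw [← hm, hseg (j + m) (by omega) le_rfl]
    exact (hc1 _ (by omega)).2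
  · intro t h1 h2
    rw [← hm] at h2
    rw [hseg t h1 (by omega), hseg (t + 1) (by omega) (by omega)]
    have h3 := hc2 (t - i) (by omega)
    have h4 : t + 1 - i = t - i + 1 := by omega
    rw [h4]
    exact h3

end Pool.Agent.DMO
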