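import Pool.Agent.DMO.Targets

set_option autoImplicit false

/-!
# Target ACT2 for MP_55b29c_lc: the action preserves the invariant
-/

namespace Pool.Agent.DMO

namespace HACT2

/-- From consecutive positions to all positions. -/
theorem chain_lt {r : ℕ → ℕ → Bool} (hr : LO r) (g : ℕ → ℕ) (n : ℕ)
    (h : ∀ t, t + 1 < n → Lt r (g t) (g (t + 1))) (a : ℕ) :
    ∀ d, a + d + 1 < n → Lt r (g a) (g (a + d + 1)) := by
  intro d
  induction d with
  | zero => intro hd; exact h a hd
  | succ d ih =>
    intro hd
    exact (ih (by omega)).trans hr (h (a + d + 1) hd)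

end HACT2

open HACT2

theorem p_ACT2 : T_ACT2 := by
  intro r L L' K e i j y z w k hr hL hV hA
  obtain ⟨⟨hi1, hij, hjL, hfi, hfj⟩, -, ⟨hy1, hy2, hz1, hz2, hw1, hw2⟩, hcase, -, hk1, hk2,
    hfk⟩ := hV
  obtain ⟨hlen, hlab, him, hfl, hnew, h1, h2, h3⟩ := hA
  have hm : dd z w = max z w - min z w := rfl
  set m := dd z w with hmdef
  clear_value m
  have hm1 : 1 ≤ m := by omega
  have hik : i ≤ k := by omega
  have hkj : k < j := by omega
  have hlo : i ≤ min z w := by omega
  have hup : max z w ≤ j := by omega
  have hkout : k < min z w ∨ max z w ≤ k := by omega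
  have hkL : k < L.length := by omega
  -- consecutive images
  have hstep : ∀ t, t + 1 < L'.length → Lt r (im L' t) (im L' (t + 1)) := by
    intro t ht
    rw [hlen] at ht
    rcases Nat.lt_or_ge (t + 1) i with c1 | c1
    · have e1 := him t (by omega) (Or.inl (by omega))
      have e2 := him (t + 1) (by omega) (Or.inl (by omega))
      rw [sh_le (by omega)] at e1 e2
      rw [e1, e2]
      exact hL.im_lt _ _ (by omega) (by omega)
    · rcases Nat.eq_or_lt_of_le c1 with c2 | c2
      · have e1 := him t (by omega) (Or.inl (by omega))
        rw [sh_le (by omega)] at e1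
        rw [e1, ← c2, show t = i - 1 by omega]
        exact h1
      · rcases Nat.lt_or_ge t (j + m) with c3 | c3
        · exact (h3 t (by omega) c3).1
        · rcases Nat.eq_or_lt_of_le c3 with c4 | c4
          · have e2 := him (j + 1) hjL (Or.inr (by omega))
            rw [sh_gt (by omega)] at e2
            rw [show t + 1 = j + 1 + m by omega, e2, ← c4]
            exact h2
          · have e1 := him (t - m) (by omega) (Or.inr (by omega))
            have e2 := him (t + 1 - m) (by omega) (Or.inr (by omega))
            rw [sh_gt (by omega), show t - m + m = t by omega] at e1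
            rw [sh_gt (by omega), show t + 1 - m + m = t + 1 by omega] at e2
            rw [e1, e2]
            exact hL.im_lt _ _ (by omega) (by omega)
  refine ⟨?_, ?_, ?_, ?_, ?_, ?_, ?_, ?_, ?_⟩
  · have := hL.two
    omega
  · intro t ht
    rw [hlen] at ht ⊢
    rcases sh_cases k m L.length t hkL ht with ⟨s, hs, rfl⟩ | ⟨s, hs, rfl⟩
    · rw [hlab s hs]
      have := hL.lab_lt s hs
      omega
    · rw [(hnew s hs).1]
      omega
  · intro a ha b hb hab
    rw [hlen] at ha hb
    rcases sh_cases k m L.length a hkL ha with ⟨s, hs, rfl⟩ | ⟨s, hs, rfl⟩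
    · rcases sh_cases k m L.length b hkL hb with ⟨t, ht, rfl⟩ | ⟨t, ht, rfl⟩
      · rw [hlab s hs, hlab t ht] at hab
        rw [hL.lab_inj s hs t ht hab]
      · rw [hlab s hs, (hnew t ht).1] at hab
        have := hL.lab_lt s hs
        omega
    · rcases sh_cases k m L.length b hkL hb with ⟨t, ht, rfl⟩ | ⟨t, ht, rfl⟩
      · rw [hlab t ht, (hnew s hs).1] at hab
        have := hL.lab_lt t ht
        omega
      · rw [(hnew s hs).1, (hnew t ht).1] at hab
        omega
  · intro a b hab hb
    have := chain_lt hr (im L') L'.length hstep a (b - a - 1) (by omega)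
    rwa [show a + (b - a - 1) + 1 = b by omega] at this
  · intro t ht hft
    rw [hlen] at ht
    rcases sh_cases k m L.length t hkL ht with ⟨s, hs, rfl⟩ | ⟨s, hs, rfl⟩
    · rw [hfl s hs] at hft
      have hsk : s ≠ k := by
        rintro rfl
        rcases hft with h | h
        · rw [hfk] at h
          exact absurd h Bool.false_ne_true
        · omega
      have hsj : s ≠ j := by
        rintro rfl
        rcases hft with h | h
        · rw [hfj] at h
          exact absurd h Bool.false_ne_true
        · omega
      have hsi : s ≠ i - 1 := by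
        rintro rfl
        rcases hft with h | h
        · rw [hfi] at h
          exact absurd h Bool.false_ne_true
        · omega
      have hs1 : s + 1 < L.length ∧ (s < i ∨ j < s → Adj r (im L s) (im L (s + 1))) := by
        rcases hft with h | h
        · have := hL.fl_adj s hs h
          exact ⟨this.1, fun _ => this.2⟩
        · exact ⟨by omega, fun h' => by omega⟩
      have hsh : sh k m (s + 1) = sh k m s + 1 := by
        unfold sh
        split_ifs <;> omega
      have hlt : sh k m s + 1 < L'.length := by
        rw [← hsh, hlen]
        exact sh_lt hs1.1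
      refine ⟨hlt, ?_⟩
      by_cases hin : i ≤ s ∧ s < j
      · apply h3
        · exact le_trans hin.1 sh_ge_self
        · exact sh_lt hin.2
      · have hout : s < i ∨ j < s := by omega
        have e1 := him s hs hout
        have e2 := him (s + 1) hs1.1 (by omega)
        rw [hsh] at e2
        rw [e1, e2]
        exact hs1.2 hout
    · rw [(hnew s hs).2] at hft
      exact absurd hft Bool.false_ne_true
  · have e1 := hlab 0 (by omega)
    rw [sh_le (by omega)] at e1
    rw [e1, hL.lab_first]
  · have e1 := him 0 (by omega) (Or.inl (by omega))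
    rw [sh_le (by omega)] at e1
    rw [e1, hL.im_first]
  · have e1 := hlab (L.length - 1) (by omega)
    rw [sh_gt (by omega), show L.length - 1 + m = L'.length - 1 by omega] at e1
    rw [e1, hL.lab_last]
  · have e1 := him (L.length - 1) (by omega) (Or.inr (by omega))
    rw [sh_gt (by omega), show L.length - 1 + m = L'.length - 1 by omega] at e1
    rw [e1, hL.im_last]

end Pool.Agent.DMO
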