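import Pool.Agent.DMO.Targets

set_option autoImplicit false

/-!
# T_ACTED (MP_55b29c_lc, project DMO): a program which has acted computes no embedding
-/

namespace Pool.Agent.DMO

namespace HACTED

/-- The elements strictly between the ends of a chain are the inner elements of the chain. -/
theorem chain_mem {r : ℕ → ℕ → Bool} (hr : LO r) (C : ℕ → ℕ) (u : ℕ) :
    ∀ m : ℕ, (∀ t < m, Adj r (C t) (C (t + 1))) → Lt r (C 0) u → Lt r u (C m) →
      ∃ t, 1 ≤ t ∧ t < m ∧ C t = u := by
  intro m
  induction m with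
  | zero =>
    intro _ h1 h2
    exact absurd (h1.asymm hr h2) id
  | succ m ih =>
    intro hC h1 h2
    rcases lt_trichotomy hr u (C m) with h | h | h
    · obtain ⟨t, ht1, ht2, ht3⟩ := ih (fun t ht => hC t (Nat.lt_succ_of_lt ht)) h1 h
      exact ⟨t, ht1, Nat.lt_succ_of_lt ht2, ht3⟩
    · refine ⟨m, ?_, Nat.lt_succ_self m, h.symm⟩
      rcases Nat.eq_zero_or_pos m with h0 | h0
      · subst h0
        rw [h] at h1
        exact absurd (h1.irrefl hr) id
      · exact h0
    · exact absurd ((hC m (Nat.lt_succ_self m)).2 u h h2) id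

/-- There are no `m` different elements strictly between the ends of a chain of length `m`. -/
theorem count {r : ℕ → ℕ → Bool} (hr : LO r) (C E : ℕ → ℕ) (m : ℕ) (hm : 1 ≤ m)
    (hC : ∀ t < m, Adj r (C t) (C (t + 1)))
    (hE : ∀ t < m, Lt r (C 0) (E t) ∧ Lt r (E t) (C m))
    (hinj : ∀ s < m, ∀ t < m, E s = E t → s = t) : False := by
  have H : ∀ t, ∃ s, t < m → 1 ≤ s ∧ s < m ∧ C s = E t := by
    intro t
    by_cases ht : t < m
    · obtain ⟨s, hs⟩ := chain_mem hr C (E t) m hC (hE t ht).1 (hE t ht).2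
      exact ⟨s, fun _ => hs⟩
    · exact ⟨0, fun h => absurd h ht⟩
  choose g hg using H
  have hcard : (Finset.Ico 1 m).card < (Finset.range m).card := by
    rw [Nat.card_Ico, Finset.card_range]
    omega
  obtain ⟨s, hs, t, ht, hst, hgst⟩ := Finset.exists_ne_map_eq_of_card_lt_of_maps_to hcard
    (f := g) (fun t ht => by
      have h := hg t (Finset.mem_range.1 ht)
      exact Finset.mem_Ico.2 ⟨h.1, h.2.1⟩)
  have hs' := Finset.mem_range.1 hs
  have ht' := Finset.mem_range.1 ht
  apply hst
  apply hinj s hs' t ht'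
  rw [← (hg s hs').2.2, ← (hg t ht').2.2, hgst]

end HACTED

open HACTED in
theorem p_ACTED : T_ACTED := by
  intro r N img frz acts hr hR h hLim hord k e f hact hcomp hemb
  obtain ⟨Seg, y, z, w, m, -, -, -, -, -, hm, hn, hy, hz, hw, hfy, hfz, hcase⟩ := hR.act k e hact
  have hfy' : f y = z := Part.mem_unique (hcomp y) hfy
  have hfz' : f z = w := Part.mem_unique (hcomp z) hfz
  -- frozen pairs are adjacent in the limit
  have hadj : ∀ a b, frz (k + 1) a b → Adj r (h a) (h b) := by
    intro a b hab
    have hmono : ∀ j, frz (k + 1 + j) a b := by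
      intro j
      induction j with
      | zero => exact hab
      | succ j ih => exact hR.frz_mono _ a b ih
    obtain ⟨ka, hka⟩ := hLim a
    obtain ⟨kb, hkb⟩ := hLim b
    have h1 := hR.frz_adj _ a b (hmono (ka + kb))
    rw [(hka (k + 1 + (ka + kb)) (by omega)).2, (hkb (k + 1 + (ka + kb)) (by omega)).2] at h1
    exact h1
  -- the new labels have different images
  have hinj : ∀ s < m, ∀ t < m, h (f (N k + s)) = h (f (N k + t)) → s = t := by
    intro s hs t ht hst
    by_contra hne
    rcases lt_trichotomy hr (img (k + 1) (N k + s)) (img (k + 1) (N k + t)) with h1 | h1 | h1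
    · have h2 := hemb _ _ (hord (k + 1) _ _ (by omega) (by omega) h1)
      exact h2.ne hr hst
    · have h2 := hR.img_inj (k + 1) _ _ (by omega) (by omega) h1
      omega
    · have h2 := hemb _ _ (hord (k + 1) _ _ (by omega) (by omega) h1)
      exact h2.ne hr hst.symm
  rcases hcase with ⟨h1, c, hc0, hcm, hc⟩ | ⟨h1, c, hc0, hcm, hc⟩
  · refine count hr (fun t => h (c t)) (fun t => h (f (N k + t))) m hm
      (fun t ht => hadj _ _ (hc t ht)) (fun t ht => ?_) hinj
    have h2 := hemb _ _ (hord (k + 1) _ _ (by omega) (by omega) (h1 t ht).1)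
    have h3 := hemb _ _ (hord (k + 1) _ _ (by omega) (by omega) (h1 t ht).2)
    rw [hfy'] at h2
    rw [hfz'] at h3
    simp only [hc0, hcm]
    exact ⟨h2, h3⟩
  · refine count hr (fun t => h (c t)) (fun t => h (f (N k + t))) m hm
      (fun t ht => hadj _ _ (hc t ht)) (fun t ht => ?_) hinj
    have h2 := hemb _ _ (hord (k + 1) _ _ (by omega) (by omega) (h1 t ht).1)
    have h3 := hemb _ _ (hord (k + 1) _ _ (by omega) (by omega) (h1 t ht).2)
    rw [hfz'] at h2
    rw [hfy'] at h3
    simp only [hc0, hcm]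
    exact ⟨h2, h3⟩

end Pool.Agent.DMO
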