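import Pool.Agent.DMO.Targets

/-!
T_BACK: from a rigid copy of `1 + r + 1` to a rigid copy of `r`
-/

set_option autoImplicit false

namespace Pool.Agent.DMO

namespace HBACK

/-- The extension of a map by two fixed end points. -/
def ext (g : ℕ → ℕ) (n : ℕ) : ℕ := Nat.casesOn n 0 fun k => Nat.casesOn k 1 fun j => g j + 2

theorem ext_zero (g : ℕ → ℕ) : ext g 0 = 0 := rfl

theorem ext_one (g : ℕ → ℕ) : ext g 1 = 1 := rfl

theorem ext_add (g : ℕ → ℕ) (n : ℕ) : ext g (n + 2) = g n + 2 := rfl

theorem cases (a : ℕ) : a = 0 ∨ a = 1 ∨ ∃ n, a = n + 2 := by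
  rcases a with _ | _ | n
  · exact Or.inl rfl
  · exact Or.inr (Or.inl rfl)
  · exact Or.inr (Or.inr ⟨n, rfl⟩)

theorem ext_computable {g : ℕ → ℕ} (hg : Computable g) : Computable (ext g) := by
  unfold ext
  refine Computable.nat_casesOn Computable.id (Computable.const 0) ?_
  refine Computable.nat_casesOn Computable.snd (Computable.const 1) ?_
  exact Computable.succ.comp (Computable.succ.comp (hg.comp Computable.snd))

theorem ext_injective {g : ℕ → ℕ} (hg : Function.Injective g) : Function.Injective (ext g) := by
  intro a b hab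
  rcases cases a with rfl | rfl | ⟨n, rfl⟩ <;> rcases cases b with rfl | rfl | ⟨m, rfl⟩ <;>
    simp only [ext_zero, ext_one, ext_add] at hab <;> first | rfl | omega | skip
  have h1 : g n = g m := by omega
  rw [hg h1]

theorem ends_zero (r : ℕ → ℕ → Bool) (b : ℕ) : ends r 0 b = true := by
  simp [ends]

theorem ends_one (r : ℕ → ℕ → Bool) (a : ℕ) : ends r a 1 = true := by
  simp [ends]

theorem ends_add (r : ℕ → ℕ → Bool) (n m : ℕ) : ends r (n + 2) (m + 2) = r n m := by
  simp [ends]

theorem ends_left_one (r : ℕ → ℕ → Bool) (b : ℕ) (h : ends r 1 b = true) : b = 1 := by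
  simpa [ends] using h

theorem ends_right_zero (r : ℕ → ℕ → Bool) (a : ℕ) (h : ends r a 0 = true) : a = 0 := by
  simpa [ends] using h

end HBACK

open HBACK

theorem p_BACK : T_BACK := by
  intro r s h hr hs h0 h1 hsr hrig
  have hge : ∀ n, 2 ≤ h (n + 2) := by
    intro n
    rcases HBACK.cases (h (n + 2)) with h2 | h2 | ⟨m, h2⟩
    · have := h.injective (h2.trans h0.symm)
      omega
    · have := h.injective (h2.trans h1.symm)
      omega
    · omega
  have hge' : ∀ n, 2 ≤ h.symm (n + 2) := by
    intro n
    rcases HBACK.cases (h.symm (n + 2)) with h2 | h2 | ⟨m, h2⟩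
    · have := (Equiv.symm_apply_eq h).1 h2
      omega
    · have := (Equiv.symm_apply_eq h).1 h2
      omega
    · omega
  refine ⟨fun n m => s (n + 2) (m + 2), ?_, ?_, ?_⟩
  · exact hs.comp (Computable.succ.comp (Computable.succ.comp Computable.fst))
      (Computable.succ.comp (Computable.succ.comp Computable.snd))
  · refine ⟨⟨fun n => h.symm (n + 2) - 2, fun n => h (n + 2) - 2, ?_, ?_⟩, ?_⟩
    · intro n
      have := hge' n
      simp only
      rw [Nat.sub_add_cancel this, Equiv.apply_symm_apply]
      omega
    · intro n
      have := hge n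
      simp only
      rw [Nat.sub_add_cancel this, Equiv.symm_apply_apply]
      omega
    · intro a b
      simp only [Equiv.coe_fn_mk]
      rw [Nat.sub_add_cancel (hge' a), Nat.sub_add_cancel (hge' b), hsr,
        Equiv.apply_symm_apply, Equiv.apply_symm_apply, ends_add]
  · intro g hg hinj hmon
    have key : ext g = id := by
      refine hrig (ext g) (ext_computable hg) (ext_injective hinj) ?_
      intro a b hab
      rcases HBACK.cases a with rfl | rfl | ⟨n, rfl⟩
      · rw [ext_zero, hsr, h0]
        exact ends_zero r _
      · rw [hsr, h1] at hab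
        have h2 := ends_left_one r _ hab
        have h3 : b = 1 := h.injective (h2.trans h1.symm)
        subst h3
        rw [ext_one, hsr, h1]
        exact ends_one r _
      · rcases HBACK.cases b with rfl | rfl | ⟨m, rfl⟩
        · rw [hsr, h0] at hab
          have h2 := ends_right_zero r _ hab
          have := h.injective (h2.trans h0.symm)
          omega
        · rw [ext_one, hsr, h1]
          exact ends_one r _
        · rw [ext_add, ext_add]
          exact hmon n m hab
    funext n
    have h2 := congrFun key (n + 2)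
    rw [ext_add] at h2
    simp only [id] at h2 ⊢
    omega

end Pool.Agent.DMO
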