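import Pool.Agent.DMO.Targets

set_option autoImplicit false

/-!
# Job DMO-CACT
-/

namespace Pool.Agent.DMO

open Pool.Agent.CeerI

namespace HCACT

variable {α : Type} [Primcodable α]

theorem c_ent {L : α → List Ent} {i : α → ℕ} (hL : Computable L) (hi : Computable i) :
    Computable fun a => ent (L a) (i a) :=
  (Primrec.list_getD ((0, 0, false) : Ent)).to_comp.comp hL hi

theorem c_lab {L : α → List Ent} {i : α → ℕ} (hL : Computable L) (hi : Computable i) :
    Computable fun a => lab (L a) (i a) :=
  Computable.fst.comp (c_ent hL hi)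

theorem c_im {L : α → List Ent} {i : α → ℕ} (hL : Computable L) (hi : Computable i) :
    Computable fun a => im (L a) (i a) :=
  Computable.fst.comp (Computable.snd.comp (c_ent hL hi))

theorem c_fl {L : α → List Ent} {i : α → ℕ} (hL : Computable L) (hi : Computable i) :
    Computable fun a => fl (L a) (i a) :=
  Computable.snd.comp (Computable.snd.comp (c_ent hL hi))

theorem c_len {L : α → List Ent} (hL : Computable L) : Computable fun a => (L a).length :=
  Primrec.list_length.to_comp.comp hL

theorem c_add {f g : α → ℕ} (hf : Computable f) (hg : Computable g) :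
    Computable fun a => f a + g a :=
  Primrec.nat_add.to_comp.comp hf hg

theorem c_sub {f g : α → ℕ} (hf : Computable f) (hg : Computable g) :
    Computable fun a => f a - g a :=
  Primrec.nat_sub.to_comp.comp hf hg

theorem c_min {f g : α → ℕ} (hf : Computable f) (hg : Computable g) :
    Computable fun a => min (f a) (g a) :=
  Primrec.nat_min.to_comp.comp hf hg

theorem c_max {f g : α → ℕ} (hf : Computable f) (hg : Computable g) :
    Computable fun a => max (f a) (g a) :=
  Primrec.nat_max.to_comp.comp hf hg

theorem c_dd {f g : α → ℕ} (hf : Computable f) (hg : Computable g) :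
    Computable fun a => dd (f a) (g a) :=
  c_sub (c_max hf hg) (c_min hf hg)

theorem c_sh {k m t : α → ℕ} (hk : Computable k) (hm : Computable m) (ht : Computable t) :
    Computable fun a => sh (k a) (m a) (t a) := by
  have h : Computable fun a => bif decide (t a ≤ k a) then t a else t a + m a :=
    Computable.cond (Primrec.nat_le.decide.to_comp.comp ht hk) ht (c_add ht hm)
  refine h.of_eq fun a => ?_
  unfold sh
  by_cases h1 : t a ≤ k a
  · simp [h1]
  · simp [h1]

theorem dec_Lt {r : ℕ → ℕ → Bool} (hr : Computable₂ r) {f g : α → ℕ} (hf : Computable f)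
    (hg : Computable g) : ComputablePred fun a => Lt r (f a) (g a) :=
  dec_eq (hr.comp hg hf) (Computable.const false)

end HCACT

open HCACT in
theorem p_CACT : T_CACT := by
  intro r hr hA α _ L L' i j z w k hL hL' hi hj hz hw hk
  have hm : Computable fun a => dd (z a) (w a) := c_dd hz hw
  have c1 : Computable fun _ : α => (1 : ℕ) := Computable.const 1
  have hjm : Computable fun a => j a + dd (z a) (w a) := c_add hj hm
  -- the same functions on `α × ℕ`
  have qL : Computable fun q : α × ℕ => L q.1 := hL.comp Computable.fst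
  have qL' : Computable fun q : α × ℕ => L' q.1 := hL'.comp Computable.fst
  have qi : Computable fun q : α × ℕ => i q.1 := hi.comp Computable.fst
  have qj : Computable fun q : α × ℕ => j q.1 := hj.comp Computable.fst
  have qz : Computable fun q : α × ℕ => z q.1 := hz.comp Computable.fst
  have qw : Computable fun q : α × ℕ => w q.1 := hw.comp Computable.fst
  have qk : Computable fun q : α × ℕ => k q.1 := hk.comp Computable.fst
  have qm : Computable fun q : α × ℕ => dd (z q.1) (w q.1) := hm.comp Computable.fst
  have qt : Computable fun q : α × ℕ => q.2 := Computable.snd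
  have q1 : Computable fun _ : α × ℕ => (1 : ℕ) := Computable.const 1
  have qs : Computable fun q : α × ℕ => sh (k q.1) (dd (z q.1) (w q.1)) q.2 := c_sh qk qm qt
  have qn : Computable fun q : α × ℕ => k q.1 + 1 + q.2 := c_add (c_add qk q1) qt
  have e1 : ComputablePred fun a => (L' a).length = (L a).length + dd (z a) (w a) :=
    dec_eq (c_len hL') (c_add (c_len hL) hm)
  have e2 : ComputablePred fun a => ∀ t < (L a).length,
      lab (L' a) (sh (k a) (dd (z a) (w a)) t) = lab (L a) t :=
    dec_ball (p := fun q : α × ℕ => lab (L' q.1) (sh (k q.1) (dd (z q.1) (w q.1)) q.2) =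
      lab (L q.1) q.2) (dec_eq (c_lab qL' qs) (c_lab qL qt)) (c_len hL)
  have e3 : ComputablePred fun a => ∀ t < (L a).length, (t < i a ∨ j a < t) →
      im (L' a) (sh (k a) (dd (z a) (w a)) t) = im (L a) t :=
    dec_ball (p := fun q : α × ℕ => (q.2 < i q.1 ∨ j q.1 < q.2) →
      im (L' q.1) (sh (k q.1) (dd (z q.1) (w q.1)) q.2) = im (L q.1) q.2)
      (dec_imp (dec_or (dec_lt qt qi) (dec_lt qj qt)) (dec_eq (c_im qL' qs) (c_im qL qt)))
      (c_len hL)
  have e4 : ComputablePred fun a => ∀ t < (L a).length,
      (fl (L' a) (sh (k a) (dd (z a) (w a)) t) = true ↔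
        (fl (L a) t = true ∨ (min (z a) (w a) ≤ t ∧ t < max (z a) (w a)))) :=
    dec_ball (p := fun q : α × ℕ => (fl (L' q.1) (sh (k q.1) (dd (z q.1) (w q.1)) q.2) = true ↔
        (fl (L q.1) q.2 = true ∨ (min (z q.1) (w q.1) ≤ q.2 ∧ q.2 < max (z q.1) (w q.1)))))
      (dec_iff' (dec_eq (c_fl qL' qs) (Computable.const true))
        (dec_or (dec_eq (c_fl qL qt) (Computable.const true))
          (dec_and (dec_le (c_min qz qw) qt) (dec_lt qt (c_max qz qw))))) (c_len hL)
  have e5 : ComputablePred fun a => ∀ t < dd (z a) (w a),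
      lab (L' a) (k a + 1 + t) = (L a).length + t ∧ fl (L' a) (k a + 1 + t) = false :=
    dec_ball (p := fun q : α × ℕ => lab (L' q.1) (k q.1 + 1 + q.2) = (L q.1).length + q.2 ∧
      fl (L' q.1) (k q.1 + 1 + q.2) = false)
      (dec_and (dec_eq (c_lab qL' qn) (c_add (c_len qL) qt))
        (dec_eq (c_fl qL' qn) (Computable.const false))) hm
  have e6 : ComputablePred fun a => Lt r (im (L a) (i a - 1)) (im (L' a) (i a)) :=
    dec_Lt hr (c_im hL (c_sub hi c1)) (c_im hL' hi)
  have e7 : ComputablePred fun a =>
      Lt r (im (L' a) (j a + dd (z a) (w a))) (im (L a) (j a + 1)) :=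
    dec_Lt hr (c_im hL' hjm) (c_im hL (c_add hj c1))
  have e8 : ComputablePred fun a => ∀ t, i a ≤ t → t < j a + dd (z a) (w a) →
      Adj r (im (L' a) t) (im (L' a) (t + 1)) := by
    have f1 : ComputablePred fun q : α × ℕ => i q.1 ≤ q.2 →
        Adj r (im (L' q.1) q.2) (im (L' q.1) (q.2 + 1)) :=
      dec_imp (dec_le qi qt)
        (dec_comp hA ((c_im qL' qt).pair (c_im qL' (c_add qt q1))))
    refine dec_of_iff (dec_ball f1 hjm) fun a => ?_
    constructor
    · intro h t ht hit
      exact h t hit ht
    · intro h t hit ht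
      exact h t ht hit
  exact dec_and e1 (dec_and e2 (dec_and e3 (dec_and e4 (dec_and e5 (dec_and e6
    (dec_and e7 e8))))))

end Pool.Agent.DMO
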