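import Pool.Agent.DMO.Targets

set_option autoImplicit false

/-!
# Job DMO-CEXT
-/

namespace Pool.Agent.DMO

open Pool.Agent.CeerI

namespace HCEXT

variable {α : Type} [Primcodable α]

theorem c_ent {L : α → List Ent} {i : α → ℕ} (hL : Computable L) (hi : Computable i) :
    Computable fun a => ent (L a) (i a) :=
  (Primrec.list_getD ((0, 0, false) : Ent)).to_comp.comp hL hi

theorem c_im {L : α → List Ent} {i : α → ℕ} (hL : Computable L) (hi : Computable i) :
    Computable fun a => im (L a) (i a) :=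
  Computable.fst.comp (Computable.snd.comp (c_ent hL hi))

theorem c_len {L : α → List Ent} (hL : Computable L) : Computable fun a => (L a).length :=
  Primrec.list_length.to_comp.comp hL

theorem c_add {f g : α → ℕ} (hf : Computable f) (hg : Computable g) :
    Computable fun a => f a + g a :=
  Primrec.nat_add.to_comp.comp hf hg

theorem c_sh {k m t : α → ℕ} (hk : Computable k) (hm : Computable m) (ht : Computable t) :
    Computable fun a => sh (k a) (m a) (t a) := by
  have h : Computable fun a => bif decide (t a ≤ k a) then t a else t a + m a :=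
    Computable.cond (Primrec.nat_le.decide.to_comp.comp ht hk) ht (c_add ht hm)
  refine h.of_eq fun a => ?_
  unfold sh
  by_cases h1 : t a ≤ k a
  · simp [h1]
  · simp [h1]

theorem dec_Lt {r : ℕ → ℕ → Bool} (hr : Computable₂ r) {f g : α → ℕ} (hf : Computable f)
    (hg : Computable g) : ComputablePred fun a => Lt r (f a) (g a) :=
  dec_eq (hr.comp hg hf) (Computable.const false)

theorem ext_iff (r : ℕ → ℕ → Bool) (L L' : List Ent) : Ext r L L' ↔
    ∃ p < L.length, p + 1 < L.length ∧
      (∀ i < L.length, ¬ im L i = im L' (p + 1)) ∧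
      (∀ v < im L' (p + 1), ∃ i < L.length, im L i = v) ∧
      Lt r (im L p) (im L' (p + 1)) ∧ Lt r (im L' (p + 1)) (im L (p + 1)) ∧
      L'.length = L.length + 1 ∧ (∀ t < L.length, ent L' (sh p 1 t) = ent L t) ∧
      ent L' (p + 1) = (L.length, im L' (p + 1), false) := by
  constructor
  · rintro ⟨p, u, h1, h2, h3, h4, h5, h6, h7, h8⟩
    have hu : im L' (p + 1) = u := by
      unfold im
      rw [h8]
    refine ⟨p, by omega, h1, ?_⟩
    rw [hu]
    exact ⟨h2, h3, h4, h5, h6, h7, h8⟩
  · rintro ⟨p, -, h1, h2, h3, h4, h5, h6, h7, h8⟩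
    exact ⟨p, im L' (p + 1), h1, h2, h3, h4, h5, h6, h7, h8⟩

end HCEXT

open HCEXT in
theorem p_CEXT : T_CEXT := by
  intro r hr
  refine dec_of_iff (p := fun x : List Ent × List Ent => ∃ p < x.1.length, p + 1 < x.1.length ∧
      (∀ i < x.1.length, ¬ im x.1 i = im x.2 (p + 1)) ∧
      (∀ v < im x.2 (p + 1), ∃ i < x.1.length, im x.1 i = v) ∧
      Lt r (im x.1 p) (im x.2 (p + 1)) ∧ Lt r (im x.2 (p + 1)) (im x.1 (p + 1)) ∧
      x.2.length = x.1.length + 1 ∧ (∀ t < x.1.length, ent x.2 (sh p 1 t) = ent x.1 t) ∧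
      ent x.2 (p + 1) = (x.1.length, im x.2 (p + 1), false)) ?_ fun x => ext_iff r x.1 x.2
  have cL : Computable fun q : (List Ent × List Ent) × ℕ => q.1.1 :=
    Computable.fst.comp Computable.fst
  have cL' : Computable fun q : (List Ent × List Ent) × ℕ => q.1.2 :=
    Computable.snd.comp Computable.fst
  have cp : Computable fun q : (List Ent × List Ent) × ℕ => q.2 := Computable.snd
  have cp1 : Computable fun q : (List Ent × List Ent) × ℕ => q.2 + 1 :=
    c_add cp (Computable.const 1)
  have cu : Computable fun q : (List Ent × List Ent) × ℕ => im q.1.2 (q.2 + 1) := c_im cL' cp1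
  have dL : Computable fun q : ((List Ent × List Ent) × ℕ) × ℕ => q.1.1.1 :=
    cL.comp Computable.fst
  have dL' : Computable fun q : ((List Ent × List Ent) × ℕ) × ℕ => q.1.1.2 :=
    cL'.comp Computable.fst
  have dp : Computable fun q : ((List Ent × List Ent) × ℕ) × ℕ => q.1.2 :=
    cp.comp Computable.fst
  have dt : Computable fun q : ((List Ent × List Ent) × ℕ) × ℕ => q.2 := Computable.snd
  have du : Computable fun q : ((List Ent × List Ent) × ℕ) × ℕ => im q.1.1.2 (q.1.2 + 1) :=
    cu.comp Computable.fst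
  -- the clauses
  have e1 : ComputablePred fun q : (List Ent × List Ent) × ℕ => q.2 + 1 < q.1.1.length :=
    dec_lt cp1 (c_len cL)
  have e2 : ComputablePred fun q : (List Ent × List Ent) × ℕ =>
      ∀ i < q.1.1.length, ¬ im q.1.1 i = im q.1.2 (q.2 + 1) :=
    dec_ball (p := fun y : ((List Ent × List Ent) × ℕ) × ℕ =>
      ¬ im y.1.1.1 y.2 = im y.1.1.2 (y.1.2 + 1)) (dec_not (dec_eq (c_im dL dt) du)) (c_len cL)
  have e3 : ComputablePred fun q : (List Ent × List Ent) × ℕ =>
      ∀ v < im q.1.2 (q.2 + 1), ∃ i < q.1.1.length, im q.1.1 i = v := by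
    have e31 : ComputablePred fun y : ((List Ent × List Ent) × ℕ) × ℕ =>
        ∃ i < y.1.1.1.length, im y.1.1.1 i = y.2 :=
      dec_bex (p := fun z : (((List Ent × List Ent) × ℕ) × ℕ) × ℕ =>
        im z.1.1.1.1 z.2 = z.1.2)
        (dec_eq (c_im (dL.comp Computable.fst) Computable.snd)
          (Computable.snd.comp Computable.fst)) (c_len dL)
    exact dec_ball e31 cu
  have e4 : ComputablePred fun q : (List Ent × List Ent) × ℕ =>
      Lt r (im q.1.1 q.2) (im q.1.2 (q.2 + 1)) := dec_Lt hr (c_im cL cp) cu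
  have e5 : ComputablePred fun q : (List Ent × List Ent) × ℕ =>
      Lt r (im q.1.2 (q.2 + 1)) (im q.1.1 (q.2 + 1)) := dec_Lt hr cu (c_im cL cp1)
  have e6 : ComputablePred fun q : (List Ent × List Ent) × ℕ =>
      q.1.2.length = q.1.1.length + 1 :=
    dec_eq (c_len cL') (c_add (c_len cL) (Computable.const 1))
  have e7 : ComputablePred fun q : (List Ent × List Ent) × ℕ =>
      ∀ t < q.1.1.length, ent q.1.2 (sh q.2 1 t) = ent q.1.1 t :=
    dec_ball (p := fun y : ((List Ent × List Ent) × ℕ) × ℕ =>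
      ent y.1.1.2 (sh y.1.2 1 y.2) = ent y.1.1.1 y.2)
      (dec_eq (c_ent dL' (c_sh dp (Computable.const 1) dt)) (c_ent dL dt)) (c_len cL)
  have e8 : ComputablePred fun q : (List Ent × List Ent) × ℕ =>
      ent q.1.2 (q.2 + 1) = (q.1.1.length, im q.1.2 (q.2 + 1), false) :=
    dec_eq (c_ent cL' cp1) ((c_len cL).pair (cu.pair (Computable.const false)))
  exact dec_bex (dec_and e1 (dec_and e2 (dec_and e3 (dec_and e4 (dec_and e5 (dec_and e6
    (dec_and e7 e8))))))) (c_len Computable.fst)

end Pool.Agent.DMO
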