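import Pool.Agent.DMO.Targets

/-!
T_CON: the frozen component of every label is finite.
-/

set_option autoImplicit false

namespace Pool.Agent.DMO

namespace HCON

variable {r : ℕ → ℕ → Bool} {N : ℕ → ℕ} {img : ℕ → ℕ → ℕ} {frz : ℕ → ℕ → ℕ → Prop}
  {acts : ℕ → ℕ → Prop}

theorem bound (hR : Run r N img frz acts) (a : ℕ) :
    ∃ k₀, ∀ k ≥ k₀, ∀ e, acts k e → a ≤ e := by
  induction a with
  | zero => exact ⟨0, fun _ _ _ _ => Nat.zero_le _⟩
  | succ a ih =>
    obtain ⟨k₀, hk₀⟩ := ih
    by_cases h : ∃ k, acts k a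
    · obtain ⟨k₁, hk₁⟩ := h
      refine ⟨max k₀ (k₁ + 1), fun k hk e he => ?_⟩
      have h1 := hk₀ k (le_trans (le_max_left _ _) hk) e he
      rcases Nat.lt_or_eq_of_le h1 with h2 | h2
      · exact h2
      · subst h2
        have h3 := hR.act_once k k₁ a he hk₁
        have h4 := le_trans (le_max_right _ _) hk
        omega
    · refine ⟨k₀, fun k hk e he => ?_⟩
      have h1 := hk₀ k hk e he
      rcases Nat.lt_or_eq_of_le h1 with h2 | h2
      · exact h2
      · subst h2
        exact absurd ⟨k, he⟩ h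

theorem con_mono {frz : ℕ → ℕ → ℕ → Prop} {k k' a b : ℕ}
    (h : ∀ x y, frz k x y → frz k' x y) (hc : Con frz k a b) : Con frz k' a b := by
  unfold Con at hc ⊢
  refine Relation.ReflTransGen.mono ?_ a b hc
  rintro x y (hxy | hxy)
  · exact Or.inl (h x y hxy)
  · exact Or.inr (h y x hxy)

theorem con_step (hR : Run r N img frz acts) {a k : ℕ} (hk : ∀ e, acts k e → a ≤ e) {b : ℕ}
    (hc : Con frz (k + 1) a b) : Con frz k a b := by
  rcases Nat.even_or_odd' k with ⟨l, rfl | rfl⟩
  · by_cases hact : ∃ e, acts (2 * l) e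
    · obtain ⟨e, he⟩ := hact
      obtain ⟨Seg, y, z, w, m, h1, -, -, h4, h5, -⟩ := hR.act _ _ he
      have hSa : ¬ Seg a := fun hS => by
        have := (h1 a hS).2.1
        have := hk e he
        omega
      have key : Con frz (2 * l) a b ∧ ¬ Seg b := by
        unfold Con at hc ⊢
        induction hc with
        | refl => exact ⟨Relation.ReflTransGen.refl, hSa⟩
        | tail _ hxy ih =>
          obtain ⟨ih1, ih2⟩ := ih
          rcases hxy with hxy | hxy
          · exact ⟨ih1.tail (Or.inl (h5 _ _ hxy ih2)), fun hS => ih2 ((h4 _ _ hxy).2 hS)⟩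
          · have h6 := fun hS => ih2 ((h4 _ _ hxy).1 hS)
            exact ⟨ih1.tail (Or.inr (h5 _ _ hxy h6)), h6⟩
      exact key.1
    · have h1 := (hR.idle l (fun e he => hact ⟨e, he⟩)).2.2
      exact con_mono h1 hc
  · exact con_mono (hR.odd_frz l) hc

theorem frz_le (hR : Run r N img frz acts) {k k' : ℕ} (h : k ≤ k') (x y : ℕ)
    (hxy : frz k x y) : frz k' x y := by
  induction h with
  | refl => exact hxy
  | step _ ih => exact hR.frz_mono _ _ _ ih

end HCON

open HCON

theorem p_CON : T_CON := by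
  intro r N img frz acts hR a
  obtain ⟨k₀, hk₀⟩ := bound hR a
  have h1 : ∀ j b, Con frz (k₀ + j) a b → Con frz k₀ a b := by
    intro j
    induction j with
    | zero => exact fun b h => h
    | succ j ih =>
      intro b h
      exact ih b (con_step hR (hk₀ (k₀ + j) (Nat.le_add_right _ _)) h)
  have h2 : {b | ∃ k, Con frz k a b} ⊆ insert a (Set.Iio (N k₀)) := by
    rintro b ⟨k, hk⟩
    have h3 : Con frz k₀ a b := by
      rcases le_total k₀ k with h | h
      · obtain ⟨j, rfl⟩ := Nat.exists_eq_add_of_le h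
        exact h1 j b hk
      · exact con_mono (frz_le hR h) hk
    rcases Relation.ReflTransGen.cases_tail h3 with h4 | ⟨c, -, h4⟩
    · exact Set.mem_insert_iff.2 (Or.inl h4)
    · refine Set.mem_insert_of_mem _ ?_
      rcases h4 with h4 | h4
      · exact (hR.frz_lt _ _ _ h4).2
      · exact (hR.frz_lt _ _ _ h4).1
  exact ((Set.finite_Iio (N k₀)).insert a).subset h2

end Pool.Agent.DMO
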