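import Pool.Agent.DMO.Targets

set_option autoImplicit false

/-!
# Job DMO-CVAL
-/

namespace Pool.Agent.DMO

open Pool.Agent.CeerI

namespace HCVAL

variable {α : Type} [Primcodable α]

theorem c_ent {L : α → List Ent} {i : α → ℕ} (hL : Computable L) (hi : Computable i) :
    Computable fun a => ent (L a) (i a) :=
  (Primrec.list_getD ((0, 0, false) : Ent)).to_comp.comp hL hi

theorem c_lab {L : α → List Ent} {i : α → ℕ} (hL : Computable L) (hi : Computable i) :
    Computable fun a => lab (L a) (i a) :=
  Computable.fst.comp (c_ent hL hi)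

theorem c_im {L : α → List Ent} {i : α → ℕ} (hL : Computable L) (hi : Computable i) :
    Computable fun a => im (L a) (i a) :=
  Computable.fst.comp (Computable.snd.comp (c_ent hL hi))

theorem c_fl {L : α → List Ent} {i : α → ℕ} (hL : Computable L) (hi : Computable i) :
    Computable fun a => fl (L a) (i a) :=
  Computable.snd.comp (Computable.snd.comp (c_ent hL hi))

theorem c_len {L : α → List Ent} (hL : Computable L) : Computable fun a => (L a).length :=
  Primrec.list_length.to_comp.comp hL

theorem c_add {f g : α → ℕ} (hf : Computable f) (hg : Computable g) :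
    Computable fun a => f a + g a :=
  Primrec.nat_add.to_comp.comp hf hg

theorem c_sub {f g : α → ℕ} (hf : Computable f) (hg : Computable g) :
    Computable fun a => f a - g a :=
  Primrec.nat_sub.to_comp.comp hf hg

theorem c_min {f g : α → ℕ} (hf : Computable f) (hg : Computable g) :
    Computable fun a => min (f a) (g a) :=
  Primrec.nat_min.to_comp.comp hf hg

theorem c_max {f g : α → ℕ} (hf : Computable f) (hg : Computable g) :
    Computable fun a => max (f a) (g a) :=
  Primrec.nat_max.to_comp.comp hf hg

theorem c_evaln {K e y : α → ℕ} (hK : Computable K) (he : Computable e) (hy : Computable y) :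
    Computable fun a => (prog (e a)).evaln (K a) (y a) := by
  have h : Primrec fun q : (ℕ × ℕ) × ℕ =>
      Nat.Partrec.Code.evaln q.1.1 (Denumerable.ofNat Nat.Partrec.Code q.1.2) q.2 :=
    Nat.Partrec.Code.primrec_evaln.comp
      (((Primrec.fst.comp Primrec.fst).pair
        ((Primrec.ofNat Nat.Partrec.Code).comp (Primrec.snd.comp Primrec.fst))).pair Primrec.snd)
  exact h.to_comp.comp ((hK.pair he).pair hy)

theorem dec_ev {K e y z : α → ℕ} (hK : Computable K) (he : Computable e) (hy : Computable y)
    (hz : Computable z) : ComputablePred fun a => ev (K a) (e a) (y a) (z a) :=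
  dec_eq (c_evaln hK he hy) (Computable.option_some.comp hz)

end HCVAL

open HCVAL in
theorem p_CVAL : T_CVAL := by
  intro α _ K e L i j y z w k hK he hL hi hj hy hz hw hk
  have c1 : Computable fun _ : α => (1 : ℕ) := Computable.const 1
  have hj1 : Computable fun a => j a + 1 := c_add hj c1
  -- first clause
  have e1 : ComputablePred fun a => 1 ≤ i a ∧ i a ≤ j a ∧ j a + 1 < (L a).length ∧
      fl (L a) (i a - 1) = false ∧ fl (L a) (j a) = false :=
    dec_and (dec_le c1 hi) (dec_and (dec_le hi hj) (dec_and (dec_lt hj1 (c_len hL))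
      (dec_and (dec_eq (c_fl hL (c_sub hi c1)) (Computable.const false))
        (dec_eq (c_fl hL hj) (Computable.const false)))))
  -- second clause
  have e2 : ComputablePred fun a => ∀ t, i a ≤ t → t ≤ j a →
      e a < lab (L a) t ∧ e a < im (L a) t := by
    have f1 : ComputablePred fun q : α × ℕ => i q.1 ≤ q.2 →
        e q.1 < lab (L q.1) q.2 ∧ e q.1 < im (L q.1) q.2 :=
      dec_imp (dec_le (hi.comp Computable.fst) Computable.snd)
        (dec_and
          (dec_lt (he.comp Computable.fst) (c_lab (hL.comp Computable.fst) Computable.snd))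
          (dec_lt (he.comp Computable.fst) (c_im (hL.comp Computable.fst) Computable.snd)))
    refine dec_of_iff (dec_ball f1 hj1) fun a => ?_
    constructor
    · intro h t ht hit
      exact h t hit (Nat.le_of_lt_succ ht)
    · intro h t hit ht
      exact h t (Nat.lt_succ_of_le ht) hit
  -- third clause
  have e3 : ComputablePred fun a => i a ≤ y a ∧ y a ≤ j a ∧ i a ≤ z a ∧ z a ≤ j a ∧
      i a ≤ w a ∧ w a ≤ j a :=
    dec_and (dec_le hi hy) (dec_and (dec_le hy hj) (dec_and (dec_le hi hz)
      (dec_and (dec_le hz hj) (dec_and (dec_le hi hw) (dec_le hw hj)))))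
  -- fourth clause
  have e4 : ComputablePred fun a => y a < z a ∧ z a < w a ∨ w a < z a ∧ z a < y a :=
    dec_or (dec_and (dec_lt hy hz) (dec_lt hz hw)) (dec_and (dec_lt hw hz) (dec_lt hz hy))
  -- fifth clause
  have e5 : ComputablePred fun a => ev (K a) (e a) (lab (L a) (y a)) (lab (L a) (z a)) ∧
      ev (K a) (e a) (lab (L a) (z a)) (lab (L a) (w a)) :=
    dec_and (dec_ev hK he (c_lab hL hy) (c_lab hL hz)) (dec_ev hK he (c_lab hL hz) (c_lab hL hw))
  -- sixth clause
  have e6 : ComputablePred fun a => min (y a) (z a) ≤ k a ∧ k a < max (y a) (z a) ∧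
      fl (L a) (k a) = false :=
    dec_and (dec_le (c_min hy hz) hk) (dec_and (dec_lt hk (c_max hy hz))
      (dec_eq (c_fl hL hk) (Computable.const false)))
  exact dec_and e1 (dec_and e2 (dec_and e3 (dec_and e4 (dec_and e5 e6))))

end Pool.Agent.DMO
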