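import Pool.Agent.DMO.Targets

set_option autoImplicit false

/-!
Job ENDH of project DMO (MP_55b29c_lc): new end points do not create a strongly eta-like
convex subset.
-/

namespace Pool.Agent.DMO

namespace HENDH

/-- Elements below an element of a sum over the rational numbers. -/
theorem below {f : ℚ → ℕ} (hf : ∀ q, 1 ≤ f q) (p : Lex (Σ q : ℚ, Fin (f q))) :
    ∃ p' : Lex (Σ q : ℚ, Fin (f q)), p' ≤ p ∧ ¬ p ≤ p' := by
  refine ⟨toLex ⟨(ofLex p).1 - 1, ⟨0, hf _⟩⟩, ?_, ?_⟩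
  · rw [Sigma.Lex.le_def]
    left
    show (ofLex p).1 - 1 < (ofLex p).1
    linarith
  · rw [Sigma.Lex.le_def]
    rintro (h | ⟨h, _⟩)
    · have h' : (ofLex p).1 < (ofLex p).1 - 1 := h
      linarith
    · have h' : (ofLex p).1 = (ofLex p).1 - 1 := h
      linarith

/-- Elements above an element of a sum over the rational numbers. -/
theorem above {f : ℚ → ℕ} (hf : ∀ q, 1 ≤ f q) (p : Lex (Σ q : ℚ, Fin (f q))) :
    ∃ p' : Lex (Σ q : ℚ, Fin (f q)), p ≤ p' ∧ ¬ p' ≤ p := by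
  refine ⟨toLex ⟨(ofLex p).1 + 1, ⟨0, hf _⟩⟩, ?_, ?_⟩
  · rw [Sigma.Lex.le_def]
    left
    show (ofLex p).1 < (ofLex p).1 + 1
    linarith
  · rw [Sigma.Lex.le_def]
    rintro (h | ⟨h, _⟩)
    · have h' : (ofLex p).1 + 1 < (ofLex p).1 := h
      linarith
    · have h' : (ofLex p).1 + 1 = (ofLex p).1 := h
      linarith

theorem ends_add (r : ℕ → ℕ → Bool) (a b : ℕ) : ends r (a + 2) (b + 2) = r a b := by
  have h1 : (a + 2 == 0) = false := by simp
  have h2 : (b + 2 == 1) = false := by simp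
  simp [ends]

theorem ends_zero (r : ℕ → ℕ → Bool) (b : ℕ) : ends r 0 b = true := by
  simp [ends]

theorem ends_one (r : ℕ → ℕ → Bool) (a : ℕ) : ends r a 1 = true := by
  simp [ends]

end HENDH

open HENDH in
theorem p_ENDH : T_ENDH := by
  intro r _ ⟨C, hC, f, hf, hb, e, he⟩
  have h0 : (0 : ℕ) ∉ C := by
    intro h
    obtain ⟨p', h1, h2⟩ := below hf (e ⟨0, h⟩)
    have h3 := (he ⟨0, h⟩ (e.symm p')).1 (ends_zero r _)
    rw [e.apply_symm_apply] at h3
    exact h2 h3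
  have h1 : (1 : ℕ) ∉ C := by
    intro h
    obtain ⟨p', h1, h2⟩ := above hf (e ⟨1, h⟩)
    have h3 := (he (e.symm p') ⟨1, h⟩).1 (ends_one r _)
    rw [e.apply_symm_apply] at h3
    exact h2 h3
  have h2 : ∀ c ∈ C, c - 2 + 2 = c := by
    intro c hc
    have h3 : c ≠ 0 := fun h => h0 (h ▸ hc)
    have h4 : c ≠ 1 := fun h => h1 (h ▸ hc)
    omega
  let g : {n : ℕ | n + 2 ∈ C} ≃ C :=
    { toFun := fun n => ⟨n.1 + 2, n.2⟩
      invFun := fun c => ⟨c.1 - 2, by
        show c.1 - 2 + 2 ∈ C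
        rw [h2 c.1 c.2]
        exact c.2⟩
      left_inv := fun n => by
        apply Subtype.ext
        show n.1 + 2 - 2 = n.1
        omega
      right_inv := fun c => by
        apply Subtype.ext
        exact h2 c.1 c.2 }
  refine ⟨{n | n + 2 ∈ C}, ?_, f, hf, hb, g.trans e, ?_⟩
  · intro a b c ha hc hab hbc
    refine hC (a + 2) (b + 2) (c + 2) ha hc ?_ ?_
    · rw [ends_add]; exact hab
    · rw [ends_add]; exact hbc
  · intro a b
    have h3 := he (g a) (g b)
    have h4 : ends r (g a : ℕ) (g b : ℕ) = r a b := ends_add r a.1 b.1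
    rw [h4] at h3
    exact h3

end Pool.Agent.DMO
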