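import Pool.Agent.DMO.Targets

set_option autoImplicit false

/-!
Job ENDS of project DMO (MP_55b29c_lc): the order with new end points is a computable linear
order whose adjacency relation is computable.
-/

namespace Pool.Agent.DMO

namespace HENDS

variable {r : ℕ → ℕ → Bool}

theorem e_zero (r : ℕ → ℕ → Bool) (b : ℕ) : ends r 0 b = true := by
  simp [ends]

theorem e_one (r : ℕ → ℕ → Bool) (a : ℕ) : ends r a 1 = true := by
  simp [ends]

theorem e_to_zero (r : ℕ → ℕ → Bool) (a : ℕ) (ha : a ≠ 0) : ends r a 0 = false := by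
  simp [ends, ha]

theorem e_from_one (r : ℕ → ℕ → Bool) (b : ℕ) (hb : b ≠ 1) : ends r 1 b = false := by
  simp [ends, hb]

theorem e_add (r : ℕ → ℕ → Bool) (a b : ℕ) : ends r (a + 2) (b + 2) = r a b := by
  simp [ends]

theorem cases3 (a : ℕ) : a = 0 ∨ a = 1 ∨ ∃ n, a = n + 2 := by
  rcases a with _ | _ | n
  · exact Or.inl rfl
  · exact Or.inr (Or.inl rfl)
  · exact Or.inr (Or.inr ⟨n, rfl⟩)

theorem lo (hr : LO r) : LO (ends r) where
  refl a := by
    rcases cases3 a with rfl | rfl | ⟨n, rfl⟩
    · exact e_zero r 0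
    · exact e_one r 1
    · rw [e_add]
      exact hr.refl n
  anti a b h1 h2 := by
    rcases cases3 a with rfl | rfl | ⟨n, rfl⟩
    · by_contra h
      rw [e_to_zero r b (fun h' => h h'.symm)] at h2
      exact Bool.false_ne_true h2
    · by_contra h
      rw [e_from_one r b (fun h' => h h'.symm)] at h1
      exact Bool.false_ne_true h1
    · rcases cases3 b with rfl | rfl | ⟨m, rfl⟩
      · rw [e_to_zero r (n + 2) (by omega)] at h1
        exact absurd h1 Bool.false_ne_true
      · rw [e_from_one r (n + 2) (by omega)] at h2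
        exact absurd h2 Bool.false_ne_true
      · rw [e_add] at h1 h2
        rw [hr.anti n m h1 h2]
  trans a b c h1 h2 := by
    rcases cases3 a with rfl | rfl | ⟨n, rfl⟩
    · exact e_zero r c
    · rcases cases3 b with rfl | rfl | ⟨m, rfl⟩
      · rw [e_to_zero r 1 (by omega)] at h1
        exact absurd h1 Bool.false_ne_true
      · exact h2
      · rw [e_from_one r (m + 2) (by omega)] at h1
        exact absurd h1 Bool.false_ne_true
    · rcases cases3 c with rfl | rfl | ⟨k, rfl⟩
      · rcases cases3 b with rfl | rfl | ⟨m, rfl⟩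
        · exact h1
        · rw [e_to_zero r 1 (by omega)] at h2
          exact absurd h2 Bool.false_ne_true
        · rw [e_to_zero r (m + 2) (by omega)] at h2
          exact absurd h2 Bool.false_ne_true
      · exact e_one r (n + 2)
      · rcases cases3 b with rfl | rfl | ⟨m, rfl⟩
        · rw [e_to_zero r (n + 2) (by omega)] at h1
          exact absurd h1 Bool.false_ne_true
        · rw [e_from_one r (k + 2) (by omega)] at h2
          exact absurd h2 Bool.false_ne_true
        · rw [e_add] at h1 h2 ⊢
          exact hr.trans n m k h1 h2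
  total a b := by
    rcases cases3 a with rfl | rfl | ⟨n, rfl⟩
    · exact Or.inl (e_zero r b)
    · exact Or.inr (e_one r b)
    · rcases cases3 b with rfl | rfl | ⟨m, rfl⟩
      · exact Or.inr (e_zero r (n + 2))
      · exact Or.inl (e_one r (n + 2))
      · rw [e_add, e_add]
        exact hr.total n m

theorem two_le_comp {α : Type} [Primcodable α] {f : α → ℕ} (hf : Computable f) :
    Computable fun a => decide (2 ≤ f a) := by
  have h1 : Primrec fun n : ℕ => decide (2 ≤ n) :=
    (Primrec.nat_le.comp (Primrec.const 2) Primrec.id).decide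
  exact h1.to_comp.comp hf

theorem eq_comp {α : Type} [Primcodable α] {f : α → ℕ} (hf : Computable f) (k : ℕ) :
    Computable fun a => (f a == k) := by
  have h1 : Primrec fun n : ℕ => (n == k) :=
    Primrec.beq.comp Primrec.id (Primrec.const k)
  exact h1.to_comp.comp hf

theorem sub_comp {α : Type} [Primcodable α] {f : α → ℕ} (hf : Computable f) :
    Computable fun a => f a - 2 := by
  have h1 : Primrec fun n : ℕ => n - 2 :=
    Primrec.nat_sub.comp Primrec.id (Primrec.const 2)
  exact h1.to_comp.comp hf

theorem and_comp {α : Type} [Primcodable α] {f g : α → Bool} (hf : Computable f)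
    (hg : Computable g) : Computable fun a => (f a && g a) :=
  Primrec.and.to_comp.comp hf hg

theorem or_comp {α : Type} [Primcodable α] {f g : α → Bool} (hf : Computable f)
    (hg : Computable g) : Computable fun a => (f a || g a) :=
  Primrec.or.to_comp.comp hf hg

theorem comp2 (hc : Computable₂ r) : Computable₂ (ends r) := by
  have h1 : Computable fun x : ℕ × ℕ => r (x.1 - 2) (x.2 - 2) :=
    hc.comp (sub_comp Computable.fst) (sub_comp Computable.snd)
  exact or_comp (or_comp (eq_comp Computable.fst 0) (eq_comp Computable.snd 1))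
    (and_comp (and_comp (two_le_comp Computable.fst) (two_le_comp Computable.snd)) h1)

/-- The property of being the (unique) element with a property of which there is at most one
element is computable. -/
theorem uniq (p : ℕ → Prop) (hp : ∀ a b, p a → p b → a = b) :
    ∃ f : ℕ → Bool, Computable f ∧ ∀ a, f a = true ↔ p a := by
  by_cases h : ∃ a, p a
  · obtain ⟨a, ha⟩ := h
    refine ⟨fun n => (n == a), eq_comp Computable.id a, fun n => ?_⟩
    constructor
    · intro h1
      have h2 : n = a := by simpa using h1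
      rw [h2]
      exact ha
    · intro h1
      have h2 : n = a := hp n a h1 ha
      simp [h2]
  · refine ⟨fun _ => false, Computable.const false, fun n => ?_⟩
    constructor
    · intro h1
      exact absurd h1 Bool.false_ne_true
    · intro h1
      exact absurd ⟨n, h1⟩ h

theorem adj_add (a b : ℕ) : Adj (ends r) (a + 2) (b + 2) ↔ Adj r a b := by
  unfold Adj Lt
  constructor
  · rintro ⟨h1, h2⟩
    refine ⟨by rw [e_add] at h1; exact h1, fun c h3 h4 => ?_⟩
    exact h2 (c + 2) (by rw [e_add]; exact h3) (by rw [e_add]; exact h4)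
  · rintro ⟨h1, h2⟩
    refine ⟨by rw [e_add]; exact h1, fun c h3 h4 => ?_⟩
    rcases cases3 c with rfl | rfl | ⟨k, rfl⟩
    · rw [e_zero] at h3
      exact absurd h3.symm Bool.false_ne_true
    · rw [e_one] at h4
      exact absurd h4.symm Bool.false_ne_true
    · rw [e_add] at h3 h4
      exact h2 k h3 h4

theorem adj_zero (b : ℕ) : Adj (ends r) 0 (b + 2) ↔ ∀ k, r b k = true := by
  unfold Adj Lt
  constructor
  · rintro ⟨-, h2⟩ k
    by_contra h3
    refine h2 (k + 2) (e_to_zero r _ (by omega)) ?_
    rw [e_add]
    simpa using h3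
  · intro h
    refine ⟨e_to_zero r _ (by omega), fun c h3 h4 => ?_⟩
    rcases cases3 c with rfl | rfl | ⟨k, rfl⟩
    · rw [e_zero] at h3
      exact absurd h3.symm Bool.false_ne_true
    · rw [e_one] at h4
      exact absurd h4.symm Bool.false_ne_true
    · rw [e_add, h k] at h4
      exact absurd h4.symm Bool.false_ne_true

theorem adj_one (a : ℕ) : Adj (ends r) (a + 2) 1 ↔ ∀ k, r k a = true := by
  unfold Adj Lt
  constructor
  · rintro ⟨-, h2⟩ k
    by_contra h3
    refine h2 (k + 2) ?_ (e_from_one r _ (by omega))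
    rw [e_add]
    simpa using h3
  · intro h
    refine ⟨e_from_one r _ (by omega), fun c h3 h4 => ?_⟩
    rcases cases3 c with rfl | rfl | ⟨k, rfl⟩
    · rw [e_zero] at h3
      exact absurd h3.symm Bool.false_ne_true
    · rw [e_one] at h4
      exact absurd h4.symm Bool.false_ne_true
    · rw [e_add, h k] at h3
      exact absurd h3.symm Bool.false_ne_true

theorem adj_to_zero (a : ℕ) : ¬ Adj (ends r) a 0 := by
  rintro ⟨h1, -⟩
  unfold Lt at h1
  rw [e_zero] at h1
  exact absurd h1.symm Bool.false_ne_true

theorem adj_from_one (b : ℕ) : ¬ Adj (ends r) 1 b := by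
  rintro ⟨h1, -⟩
  unfold Lt at h1
  rw [e_one] at h1
  exact absurd h1.symm Bool.false_ne_true

theorem adj_zero_one : ¬ Adj (ends r) 0 1 := by
  rintro ⟨-, h2⟩
  exact h2 2 (e_to_zero r 2 (by omega)) (e_from_one r 2 (by omega))

end HENDS

open HENDS in
theorem p_ENDS : T_ENDS := by
  intro r hr hc hadj
  refine ⟨lo hr, comp2 hc, e_zero r, e_one r, ?_⟩
  obtain ⟨fA, hA1, hA2⟩ := ComputablePred.computable_iff.1 hadj
  obtain ⟨f0, h01, h02⟩ := uniq (fun b => ∀ k, r b k = true)
    (fun a b h1 h2 => hr.anti a b (h1 b) (h2 a))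
  obtain ⟨f1, h11, h12⟩ := uniq (fun a => ∀ k, r k a = true)
    (fun a b h1 h2 => hr.anti a b (h2 a) (h1 b))
  have hA3 : ∀ a b, fA (a, b) = true ↔ Adj r a b := by
    intro a b
    have h := congrFun hA2 (a, b)
    exact (Iff.of_eq h).symm
  have hC : Computable fun x : ℕ × ℕ =>
      ((decide (2 ≤ x.1) && decide (2 ≤ x.2) && fA (x.1 - 2, x.2 - 2)) ||
        ((x.1 == 0) && (decide (2 ≤ x.2) && f0 (x.2 - 2)))) ||
        ((x.2 == 1) && (decide (2 ≤ x.1) && f1 (x.1 - 2))) := by
    refine or_comp (or_comp (and_comp (and_comp (two_le_comp Computable.fst)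
      (two_le_comp Computable.snd)) ?_) (and_comp (eq_comp Computable.fst 0)
      (and_comp (two_le_comp Computable.snd) (h01.comp (sub_comp Computable.snd)))))
      (and_comp (eq_comp Computable.snd 1) (and_comp (two_le_comp Computable.fst)
      (h11.comp (sub_comp Computable.fst))))
    exact hA1.comp ((sub_comp Computable.fst).pair (sub_comp Computable.snd))
  refine dec_of_iff (dec_of_comp hC) ?_
  rintro ⟨a, b⟩
  show Adj (ends r) a b ↔ _
  rcases cases3 a with rfl | rfl | ⟨n, rfl⟩
  · rcases cases3 b with rfl | rfl | ⟨m, rfl⟩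
    · simp [adj_to_zero]
    · simp [adj_zero_one]
    · rw [adj_zero, ← h02 m]
      simp
  · simp [adj_from_one]
  · rcases cases3 b with rfl | rfl | ⟨m, rfl⟩
    · simp [adj_to_zero]
    · rw [adj_one, ← h12 n]
      simp
    · rw [adj_add, ← hA3 n m]
      simp

end Pool.Agent.DMO
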