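import Pool.Agent.DMO.Targets

/-!
# T_EXT1: the odd step is always possible
-/

set_option autoImplicit false

namespace Pool.Agent.DMO

namespace HEXT1

/-- Some natural number is no image. -/
theorem exists_missing (L : List Ent) : ∃ u, ∀ i < L.length, im L i ≠ u := by
  classical
  obtain ⟨u, hu⟩ := Infinite.exists_notMem_finset ((Finset.range L.length).image (im L))
  refine ⟨u, fun i hi h => hu ?_⟩
  rw [Finset.mem_image]
  exact ⟨i, Finset.mem_range.2 hi, h⟩

/-- The entries of the new list. -/
def F (L : List Ent) (p u t : ℕ) : Ent :=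
  if t ≤ p then ent L t else if t = p + 1 then (L.length, u, false) else ent L (t - 1)

theorem F_sh (L : List Ent) (p u t : ℕ) : F L p u (sh p 1 t) = ent L t := by
  unfold F sh
  by_cases h : t ≤ p
  · rw [if_pos h, if_pos h]
  · rw [if_neg h, if_neg (by omega), if_neg (by omega)]
    have h' : t + 1 - 1 = t := by omega
    rw [h']

theorem F_new (L : List Ent) (p u : ℕ) : F L p u (p + 1) = (L.length, u, false) := by
  unfold F
  rw [if_neg (by omega), if_pos rfl]

end HEXT1

open HEXT1 in
theorem p_EXT1 : T_EXT1 := by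
  classical
  intro r L hr h0 h1 hL
  have hex := exists_missing L
  obtain ⟨u, hu, hmin⟩ : ∃ u, (∀ i < L.length, im L i ≠ u) ∧
      ∀ v < u, ∃ i < L.length, im L i = v := by
    refine ⟨Nat.find hex, Nat.find_spec hex, fun v hv => ?_⟩
    have := Nat.find_min hex hv
    push Not at this
    exact this
  have h2 := hL.two
  have hu0 : Lt r (im L 0) u := by
    rw [hL.im_first]
    refine (lt_iff hr).2 ⟨h0 u, ?_⟩
    have := hu 0 (by omega)
    rwa [hL.im_first] at this
  have hu1 : Lt r u (im L (L.length - 1)) := by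
    rw [hL.im_last]
    refine (lt_iff hr).2 ⟨h1 u, ?_⟩
    have := hu (L.length - 1) (by omega)
    rw [hL.im_last] at this
    exact fun h => this h.symm
  -- the least position whose image is above `u`
  have hex2 : ∃ q, q < L.length ∧ Lt r u (im L q) := ⟨L.length - 1, by omega, hu1⟩
  obtain ⟨q, ⟨hq1, hq2⟩, hqmin⟩ : ∃ q, (q < L.length ∧ Lt r u (im L q)) ∧
      ∀ t < q, ¬ (t < L.length ∧ Lt r u (im L t)) :=
    ⟨Nat.find hex2, Nat.find_spec hex2, fun t ht => Nat.find_min hex2 ht⟩
  have hq0 : q ≠ 0 := by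
    rintro rfl
    exact hu0.asymm hr hq2
  obtain ⟨p, rfl⟩ := Nat.exists_eq_succ_of_ne_zero hq0
  have hp : Lt r (im L p) u := by
    rcases lt_trichotomy hr (im L p) u with h | h | h
    · exact h
    · exact absurd h (hu p (by omega))
    · exact absurd ⟨by omega, h⟩ (hqmin p (by omega))
  obtain ⟨L', hlen, hent⟩ := exists_list (F L p u) (L.length + 1)
  refine ⟨L', p, u, hq1, hu, hmin, hp, hq2, hlen, ?_, ?_⟩
  · intro t ht
    rw [hent _ (sh_lt ht)]
    exact F_sh L p u t
  · rw [hent _ (by omega)]
    exact F_new L p u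

end Pool.Agent.DMO
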