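import Pool.Agent.DMO.Targets

/-!
# T_EXT2: the odd step preserves the invariant (MP_55b29c_lc)
-/

set_option autoImplicit false

namespace Pool.Agent.DMO

namespace HEXT2

/-- Adjacent elements have nothing between them, with a chain of cases. -/
theorem shift_succ {p t : ℕ} (h : t ≠ p) : sh p 1 (t + 1) = sh p 1 t + 1 := by
  unfold sh
  split_ifs <;> omega

end HEXT2

theorem p_EXT2 : T_EXT2 := by
  intro r L L' hr hL hE
  obtain ⟨p, u, hp, -, -, hlo, hhi, hlen, hold, hnew⟩ := hE
  have olab : ∀ t < L.length, lab L' (sh p 1 t) = lab L t := fun t ht => by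
    unfold lab; rw [hold t ht]
  have oim : ∀ t < L.length, im L' (sh p 1 t) = im L t := fun t ht => by
    unfold im; rw [hold t ht]
  have ofl : ∀ t < L.length, fl L' (sh p 1 t) = fl L t := fun t ht => by
    unfold fl; rw [hold t ht]
  have nlab : lab L' (p + 1) = L.length := by unfold lab; rw [hnew]
  have nim : im L' (p + 1) = u := by unfold im; rw [hnew]
  have nfl : fl L' (p + 1) = false := by unfold fl; rw [hnew]
  have hcase : ∀ s < L'.length, (∃ t < L.length, s = sh p 1 t) ∨ s = p + 1 := by
    intro s hs
    rw [hlen] at hs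
    rcases sh_cases p 1 L.length s (by omega) hs with h | ⟨t, ht, h⟩
    · exact Or.inl h
    · exact Or.inr (by omega)
  have h0 : sh p 1 0 = 0 := sh_le (Nat.zero_le p)
  have htwo := hL.two
  have hlast : sh p 1 (L.length - 1) = L'.length - 1 := by
    rw [sh_gt (by omega), hlen]
    omega
  have hle : ∀ t, t ≤ p → (Lt r (im L t) u) := by
    intro t ht
    rcases Nat.lt_or_eq_of_le ht with h | h
    · exact (hL.im_lt t p h (by omega)).trans hr hlo
    · rw [h]; exact hlo
  have hge : ∀ t, p < t → t < L.length → (Lt r u (im L t)) := by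
    intro t ht ht'
    rcases Nat.lt_or_eq_of_le (Nat.succ_le_of_lt ht) with h | h
    · exact hhi.trans hr (hL.im_lt (p + 1) t h ht')
    · have h' : t = p + 1 := by omega
      rw [h']; exact hhi
  refine ⟨by omega, ?_, ?_, ?_, ?_, ?_, ?_, ?_, ?_⟩
  · -- labels are small
    intro i hi
    rcases hcase i hi with ⟨t, ht, rfl⟩ | rfl
    · rw [olab t ht, hlen]
      have := hL.lab_lt t ht
      omega
    · rw [nlab, hlen]; omega
  · -- labels are different
    intro i hi j hj hij
    rcases hcase i hi with ⟨s, hs, rfl⟩ | rfl
    · rcases hcase j hj with ⟨t, ht, rfl⟩ | rfl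
      · rw [olab s hs, olab t ht] at hij
        rw [hL.lab_inj s hs t ht hij]
      · rw [olab s hs, nlab] at hij
        have := hL.lab_lt s hs
        omega
    · rcases hcase j hj with ⟨t, ht, rfl⟩ | rfl
      · rw [olab t ht, nlab] at hij
        have := hL.lab_lt t ht
        omega
      · rfl
  · -- images increase
    intro i j hij hj
    have hi : i < L'.length := lt_trans hij hj
    rcases hcase i hi with ⟨s, hs, rfl⟩ | rfl
    · rcases hcase j hj with ⟨t, ht, rfl⟩ | rfl
      · rw [oim s hs, oim t ht]
        exact hL.im_lt s t (sh_lt_iff.1 hij) ht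
      · rw [oim s hs, nim]
        refine hle s ?_
        by_contra h
        rw [sh_gt (by omega)] at hij
        omega
    · rcases hcase j hj with ⟨t, ht, rfl⟩ | rfl
      · rw [oim t ht, nim]
        refine hge t ?_ ht
        by_contra h
        rw [sh_le (by omega)] at hij
        omega
      · omega
  · -- frozen pairs
    intro i hi hfl
    rcases hcase i hi with ⟨t, ht, rfl⟩ | rfl
    · rw [ofl t ht] at hfl
      obtain ⟨h1, h2⟩ := hL.fl_adj t ht hfl
      have htp : t ≠ p := by
        rintro rfl
        exact h2.2 u hlo hhi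
      rw [← HEXT2.shift_succ htp]
      refine ⟨?_, ?_⟩
      · rw [hlen]; exact sh_lt h1
      · rw [oim t ht, oim (t + 1) h1]; exact h2
    · rw [nfl] at hfl
      exact absurd hfl Bool.false_ne_true
  · have := olab 0 (by omega)
    rw [h0] at this
    rw [this]; exact hL.lab_first
  · have := oim 0 (by omega)
    rw [h0] at this
    rw [this]; exact hL.im_first
  · have := olab (L.length - 1) (by omega)
    rw [hlast] at this
    rw [this]; exact hL.lab_last
  · have := oim (L.length - 1) (by omega)
    rw [hlast] at this
    rw [this]; exact hL.im_last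

end Pool.Agent.DMO
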