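import Pool.Agent.DMO.Targets

set_option autoImplicit false

namespace Pool.Agent.DMO

namespace HFD

section

variable {s : ℕ → ℕ → Bool} {C : Set ℕ} {f : ℚ → ℕ}

/-- The block of an element. -/
def blk (e : C ≃ Lex (Σ q : ℚ, Fin (f q))) (a : C) : ℚ := (ofLex (e a)).1

/-- The place of an element in its block. -/
def plc (e : C ≃ Lex (Σ q : ℚ, Fin (f q))) (a : C) : ℕ := ((ofLex (e a)).2 : ℕ)

theorem plc_lt (e : C ≃ Lex (Σ q : ℚ, Fin (f q))) (a : C) : plc e a < f (blk e a) :=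
  (ofLex (e a)).2.isLt

theorem eq_of_blk_plc (e : C ≃ Lex (Σ q : ℚ, Fin (f q))) {a b : C} (h1 : blk e a = blk e b)
    (h2 : plc e a = plc e b) : a = b := by
  apply e.injective
  apply ofLex.injective
  unfold blk at h1
  unfold plc at h2
  generalize ofLex (e a) = x at h1 h2
  generalize ofLex (e b) = y at h1 h2
  obtain ⟨q, i⟩ := x
  obtain ⟨q', i'⟩ := y
  dsimp only at h1 h2
  subst h1
  congr 1
  exact Fin.ext h2

theorem blk_le (e : C ≃ Lex (Σ q : ℚ, Fin (f q)))
    (he : ∀ a b : C, s a b = true ↔ e a ≤ e b) {a b : C} (h : s a b = true) :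
    blk e a ≤ blk e b := by
  have h1 := (he a b).1 h
  rw [Sigma.Lex.le_def] at h1
  rcases h1 with h1 | ⟨h1, -⟩
  · exact le_of_lt h1
  · exact le_of_eq h1

theorem lt_of_blk (e : C ≃ Lex (Σ q : ℚ, Fin (f q)))
    (he : ∀ a b : C, s a b = true ↔ e a ≤ e b) {a b : C} (h : blk e a < blk e b) :
    Lt s a b := by
  unfold Lt
  by_contra h1
  have h2 : s b a = true := by simpa using h1
  exact absurd (blk_le e he h2) (not_le.2 h)

/-- The first element of the block `q`. -/
def fst (hf : ∀ q, 1 ≤ f q) (e : C ≃ Lex (Σ q : ℚ, Fin (f q))) (q : ℚ) : C :=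
  e.symm (toLex ⟨q, ⟨0, hf q⟩⟩)

theorem blk_fst (hf : ∀ q, 1 ≤ f q) (e : C ≃ Lex (Σ q : ℚ, Fin (f q))) (q : ℚ) :
    blk e (fst hf e q) = q := by
  unfold blk fst
  rw [Equiv.apply_symm_apply]
  rfl

/-- Elements of different blocks are far. -/
theorem far_of_blk (hf : ∀ q, 1 ≤ f q) (e : C ≃ Lex (Σ q : ℚ, Fin (f q)))
    (he : ∀ a b : C, s a b = true ↔ e a ≤ e b) (N : ℕ) {x y : C} (h : blk e x < blk e y) :
    Far s N x y := by
  have hN : (0 : ℚ) < N + 1 := by positivity
  have hd : 0 < blk e y - blk e x := by linarith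
  set F : ℕ → ℕ := fun t => (fst hf e (blk e x + (blk e y - blk e x) * ((t + 1 : ℚ) / (N + 1))) : ℕ)
    with hF
  have hinj : Function.Injective F := by
    intro t t' htt
    have h1 : fst hf e (blk e x + (blk e y - blk e x) * ((t + 1 : ℚ) / (N + 1))) =
        fst hf e (blk e x + (blk e y - blk e x) * ((t' + 1 : ℚ) / (N + 1))) := Subtype.ext htt
    have h2 := congrArg (blk e) h1
    rw [blk_fst, blk_fst] at h2
    have h3 : (blk e y - blk e x) * ((t + 1 : ℚ) / (N + 1)) =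
        (blk e y - blk e x) * ((t' + 1 : ℚ) / (N + 1)) := by linarith
    have h4 := mul_left_cancel₀ hd.ne' h3
    rw [div_left_inj' hN.ne'] at h4
    have h5 : (t : ℚ) = t' := by linarith
    exact_mod_cast h5
  refine ⟨(List.range N).map F, by simp, List.Nodup.map hinj List.nodup_range, ?_⟩
  intro z hz
  rw [List.mem_map] at hz
  obtain ⟨t, ht, rfl⟩ := hz
  rw [List.mem_range] at ht
  have h1 : (0 : ℚ) < (t + 1 : ℚ) / (N + 1) := by positivity
  have h2 : (t + 1 : ℚ) / (N + 1) < 1 := by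
    rw [div_lt_one hN]
    have : (t : ℚ) < N := by exact_mod_cast ht
    linarith
  constructor
  · apply lt_of_blk e he
    rw [blk_fst]
    nlinarith [mul_pos hd h1]
  · apply lt_of_blk e he
    rw [blk_fst]
    nlinarith [mul_lt_mul_of_pos_left h2 hd]

/-- A block contains few elements. -/
theorem block_card (e : C ≃ Lex (Σ q : ℚ, Fin (f q))) (q : ℚ) (L : List ℕ) (hL : L.Nodup)
    (h : ∀ z ∈ L, ∃ hz : z ∈ C, blk e ⟨z, hz⟩ = q) : L.length ≤ f q := by
  classical
  rw [← List.toFinset_card_of_nodup hL]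
  have hc : (Finset.range (f q)).card = f q := Finset.card_range _
  rw [← hc]
  refine Finset.card_le_card_of_injOn
    (fun z => if hz : z ∈ C then plc e ⟨z, hz⟩ else 0) ?_ ?_
  · intro z hz
    have hz' : z ∈ L := by simpa using hz
    obtain ⟨h1, h2⟩ := h z hz'
    have h3 : plc e ⟨z, h1⟩ < f q := by
      have := plc_lt e ⟨z, h1⟩
      rwa [h2] at this
    have h4 : (if hz : z ∈ C then plc e ⟨z, hz⟩ else 0) = plc e ⟨z, h1⟩ := dif_pos h1
    simpa [h1] using h3
  · intro z hz z' hz' hzz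
    have hz1 : z ∈ L := by simpa using hz
    have hz2 : z' ∈ L := by simpa using hz'
    obtain ⟨h1, h2⟩ := h z hz1
    obtain ⟨h1', h2'⟩ := h z' hz2
    have h5 : plc e ⟨z, h1⟩ = plc e ⟨z', h1'⟩ := by
      have h6 : (if hz : z ∈ C then plc e ⟨z, hz⟩ else 0) =
        (if hz : z' ∈ C then plc e ⟨z', hz⟩ else 0) := hzz
      rwa [dif_pos h1, dif_pos h1'] at h6
    have h7 := eq_of_blk_plc e (h2.trans h2'.symm) h5
    exact congrArg Subtype.val h7

/-- Far elements are in different blocks. -/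
theorem blk_of_far (hs : LO s) (hconv : ∀ a b c, a ∈ C → c ∈ C → s a b = true → s b c = true → b ∈ C)
    (e : C ≃ Lex (Σ q : ℚ, Fin (f q)))
    (he : ∀ a b : C, s a b = true ↔ e a ≤ e b) (N : ℕ) (hN : 1 ≤ N) (hfN : ∀ q, f q ≤ N)
    {x y : C} (h : Far s N x y) : blk e x < blk e y := by
  obtain ⟨c, hlen, hnd, hc⟩ := h
  have hlt : Lt s x y := by
    obtain ⟨z, hz⟩ : ∃ z, z ∈ c := by
      cases c with
      | nil => simp at hlen; omega
      | cons a l => exact ⟨a, by simp⟩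
    exact (hc z hz).1.trans hs (hc z hz).2
  rcases lt_or_eq_of_le (blk_le e he (hlt.le hs)) with h1 | h1
  · exact h1
  exfalso
  have h2 : ((x : ℕ) :: c).length ≤ f (blk e x) := by
    refine block_card e (blk e x) _ ?_ ?_
    · rw [List.nodup_cons]
      refine ⟨fun hx => ?_, hnd⟩
      exact (hc _ hx).1.irrefl hs
    · intro z hz
      rw [List.mem_cons] at hz
      rcases hz with rfl | hz
      · exact ⟨x.2, rfl⟩
      · have h3 := hc z hz
        have hzC : z ∈ C := hconv x z y x.2 y.2 (h3.1.le hs) (h3.2.le hs)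
        refine ⟨hzC, ?_⟩
        have h4 : blk e x ≤ blk e ⟨z, hzC⟩ := blk_le e he (a := x) (b := ⟨z, hzC⟩) (h3.1.le hs)
        have h5 : blk e ⟨z, hzC⟩ ≤ blk e y := blk_le e he (a := ⟨z, hzC⟩) (b := y) (h3.2.le hs)
        rw [← h1] at h5
        exact le_antisymm h5 h4
  rw [List.length_cons, hlen] at h2
  have := hfN (blk e x)
  omega

end

end HFD

open HFD in
/-- T_FD. In a strongly eta-like convex subset the relation `Far` is dense. -/
theorem p_FD : T_FD := by
  intro s hs hse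
  obtain ⟨C, hconv, f, hf, ⟨B, hB⟩, e, he⟩ := hse
  set N := max B 1 with hNdef
  have hN : 1 ≤ N := le_max_right _ _
  have hfN : ∀ q, f q ≤ N := fun q => (hB ⟨q, rfl⟩).trans (le_max_left _ _)
  refine ⟨N, (fst hf e 0 : C), (fst hf e 1 : C), hN, ?_, ?_⟩
  · apply far_of_blk hf e he
    rw [blk_fst, blk_fst]
    norm_num
  · intro x y hx hy hxy
    have hlt : Lt s x y := by
      obtain ⟨c, hlen, -, hc⟩ := hxy
      obtain ⟨z, hz⟩ : ∃ z, z ∈ c := by
        cases c with
        | nil => simp at hlen; omega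
        | cons a l => exact ⟨a, by simp⟩
      exact (hc z hz).1.trans hs (hc z hz).2
    have hxC : x ∈ C := hconv _ x _ (fst hf e 0).2 (fst hf e 1).2 hx
      (hs.trans _ _ _ (hlt.le hs) hy)
    have hyC : y ∈ C := hconv _ y _ (fst hf e 0).2 (fst hf e 1).2
      (hs.trans _ _ _ hx (hlt.le hs)) hy
    have h1 : blk e ⟨x, hxC⟩ < blk e ⟨y, hyC⟩ :=
      blk_of_far hs hconv e he N hN hfN (x := ⟨x, hxC⟩) (y := ⟨y, hyC⟩) hxy
    refine ⟨(fst hf e ((blk e ⟨x, hxC⟩ + blk e ⟨y, hyC⟩) / 2) : C), ?_, ?_⟩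
    · refine far_of_blk hf e he N (x := ⟨x, hxC⟩) ?_
      rw [blk_fst]
      linarith
    · refine far_of_blk hf e he N (y := ⟨y, hyC⟩) ?_
      rw [blk_fst]
      linarith

end Pool.Agent.DMO
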