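import Pool.Agent.DMO.Targets

/-!
# The target T_GCON for MP_55b29c_lc

From an interval in which the relation `Far` is dense we build a computable embedding of the
order which is not the identity.
-/

set_option autoImplicit false

namespace Pool.Agent.DMO

open Pool.Agent.CeerI

namespace HGCON

variable {s : ℕ → ℕ → Bool} {N : ℕ}

theorem far_lt (hs : LO s) (hN : 1 ≤ N) {x y : ℕ} (h : Far s N x y) : Lt s x y := by
  obtain ⟨c, hc, -, hz⟩ := h
  have h0 : 0 < c.length := by omega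
  have hm := hz _ (List.getElem_mem h0)
  exact hm.1.trans hs hm.2

theorem far_mono (hs : LO s) {x x' y y' : ℕ} (hx : s x' x = true) (hy : s y y' = true)
    (h : Far s N x y) : Far s N x' y' := by
  obtain ⟨c, hc, hn, hz⟩ := h
  exact ⟨c, hc, hn, fun z hzc =>
    ⟨le_trans_lt hs hx (hz z hzc).1, (hz z hzc).2.trans_le hs hy⟩⟩

/-- The greatest element of a nonempty list. -/
theorem exists_max (hs : LO s) (a : ℕ) (A : List ℕ) :
    ∃ α, (α = a ∨ α ∈ A) ∧ s a α = true ∧ ∀ v ∈ A, s v α = true := by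
  induction A with
  | nil => exact ⟨a, Or.inl rfl, hs.refl a, by simp⟩
  | cons u A ih =>
    obtain ⟨α, h1, h2, h3⟩ := ih
    rcases hs.total u α with h | h
    · refine ⟨α, ?_, h2, ?_⟩
      · rcases h1 with h1 | h1
        · exact Or.inl h1
        · exact Or.inr (List.mem_cons_of_mem _ h1)
      · intro v hv
        rcases List.mem_cons.1 hv with rfl | hv
        · exact h
        · exact h3 v hv
    · refine ⟨u, Or.inr List.mem_cons_self, hs.trans _ _ _ h2 h, ?_⟩
      intro v hv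
      rcases List.mem_cons.1 hv with rfl | hv
      · exact hs.refl v
      · exact hs.trans _ _ _ (h3 v hv) h

/-- The least element of a nonempty list. -/
theorem exists_min (hs : LO s) (b : ℕ) (B : List ℕ) :
    ∃ β, (β = b ∨ β ∈ B) ∧ s β b = true ∧ ∀ v ∈ B, s β v = true := by
  induction B with
  | nil => exact ⟨b, Or.inl rfl, hs.refl b, by simp⟩
  | cons u B ih =>
    obtain ⟨β, h1, h2, h3⟩ := ih
    rcases hs.total β u with h | h
    · refine ⟨β, ?_, h2, ?_⟩
      · rcases h1 with h1 | h1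
        · exact Or.inl h1
        · exact Or.inr (List.mem_cons_of_mem _ h1)
      · intro v hv
        rcases List.mem_cons.1 hv with rfl | hv
        · exact h
        · exact h3 v hv
    · refine ⟨u, Or.inr List.mem_cons_self, hs.trans _ _ _ h h2, ?_⟩
      intro v hv
      rcases List.mem_cons.1 hv with rfl | hv
      · exact hs.refl v
      · exact hs.trans _ _ _ h (h3 v hv)

/-- The step relation. -/
def R (s : ℕ → ℕ → Bool) (N a b k : ℕ) (l l' : List (ℕ × ℕ)) : Prop :=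
  ((Lt s a k ∧ Lt s k b) → ∃ v, l' = (k, v) :: l ∧ v ≠ k ∧ Far s N a v ∧ Far s N v b ∧
    ∀ i < l.length, (Lt s (l.getD i (0, 0)).1 k → Far s N (l.getD i (0, 0)).2 v) ∧
      (Lt s k (l.getD i (0, 0)).1 → Far s N v (l.getD i (0, 0)).2)) ∧
  (¬ (Lt s a k ∧ Lt s k b) → l' = l)

/-- The invariant. -/
def I (s : ℕ → ℕ → Bool) (N a b : ℕ) (l : List (ℕ × ℕ)) : Prop :=
  (∀ p ∈ l, Far s N a p.2 ∧ Far s N p.2 b) ∧
    ∀ p ∈ l, ∀ q ∈ l, Lt s p.1 q.1 → Far s N p.2 q.2

theorem getD_mem {l : List (ℕ × ℕ)} {i : ℕ} (hi : i < l.length) : l.getD i (0, 0) ∈ l := by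
  rw [List.getD_eq_getElem _ _ hi]
  exact List.getElem_mem hi

theorem mem_getD {l : List (ℕ × ℕ)} {p : ℕ × ℕ} (hp : p ∈ l) :
    ∃ i < l.length, l.getD i (0, 0) = p := by
  obtain ⟨i, hi, h⟩ := List.mem_iff_getElem.1 hp
  exact ⟨i, hi, by rw [List.getD_eq_getElem _ _ hi, h]⟩

/-- The step is always possible. -/
theorem tot (hs : LO s) (hN : 1 ≤ N) {a b : ℕ} (hab : Far s N a b)
    (hd : ∀ x y, s a x = true → s y b = true → Far s N x y →
      ∃ z, Far s N x z ∧ Far s N z y) (k : ℕ) (l : List (ℕ × ℕ)) (hl : I s N a b l) :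
    ∃ l', R s N a b k l l' := by
  classical
  by_cases hk : Lt s a k ∧ Lt s k b
  swap
  · exact ⟨l, fun h => absurd h hk, fun _ => rfl⟩
  obtain ⟨α, hα1, hα2, hα3⟩ := exists_max hs a ((l.filter fun p => decide (Lt s p.1 k)).map
    Prod.snd)
  obtain ⟨β, hβ1, hβ2, hβ3⟩ := exists_min hs b ((l.filter fun p => decide (Lt s k p.1)).map
    Prod.snd)
  have hA : ∀ p ∈ l, Lt s p.1 k → s p.2 α = true := by
    intro p hp hpk
    refine hα3 _ (List.mem_map.2 ⟨p, List.mem_filter.2 ⟨hp, ?_⟩, rfl⟩)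
    simpa using hpk
  have hB : ∀ p ∈ l, Lt s k p.1 → s β p.2 = true := by
    intro p hp hpk
    refine hβ3 _ (List.mem_map.2 ⟨p, List.mem_filter.2 ⟨hp, ?_⟩, rfl⟩)
    simpa using hpk
  have hα : α = a ∨ ∃ p ∈ l, Lt s p.1 k ∧ p.2 = α := by
    rcases hα1 with h | h
    · exact Or.inl h
    · obtain ⟨p, hp, hpα⟩ := List.mem_map.1 h
      obtain ⟨hp1, hp2⟩ := List.mem_filter.1 hp
      exact Or.inr ⟨p, hp1, by simpa using hp2, hpα⟩
  have hβ : β = b ∨ ∃ p ∈ l, Lt s k p.1 ∧ p.2 = β := by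
    rcases hβ1 with h | h
    · exact Or.inl h
    · obtain ⟨p, hp, hpβ⟩ := List.mem_map.1 h
      obtain ⟨hp1, hp2⟩ := List.mem_filter.1 hp
      exact Or.inr ⟨p, hp1, by simpa using hp2, hpβ⟩
  have hαβ : Far s N α β := by
    rcases hα with rfl | ⟨p, hp, hpk, rfl⟩
    · rcases hβ with rfl | ⟨q, hq, hqk, rfl⟩
      · exact hab
      · exact (hl.1 q hq).1
    · rcases hβ with rfl | ⟨q, hq, hqk, rfl⟩
      · exact (hl.1 p hp).2
      · exact hl.2 p hp q hq (hpk.trans hs hqk)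
  obtain ⟨z, hz1, hz2⟩ := hd α β hα2 hβ2 hαβ
  have hzb : s z b = true := hs.trans _ _ _ ((far_lt hs hN hz2).le hs) hβ2
  obtain ⟨z', hz1', hz2'⟩ := hd α z hα2 hzb hz1
  have hzz : z' ≠ z := (far_lt hs hN hz2').ne hs
  have hv : ∃ v, v ≠ k ∧ Far s N α v ∧ Far s N v β := by
    by_cases hzk : z = k
    · refine ⟨z', ?_, hz1', far_mono hs (hs.refl _) ((far_lt hs hN hz2).le hs) hz2'⟩
      rw [← hzk]
      exact hzz
    · exact ⟨z, hzk, hz1, hz2⟩
  obtain ⟨v, hvk, hv1, hv2⟩ := hv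
  refine ⟨(k, v) :: l, fun _ => ⟨v, rfl, hvk, far_mono hs hα2 (hs.refl _) hv1,
    far_mono hs (hs.refl _) hβ2 hv2, ?_⟩, fun h => absurd hk h⟩
  intro i hi
  exact ⟨fun h => far_mono hs (hA _ (getD_mem hi) h) (hs.refl _) hv1,
    fun h => far_mono hs (hs.refl _) (hB _ (getD_mem hi) h) hv2⟩

/-- The step preserves the invariant. -/
theorem inv (hs : LO s) {a b : ℕ} (k : ℕ) (l l' : List (ℕ × ℕ)) (hl : I s N a b l)
    (h : R s N a b k l l') : I s N a b l' := by
  by_cases hk : Lt s a k ∧ Lt s k b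
  swap
  · rw [h.2 hk]
    exact hl
  obtain ⟨v, rfl, -, hv1, hv2, hv3⟩ := h.1 hk
  refine ⟨?_, ?_⟩
  · intro p hp
    rcases List.mem_cons.1 hp with rfl | hp
    · exact ⟨hv1, hv2⟩
    · exact hl.1 p hp
  · intro p hp q hq hpq
    rcases List.mem_cons.1 hp with rfl | hp
    · rcases List.mem_cons.1 hq with rfl | hq
      · exact absurd hpq fun h => h.irrefl hs
      · obtain ⟨i, hi, rfl⟩ := mem_getD hq
        exact (hv3 i hi).2 hpq
    · rcases List.mem_cons.1 hq with rfl | hq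
      · obtain ⟨i, hi, rfl⟩ := mem_getD hp
        exact (hv3 i hi).1 hpq
      · exact hl.2 p hp q hq hpq

theorem dec_Lt {α : Type} [Primcodable α] (hs : Computable₂ s) {f g : α → ℕ}
    (hf : Computable f) (hg : Computable g) : ComputablePred fun x => Lt s (f x) (g x) :=
  dec_iff.2 ⟨fun x => !(s (g x) (f x)), Primrec.not.to_comp.comp (hs.comp hg hf),
    fun x => by simp [Lt]⟩

/-- The type of the arguments of the step relation. -/
abbrev X : Type := (ℕ × List (ℕ × ℕ)) × List (ℕ × ℕ)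

theorem re_R (hF : T_RFAR) (hs : Computable₂ s) (a b : ℕ) :
    REPred fun x : X => R s N a b x.1.1 x.1.2 x.2 := by
  have hk : Computable fun x : X => x.1.1 := Computable.fst.comp Computable.fst
  have hd : ComputablePred fun x : X => Lt s a x.1.1 ∧ Lt s x.1.1 b :=
    dec_and (dec_Lt hs (Computable.const a) hk) (dec_Lt hs hk (Computable.const b))
  have hl : Computable fun x : X => x.1.2 := Computable.snd.comp Computable.fst
  refine re_and (re_imp hd ?_) (re_imp (dec_not hd) (dec_re (dec_eq Computable.snd hl)))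
  have hk' : Computable fun q : X × ℕ => q.1.1.1 := hk.comp Computable.fst
  have hl' : Computable fun q : X × ℕ => q.1.1.2 := hl.comp Computable.fst
  have hv : Computable fun q : X × ℕ => q.2 := Computable.snd
  have h1 : REPred fun q : X × ℕ => q.1.2 = (q.1.1.1, q.2) :: q.1.1.2 := by
    refine dec_re (dec_eq (Computable.snd.comp Computable.fst) ?_)
    exact Primrec.list_cons.to_comp.comp (hk'.pair hv) hl'
  have h2 : REPred fun q : X × ℕ => q.2 ≠ q.1.1.1 := dec_re (dec_not (dec_eq hv hk'))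
  have h3 : REPred fun q : X × ℕ => Far s N a q.2 :=
    hF s N hs _ _ _ (Computable.const a) hv
  have h4 : REPred fun q : X × ℕ => Far s N q.2 b :=
    hF s N hs _ _ _ hv (Computable.const b)
  have hg : Computable fun w : (X × ℕ) × ℕ => w.1.1.1.2.getD w.2 (0, 0) :=
    (Primrec.list_getD ((0, 0) : ℕ × ℕ)).to_comp.comp (hl'.comp Computable.fst)
      Computable.snd
  have hk2 : Computable fun w : (X × ℕ) × ℕ => w.1.1.1.1 := hk'.comp Computable.fst
  have hv2 : Computable fun w : (X × ℕ) × ℕ => w.1.2 := hv.comp Computable.fst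
  have h5 : REPred fun w : (X × ℕ) × ℕ =>
      (Lt s (w.1.1.1.2.getD w.2 (0, 0)).1 w.1.1.1.1 →
        Far s N (w.1.1.1.2.getD w.2 (0, 0)).2 w.1.2) ∧
      (Lt s w.1.1.1.1 (w.1.1.1.2.getD w.2 (0, 0)).1 →
        Far s N w.1.2 (w.1.1.1.2.getD w.2 (0, 0)).2) := by
    refine re_and (re_imp ?_ ?_) (re_imp ?_ ?_)
    · exact dec_Lt hs (Computable.fst.comp hg) hk2
    · exact hF s N hs _ _ _ (Computable.snd.comp hg) hv2
    · exact dec_Lt hs hk2 (Computable.fst.comp hg)
    · exact hF s N hs _ _ _ hv2 (Computable.snd.comp hg)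
  have h6 : REPred fun q : X × ℕ => ∀ i < q.1.1.2.length,
      (Lt s (q.1.1.2.getD i (0, 0)).1 q.1.1.1 →
        Far s N (q.1.1.2.getD i (0, 0)).2 q.2) ∧
      (Lt s q.1.1.1 (q.1.1.2.getD i (0, 0)).1 →
        Far s N q.2 (q.1.1.2.getD i (0, 0)).2) :=
    re_ball h5 (Primrec.list_length.to_comp.comp hl')
  exact re_ex (re_and h1 (re_and h2 (re_and h3 (re_and h4 h6))))

end HGCON

open HGCON in
theorem p_GCON : T_RFAR → T_GCON := by
  classical
  intro hF s hs hc hfd
  obtain ⟨N, a, b, hN, hab, hd⟩ := hfd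
  obtain ⟨σ, hσ, hσ0, hσR, hσI⟩ := seq (re_R (N := N) hF hc a b)
    (I := I s N a b) (fun k l hl => tot hs hN hab hd k l hl)
    (fun k l l' hl h => inv hs k l l' hl h) [] ⟨by simp, by simp⟩
  -- the lists grow
  have hmono1 : ∀ k p, p ∈ σ k → p ∈ σ (k + 1) := by
    intro k p hp
    by_cases hk : Lt s a k ∧ Lt s k b
    · obtain ⟨v, hv, -⟩ := (hσR k).1 hk
      rw [hv]
      exact List.mem_cons_of_mem _ hp
    · rw [(hσR k).2 hk]
      exact hp
  have hmono : ∀ k K p, k ≤ K → p ∈ σ k → p ∈ σ K := by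
    intro k K p hkK hp
    induction K, hkK using Nat.le_induction with
    | base => exact hp
    | succ K _ ih => exact hmono1 K p ih
  let g : ℕ → ℕ := fun x =>
    if Lt s a x ∧ Lt s x b then ((σ (x + 1)).getD 0 (0, 0)).2 else x
  have hg1 : ∀ x, ¬ (Lt s a x ∧ Lt s x b) → g x = x := fun x hx => if_neg hx
  have hg2 : ∀ x, Lt s a x ∧ Lt s x b → (x, g x) ∈ σ (x + 1) ∧ g x ≠ x := by
    intro x hx
    obtain ⟨v, hv, hvx, -⟩ := (hσR x).1 hx
    have hgx : g x = v := by
      have : g x = ((σ (x + 1)).getD 0 (0, 0)).2 := if_pos hx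
      rw [this, hv]
      rfl
    rw [hgx, hv]
    exact ⟨List.mem_cons_self, hvx⟩
  have hg3 : ∀ x, Lt s a x ∧ Lt s x b → Lt s a (g x) ∧ Lt s (g x) b := by
    intro x hx
    have h := (hσI (x + 1)).1 _ (hg2 x hx).1
    exact ⟨far_lt hs hN h.1, far_lt hs hN h.2⟩
  have hlt : ∀ x y, Lt s x y → Lt s (g x) (g y) := by
    intro x y hxy
    by_cases hx : Lt s a x ∧ Lt s x b
    · by_cases hy : Lt s a y ∧ Lt s y b
      · have h1 := hmono _ (max (x + 1) (y + 1)) _ (le_max_left _ _) (hg2 x hx).1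
        have h2 := hmono _ (max (x + 1) (y + 1)) _ (le_max_right _ _) (hg2 y hy).1
        exact far_lt hs hN ((hσI _).2 _ h1 _ h2 hxy)
      · rw [hg1 y hy]
        have h1 : ¬ Lt s y b := fun h => hy ⟨hx.1.trans hs hxy, h⟩
        rw [not_lt hs] at h1
        exact (hg3 x hx).2.trans_le hs h1
    · rw [hg1 x hx]
      by_cases hy : Lt s a y ∧ Lt s y b
      · have h1 : ¬ Lt s a x := fun h => hx ⟨h, hxy.trans hs hy.2⟩
        rw [not_lt hs] at h1
        exact le_trans_lt hs h1 (hg3 y hy).1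
      · rw [hg1 y hy]
        exact hxy
  refine ⟨g, ?_, ?_, ?_, ?_⟩
  · have h1 : Computable fun x : ℕ => ((σ (x + 1)).getD 0 (0, 0)).2 :=
      Computable.snd.comp ((Primrec.list_getD ((0, 0) : ℕ × ℕ)).to_comp.comp
        (hσ.comp Computable.succ) (Computable.const 0))
    have h2 : ComputablePred fun x : ℕ => Lt s a x ∧ Lt s x b :=
      dec_and (dec_Lt hc (Computable.const a) Computable.id)
        (dec_Lt hc Computable.id (Computable.const b))
    exact comp_ite h2 h1 Computable.id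
  · intro x y hxy
    rcases lt_trichotomy hs x y with h | h | h
    · exact absurd hxy ((hlt x y h).ne hs)
    · exact h
    · exact absurd hxy.symm ((hlt y x h).ne hs)
  · intro hid
    obtain ⟨c, hc1, -, hc2⟩ := hab
    have h0 : 0 < c.length := by omega
    have hm := hc2 _ (List.getElem_mem h0)
    exact (hg2 _ hm).2 (by rw [hid]; rfl)
  · intro x y hxy
    rcases (le_iff hs).1 hxy with h | rfl
    · exact (hlt x y h).le hs
    · exact hs.refl _

end Pool.Agent.DMO
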