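import Pool.Agent.DMO.Targets

/-!
# DMO: the finite closed set for a program (`T_GSET`)
-/

set_option autoImplicit false

namespace Pool.Agent.DMO

namespace HGSET

variable {r : ℕ → ℕ → Bool} {N : ℕ → ℕ} {img : ℕ → ℕ → ℕ} {frz : ℕ → ℕ → ℕ → Prop}
  {acts : ℕ → ℕ → Prop}

theorem frz_le (hrun : Run r N img frz acts) {k k' : ℕ} (hk : k ≤ k') :
    ∀ a b, frz k a b → frz k' a b := by
  induction hk with
  | refl => exact fun _ _ h => h
  | step _ ih => exact fun a b h => hrun.frz_mono _ a b (ih a b h)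

theorem con_le (hrun : Run r N img frz acts) {k k' : ℕ} (hk : k ≤ k') {a b : ℕ}
    (h : Con frz k a b) : Con frz k' a b := by
  unfold Con at h ⊢
  induction h with
  | refl => exact Relation.ReflTransGen.refl
  | tail _ h1 ih =>
    refine ih.tail ?_
    rcases h1 with h1 | h1
    · exact Or.inl (frz_le hrun hk _ _ h1)
    · exact Or.inr (frz_le hrun hk _ _ h1)

end HGSET

open HGSET in
theorem p_GSET : T_CON → T_GSET := by
  intro hCON r N img frz acts hrun h hlim hinj hsur e
  -- the finite set of the generators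
  have hfin0 : ({0, 1} ∪ {a | a ≤ e} ∪ {a | h a ≤ e} : Set ℕ).Finite := by
    refine ((Set.toFinite {0, 1}).union (Set.finite_le_nat e)).union ?_
    exact Set.Finite.preimage hinj.injOn (Set.finite_le_nat e)
  have hfin : (⋃ a ∈ ({0, 1} ∪ {a | a ≤ e} ∪ {a | h a ≤ e} : Set ℕ),
      {b | ∃ k, Con frz k a b}).Finite :=
    hfin0.biUnion fun a _ => hCON r N img frz acts hrun a
  have hmem : ∀ b, b ∈ hfin.toFinset ↔ ∃ a ∈ ({0, 1} ∪ {a | a ≤ e} ∪ {a | h a ≤ e} : Set ℕ),
      ∃ k, Con frz k a b := by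
    intro b
    rw [Set.Finite.mem_toFinset]
    simp only [Set.mem_iUnion, Set.mem_setOf_eq, exists_prop]
  have hself : ∀ a ∈ ({0, 1} ∪ {a | a ≤ e} ∪ {a | h a ≤ e} : Set ℕ), a ∈ hfin.toFinset :=
    fun a ha => (hmem a).2 ⟨a, ha, 0, Relation.ReflTransGen.refl⟩
  choose κ hκ using hlim
  refine ⟨hfin.toFinset, hself 0 (by simp), hself 1 (by simp), ?_,
    fun a ha => hself a (Or.inl (Or.inr ha)), ?_⟩
  · intro k a b hab ha
    obtain ⟨c, hc, k', hk'⟩ := (hmem a).1 ha
    refine (hmem b).2 ⟨c, hc, max k k', ?_⟩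
    exact Relation.ReflTransGen.trans (con_le hrun (le_max_right _ _) hk')
      (con_le hrun (le_max_left _ _) hab)
  · refine ⟨hfin.toFinset.sup κ, ?_⟩
    intro k hk
    have hG : ∀ a ∈ hfin.toFinset, a < N k ∧ img k a = h a := fun a ha =>
      hκ a k ((Finset.le_sup (f := κ) ha).trans hk)
    refine ⟨hG, ?_⟩
    intro a ha hae
    obtain ⟨a', ha'⟩ := hsur (img k a)
    have h1 : a' ∈ hfin.toFinset := hself a' (Or.inr (by
      change h a' ≤ e
      rw [ha']
      exact hae))
    have h2 := hG a' h1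
    have h3 : a' = a := hrun.img_inj k a' a h2.1 ha (h2.2.trans ha')
    rw [← h3]
    exact h1

end Pool.Agent.DMO
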