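import Pool.Agent.DMO.Targets

set_option autoImplicit false

namespace Pool.Agent.DMO

namespace HHALF1

variable {r : ℕ → ℕ → Bool}

theorem inv_st0 (hr : LO r) (h0 : ∀ a, r 0 a = true) : Inv r st0.2 := by
  have h01 : Lt r 0 1 := (lt_iff hr).2 ⟨h0 1, by decide⟩
  have hlen : st0.2.length = 2 := rfl
  refine ⟨by rw [hlen], ?_, ?_, ?_, ?_, rfl, rfl, rfl, rfl⟩
  · intro i hi
    rw [hlen] at hi ⊢
    have : i = 0 ∨ i = 1 := by omega
    rcases this with rfl | rfl
    · change (0 : ℕ) < 2
      omega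
    · change (1 : ℕ) < 2
      omega
  · intro i hi j hj hij
    rw [hlen] at hi hj
    have h1 : i = 0 ∨ i = 1 := by omega
    have h2 : j = 0 ∨ j = 1 := by omega
    rcases h1 with rfl | rfl <;> rcases h2 with rfl | rfl
    · rfl
    · exact absurd hij (by decide)
    · exact absurd hij (by decide)
    · rfl
  · intro i j hij hj
    rw [hlen] at hj
    have h1 : i = 0 := by omega
    have h2 : j = 1 := by omega
    subst h1
    subst h2
    exact h01
  · intro i hi hfl
    rw [hlen] at hi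
    have : i = 0 ∨ i = 1 := by omega
    rcases this with rfl | rfl
    · exact absurd hfl (by decide)
    · exact absurd hfl (by decide)

theorem step_even {l : ℕ} {s s' : St} (h : Step r (2 * l) s s') :
    EvenStep r l l.unpair.1 s s' := by
  rcases h with ⟨-, h⟩ | ⟨h, -⟩
  · have : 2 * l / 2 = l := by omega
    rwa [this] at h
  · omega

theorem step_odd {l : ℕ} {s s' : St} (h : Step r (2 * l + 1) s s') :
    s'.1 = s.1 ∧ Ext r s.2 s'.2 := by
  rcases h with ⟨h, -⟩ | ⟨-, h⟩
  · omega
  · exact h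

theorem frz_lt {L : List Ent} (hL : Inv r L) {a b : ℕ} (h : frzL L a b) :
    a < L.length ∧ b < L.length := by
  obtain ⟨i, hi, rfl, rfl, -⟩ := h
  exact ⟨hL.lab_lt _ (by omega), hL.lab_lt _ hi⟩

theorem frz_adj {L : List Ent} (hL : Inv r L) {a b : ℕ} (h : frzL L a b) :
    Adj r (imgL L a) (imgL L b) := by
  obtain ⟨i, hi, rfl, rfl, hf⟩ := h
  rw [imgL_lab hL (by omega), imgL_lab hL hi]
  exact (hL.fl_adj i (by omega) hf).2

end HHALF1

open HHALF1

theorem p_HALF1 : T_TOT → T_RSTEP → T_IEXT → T_IACT → T_INO → T_SORD → T_HALF1 := by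
  intro hTOT hRSTEP hIEXT hIACT hINO hSORD r hr h0 h1 hc hadj hLC
  obtain ⟨htot, hinv⟩ := hTOT r hr h0 h1 hLC
  obtain ⟨σ, hσc, hσ0, hstep, hI⟩ := seq (R := fun k s s' => Step r k s s')
    (hRSTEP r hc hadj) (I := fun s => Inv r s.2) htot hinv st0 (inv_st0 hr h0)
  -- odd steps
  have hodd : ∀ l, (σ (2 * l + 2)).1 = (σ (2 * l + 1)).1 ∧
      Ext r (σ (2 * l + 1)).2 (σ (2 * l + 2)).2 := fun l => step_odd (hstep (2 * l + 1))
  have hE := fun l => hIEXT r (σ (2 * l + 1)).2 (σ (2 * l + 2)).2 hr (hI _) (hI _) (hodd l).2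
  -- even steps
  have heven : ∀ l, EvenStep r l l.unpair.1 (σ (2 * l)) (σ (2 * l + 1)) :=
    fun l => step_even (hstep (2 * l))
  -- the lists of the programs which have acted
  have hgrow : ∀ k e, e ∈ (σ k).1 → e ∈ (σ (k + 1)).1 := by
    intro k e he
    rcases Nat.even_or_odd' k with ⟨l, rfl | rfl⟩
    · rcases heven l with ⟨-, h⟩ | ⟨-, h, -⟩ | ⟨-, h, -⟩
      · rw [h]
        exact he
      · rw [h]
        exact List.mem_cons_of_mem _ he
      · rw [h]
        exact he
    · rw [(hodd l).1]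
      exact he
  have hgrow' : ∀ k k' e, k ≤ k' → e ∈ (σ k).1 → e ∈ (σ k').1 := by
    intro k k' e hk he
    induction k', hk using Nat.le_induction with
    | base => exact he
    | succ n _ ih => exact hgrow n e ih
  -- what an action is
  have hact : ∀ k e, (e ∉ (σ k).1 ∧ e ∈ (σ (k + 1)).1) → ∃ l, k = 2 * l ∧ l.unpair.1 = e ∧
      ∃ i j y z w k', Valid l e (σ k).2 i j y z w k' ∧
        ActTo r (σ k).2 (σ (k + 1)).2 i j z w k' := by
    rintro k e ⟨he, he'⟩
    rcases Nat.even_or_odd' k with ⟨l, rfl | rfl⟩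
    · rcases heven l with ⟨-, h⟩ | ⟨-, h, hex⟩ | ⟨-, h, -⟩
      · rw [h] at he'
        exact absurd he' he
      · rw [h] at he'
        rcases List.mem_cons.1 he' with h2 | h2
        · subst h2
          exact ⟨l, rfl, rfl, hex⟩
        · exact absurd h2 he
      · rw [h] at he'
        exact absurd he' he
    · rw [(hodd l).1] at he'
      exact absurd he' he
  -- even steps: the cases
  have hev : ∀ l, (σ (2 * l + 1) = σ (2 * l)) ∨
      (l.unpair.1 ∉ (σ (2 * l)).1 ∧ l.unpair.1 ∈ (σ (2 * l + 1)).1 ∧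
        ActGen r (σ (2 * l)).2.length (σ (2 * l + 1)).2.length (imgL (σ (2 * l)).2)
          (imgL (σ (2 * l + 1)).2) (frzL (σ (2 * l)).2) (frzL (σ (2 * l + 1)).2) l.unpair.1 ∧
        (σ (2 * l)).2.length ≤ (σ (2 * l + 1)).2.length ∧
        (∀ a b, a < (σ (2 * l)).2.length → b < (σ (2 * l)).2.length →
          Lt r (imgL (σ (2 * l)).2 a) (imgL (σ (2 * l)).2 b) →
          Lt r (imgL (σ (2 * l + 1)).2 a) (imgL (σ (2 * l + 1)).2 b)) ∧
        ∀ a b, frzL (σ (2 * l)).2 a b → frzL (σ (2 * l + 1)).2 a b) := by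
    intro l
    rcases heven l with ⟨-, h⟩ | ⟨hne, h, i, j, y, z, w, k', hV, hA⟩ | ⟨-, h, -⟩
    · exact Or.inl h
    · refine Or.inr ⟨hne, ?_, ?_⟩
      · rw [h]
        exact List.mem_cons_self
      · obtain ⟨g1, g2, g3⟩ := hIACT r _ _ l _ i j y z w k' hr (hI _) (hI _) hV hA
        exact ⟨g1, by rw [hA.1]; omega, g2, g3⟩
    · exact Or.inl h
  have hmono : ∀ k, (σ k).2.length ≤ (σ (k + 1)).2.length := by
    intro k
    rcases Nat.even_or_odd' k with ⟨l, rfl | rfl⟩
    · rcases hev l with h | ⟨-, -, -, h, -⟩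
      · rw [h]
      · exact h
    · have := (hE l).1
      have h2 : (σ (2 * l + 1 + 1)).2.length = (σ (2 * l + 1)).2.length + 1 := this
      omega
  have hord : ∀ k a b, a < (σ k).2.length → b < (σ k).2.length →
      Lt r (imgL (σ k).2 a) (imgL (σ k).2 b) →
      Lt r (imgL (σ (k + 1)).2 a) (imgL (σ (k + 1)).2 b) := by
    intro k a b ha hb hab
    rcases Nat.even_or_odd' k with ⟨l, rfl | rfl⟩
    · rcases hev l with h | ⟨-, -, -, -, h, -⟩
      · rw [h]
        exact hab
      · exact h a b ha hb hab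
    · exact (hE l).2.2.2.2.2 a b ha hb hab
  have hfm : ∀ k a b, frzL (σ k).2 a b → frzL (σ (k + 1)).2 a b := by
    intro k a b hab
    rcases Nat.even_or_odd' k with ⟨l, rfl | rfl⟩
    · rcases hev l with h | ⟨-, -, -, -, -, h⟩
      · rw [h]
        exact hab
      · exact h a b hab
    · exact ((hE l).2.2.1 a b).2 hab
  have hlen : ∀ l, l + 2 ≤ (σ (2 * l)).2.length := by
    intro l
    induction l with
    | zero =>
      have : (σ (2 * 0)).2.length = 2 := by
        change (σ 0).2.length = 2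
        rw [hσ0]
        rfl
      omega
    | succ l ih =>
      have h2 := hmono (2 * l)
      have h3 := (hE l).1
      have h4 : 2 * (l + 1) = 2 * l + 2 := by ring
      rw [h4, h3]
      omega
  obtain ⟨s, hsc, hs⟩ := hSORD r σ hr hc hσc hI hmono hlen hord
  refine ⟨fun k => (σ k).2.length, fun k => imgL (σ k).2, fun k => frzL (σ k).2,
    fun k e => e ∉ (σ k).1 ∧ e ∈ (σ (k + 1)).1, s, ?_, hsc, hs⟩
  refine
    { two := fun k => (hI k).two
      mono := hmono
      img_zero := fun k => imgL_zero (hI k)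
      img_one := fun k => imgL_one (hI k)
      img_inj := fun k a b ha hb h => imgL_inj hr (hI k) ha hb h
      ord := hord
      frz_lt := fun k a b h => frz_lt (hI k) h
      frz_adj := fun k a b h => frz_adj (hI k) h
      frz_mono := hfm
      odd_N := fun l => (hE l).1
      odd_img := fun l a ha => (hE l).2.1 a ha
      odd_frz := fun l a b h => ((hE l).2.2.1 a b).1 h
      odd_new := fun l a ha => (hE l).2.2.2.1 a ha
      odd_least := fun l v hv => (hE l).2.2.2.2.1 v hv
      idle := ?_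
      act_even := ?_
      act_once := ?_
      act := ?_
      no_act := ?_ }
  · intro l hl
    rcases hev l with h | ⟨h2, h3, -⟩
    · have e1 : (σ (2 * l + 1)).2 = (σ (2 * l)).2 := by rw [h]
      refine ⟨?_, ?_, ?_⟩
      · change (σ (2 * l + 1)).2.length = (σ (2 * l)).2.length
        rw [e1]
      · intro a _
        change imgL (σ (2 * l + 1)).2 a = imgL (σ (2 * l)).2 a
        rw [e1]
      · intro a b hab
        change frzL (σ (2 * l)).2 a b
        rw [← e1]
        exact hab
    · exact absurd ⟨h2, h3⟩ (hl _)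
  · intro k e h
    obtain ⟨l, h2, h3, -⟩ := hact k e h
    exact ⟨l, h2, h3⟩
  · rintro k k' e ⟨h2, h3⟩ ⟨h4, h5⟩
    rcases Nat.lt_trichotomy k k' with h | h | h
    · exact absurd (hgrow' (k + 1) k' e h h3) h4
    · exact h
    · exact absurd (hgrow' (k' + 1) k e h h5) h2
  · intro k e h
    obtain ⟨l, rfl, rfl, i, j, y, z, w, k', hV, hA⟩ := hact k e h
    exact (hIACT r _ _ l _ i j y z w k' hr (hI _) (hI _) hV hA).1
  · intro l e hle hno
    subst hle
    have hnot : ∀ k, l.unpair.1 ∉ (σ k).1 := by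
      intro k
      induction k with
      | zero =>
        rw [hσ0]
        exact List.not_mem_nil
      | succ k ih => exact fun h => hno k ⟨ih, h⟩
    rcases heven l with ⟨h, -⟩ | ⟨-, h, -⟩ | ⟨-, -, h⟩
    · exact absurd h (hnot _)
    · have h2 : l.unpair.1 ∈ (σ (2 * l + 1)).1 := by
        rw [h]
        exact List.mem_cons_self
      exact absurd h2 (hnot _)
    · exact hINO r (σ (2 * l)).2 l l.unpair.1 hr (hI _) h

end Pool.Agent.DMO
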