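import Pool.Agent.DMO.Targets

/-!
# DMO: second half (`T_HALF2`)
-/

set_option autoImplicit false

namespace Pool.Agent.DMO

theorem p_HALF2 : T_LIM → T_SUR → T_ACTED → T_NEVER → T_HALF2 := by
  intro hLIM hSUR hACT hNEV r N img frz acts hr h0 h1 hrun s hs
  obtain ⟨h, hlim, hinj, hord⟩ := hLIM r N img frz acts hrun
  have hsur : Function.Surjective h := hSUR r N img frz acts hrun h hlim
  have hcalc : ∀ a b, s a b = r (h a) (h b) := by
    intro a b
    obtain ⟨ka, hka⟩ := hlim a
    obtain ⟨kb, hkb⟩ := hlim b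
    have ha := hka (max ka kb) (le_max_left _ _)
    have hb := hkb (max ka kb) (le_max_right _ _)
    have := hs (max ka kb) a b ha.1 hb.1
    rw [ha.2, hb.2] at this
    rw [Bool.eq_iff_iff]
    exact this
  refine ⟨Equiv.ofBijective h ⟨hinj, hsur⟩, ?_, ?_, hcalc, ?_⟩
  · obtain ⟨k, hk⟩ := hlim 0
    exact ((hk k le_rfl).2.symm.trans (hrun.img_zero k))
  · obtain ⟨k, hk⟩ := hlim 1
    exact ((hk k le_rfl).2.symm.trans (hrun.img_one k))
  · intro g hg hgi hgm
    have hmon : ∀ a b, Lt r (h a) (h b) → Lt r (h (g a)) (h (g b)) := by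
      intro a b hab
      rw [lt_iff hr] at hab ⊢
      have hne : a ≠ b := fun hE => hab.2 (by rw [hE])
      have h2 : s a b = true := by rw [hcalc]; exact hab.1
      have h3 := hgm a b h2
      rw [hcalc] at h3
      exact ⟨h3, fun hE => hne (hgi (hinj hE))⟩
    obtain ⟨c, hc⟩ := Nat.Partrec.Code.exists_code.1 (Partrec.nat_iff.1 hg.partrec)
    have hcomp : Computes (Encodable.encode c) g := by
      intro x
      have : prog (Encodable.encode c) = c := by
        rw [prog, Denumerable.ofNat_encode]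
      rw [this, hc]
      exact Part.mem_some _
    by_cases hA : ∃ k, acts k (Encodable.encode c)
    · obtain ⟨k, hk⟩ := hA
      exact (hACT r N img frz acts hr hrun h hlim hord k _ g hk hcomp hmon).elim
    · exact hNEV r N img frz acts hr h0 h1 hrun h hlim hinj hsur _ g
        (fun k hk => hA ⟨k, hk⟩) hcomp hmon

end Pool.Agent.DMO
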