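import Pool.Agent.DMO.Targets

/-!
# T_IACT: the action in terms of labels (MP_55b29c_lc)
-/

set_option autoImplicit false

namespace Pool.Agent.DMO

namespace HIACT

/-- The positions of the segment. -/
theorem seg_sh {i j k m t : ℕ} (hik : i ≤ k) (hkj : k < j) :
    (i ≤ sh k m t ∧ sh k m t ≤ j + m) ↔ (i ≤ t ∧ t ≤ j) := by
  unfold sh
  split_ifs <;> constructor <;> intro h <;> omega

/-- Two consecutive old positions stay consecutive unless the first one is `k`. -/
theorem sh_succ {k m t : ℕ} (h : t ≠ k) : sh k m (t + 1) = sh k m t + 1 := by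
  unfold sh
  split_ifs <;> omega

theorem ev_sound {K e y z : ℕ} (h : ev K e y z) : z ∈ (prog e).eval y :=
  Nat.Partrec.Code.evaln_sound (Option.mem_def.2 h)

/-- The position of an old label. -/
theorem pos_old {r : ℕ → ℕ → Bool} {L L' : List Ent} {k m : ℕ} (hL : Inv r L) (hL' : Inv r L')
    (hlen : L'.length = L.length + m)
    (hlab : ∀ t < L.length, lab L' (sh k m t) = lab L t) {a : ℕ} (ha : a < L.length) :
    pos L' a = sh k m (pos L a) := by
  obtain ⟨h1, h2⟩ := pos_spec hL ha
  have h3 := hlab _ h1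
  rw [h2] at h3
  have h4 : sh k m (pos L a) < L'.length := by
    rw [hlen]
    exact sh_lt h1
  have h5 := pos_lab hL' h4
  rwa [h3] at h5

end HIACT

open HIACT in
theorem p_IACT : T_IACT := by
  intro r L L' K e i j y z w k hr hL hL' hV hA
  obtain ⟨⟨hi1, hij, hjn, hfi, hfj⟩, hseg, ⟨hiy, hyj, hiz, hzj, hiw, hwj⟩, hord, ⟨hev1, hev2⟩,
    hk1, hk2, hfk⟩ := hV
  obtain ⟨hlen, hlab, him, hfl, hnew, -, -, -⟩ := hA
  have hik : i ≤ k := by omega
  have hkj : k < j := by omega
  have hkn : k < L.length := by omega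
  have hm : 1 ≤ dd z w := by
    unfold dd
    omega
  have hposL : ∀ {a : ℕ}, a < L.length → pos L' a = sh k (dd z w) (pos L a) :=
    fun ha => pos_old hL hL' hlen hlab ha
  -- membership in the segment
  have hsegiff : ∀ s < L'.length,
      ((∃ t, i ≤ t ∧ t ≤ j + dd z w ∧ lab L' t = lab L' s) ↔ (i ≤ s ∧ s ≤ j + dd z w)) := by
    intro s hs
    constructor
    · rintro ⟨t, ht1, ht2, ht3⟩
      have : t = s := hL'.lab_inj t (by omega) s hs ht3
      subst this
      exact ⟨ht1, ht2⟩
    · rintro ⟨h1, h2⟩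
      exact ⟨s, h1, h2, rfl⟩
  -- the flags at the ends of the segment
  have hends : ∀ s < L'.length, fl L' s = true → s + 1 ≠ i ∧ s ≠ j + dd z w := by
    intro s hs hf
    constructor
    · intro h1
      have h2 : sh k (dd z w) s = s := sh_le (by omega)
      have h3 := (hfl s (by omega)).1 (by rw [h2]; exact hf)
      rcases h3 with h3 | ⟨h3, -⟩
      · have h4 : s = i - 1 := by omega
        rw [h4, hfi] at h3
        exact absurd h3 Bool.false_ne_true
      · omega
    · intro h1
      have h2 : sh k (dd z w) j = s := by rw [sh_gt hkj, h1]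
      have h3 := (hfl j (by omega)).1 (by rw [h2]; exact hf)
      rcases h3 with h3 | ⟨-, h3⟩
      · rw [hfj] at h3
        exact absurd h3 Bool.false_ne_true
      · omega
  -- images of the labels
  have himg_old : ∀ t < L.length, imgL L' (lab L t) = im L' (sh k (dd z w) t) := by
    intro t ht
    rw [← hlab t ht]
    exact imgL_lab hL' (by rw [hlen]; exact sh_lt ht)
  have himg_new : ∀ t < dd z w, imgL L' (L.length + t) = im L' (k + 1 + t) := by
    intro t ht
    rw [← (hnew t ht).1]
    exact imgL_lab hL' (by omega)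
  refine ⟨⟨fun a => ∃ t, i ≤ t ∧ t ≤ j + dd z w ∧ lab L' t = a, lab L y, lab L z, lab L w,
    dd z w, ?_, ?_, ?_, ?_, ?_, hm, hlen, hL.lab_lt y (by omega), hL.lab_lt z (by omega),
    hL.lab_lt w (by omega), ev_sound hev1, ev_sound hev2, ?_⟩, ?_, ?_⟩
  · -- (1)
    rintro a ⟨t, ht1, ht2, rfl⟩
    have htn : t < L.length + dd z w := by omega
    refine ⟨hL'.lab_lt t (by omega), ?_⟩
    rcases sh_cases k (dd z w) L.length t hkn htn with ⟨t', ht', rfl⟩ | ⟨t', ht', rfl⟩
    · obtain ⟨h1, h2⟩ := (seg_sh hik hkj).1 ⟨ht1, ht2⟩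
      rw [hlab t' ht']
      obtain ⟨h3, h4⟩ := hseg t' h1 h2
      refine ⟨h3, fun _ => ?_⟩
      rw [imgL_lab hL ht']
      exact h4
    · rw [(hnew t' ht').1]
      have h1 := (hseg i le_rfl hij).1
      have h2 := hL.lab_lt i (by omega)
      exact ⟨by omega, fun h => by omega⟩
  · -- (2)
    intro a ha1 ha2
    obtain ⟨t, rfl⟩ := Nat.exists_eq_add_of_le ha1
    have ht : t < dd z w := by omega
    exact ⟨k + 1 + t, by omega, by omega, (hnew t ht).1⟩
  · -- (3)
    intro a ha hna
    obtain ⟨h1, h2⟩ := pos_spec hL ha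
    unfold imgL
    rw [hposL ha]
    apply him _ h1
    by_contra hcon
    push Not at hcon
    apply hna
    obtain ⟨h3, h4⟩ := (seg_sh (m := dd z w) hik hkj).2 hcon
    exact ⟨_, h3, h4, by rw [hlab _ h1, h2]⟩
  · -- (4)
    rintro a b ⟨s, hs, rfl, rfl, hf⟩
    have h1 := hends s (by omega) hf
    change (∃ t, i ≤ t ∧ t ≤ j + dd z w ∧ lab L' t = lab L' s) ↔
      (∃ t, i ≤ t ∧ t ≤ j + dd z w ∧ lab L' t = lab L' (s + 1))
    rw [hsegiff s (by omega), hsegiff (s + 1) hs]
    omega
  · -- (5)
    rintro a b ⟨s, hs, rfl, rfl, hf⟩ hna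
    change ¬ (∃ t, i ≤ t ∧ t ≤ j + dd z w ∧ lab L' t = lab L' s) at hna
    rw [hsegiff s (by omega)] at hna
    rcases sh_cases k (dd z w) L.length s hkn (by omega) with ⟨t, ht, rfl⟩ | ⟨t, ht, rfl⟩
    · rw [seg_sh hik hkj] at hna
      have h1 := (hfl t ht).1 hf
      have h2 : fl L t = true := by
        rcases h1 with h1 | h1
        · exact h1
        · omega
      obtain ⟨h3, -⟩ := hL.fl_adj t ht h2
      refine ⟨t, h3, (hlab t ht).symm, ?_, h2⟩
      rw [← sh_succ (by omega)]
      exact (hlab (t + 1) h3).symm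
    · rw [(hnew t ht).2] at hf
      exact absurd hf Bool.false_ne_true
  · -- (7)
    rcases hord with ⟨h1, h2⟩ | ⟨h1, h2⟩
    · left
      have hdd : dd z w = w - z := by
        unfold dd
        omega
      refine ⟨fun t ht => ?_, fun t => lab L (z + t), rfl, ?_, fun t ht => ?_⟩
      · rw [himg_old y (by omega), himg_old z (by omega), himg_new t ht, sh_le (by omega),
          sh_gt (by omega)]
        exact ⟨hL'.im_lt _ _ (by omega) (by omega), hL'.im_lt _ _ (by omega) (by omega)⟩
      · change lab L (z + dd z w) = lab L w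
        rw [hdd]
        congr 1
        omega
      · refine ⟨sh k (dd z w) (z + t), ?_, hlab _ (by omega), ?_, ?_⟩
        · rw [sh_gt (by omega)]
          omega
        · rw [← sh_succ (by omega)]
          exact hlab _ (by omega)
        · rw [hfl _ (by omega)]
          right
          omega
    · right
      have hdd : dd z w = z - w := by
        unfold dd
        omega
      refine ⟨fun t ht => ?_, fun t => lab L (w + t), rfl, ?_, fun t ht => ?_⟩
      · rw [himg_old y (by omega), himg_old z (by omega), himg_new t ht,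
          sh_gt (t := y) (by omega), sh_le (t := z) (by omega)]
        exact ⟨hL'.im_lt _ _ (by omega) (by omega), hL'.im_lt _ _ (by omega) (by omega)⟩
      · change lab L (w + dd z w) = lab L z
        rw [hdd]
        congr 1
        omega
      · refine ⟨sh k (dd z w) (w + t), ?_, hlab _ (by omega), ?_, ?_⟩
        · rw [sh_le (by omega)]
          omega
        · rw [← sh_succ (by omega)]
          exact hlab _ (by omega)
        · rw [hfl _ (by omega)]
          right
          omega
  · -- (8)
    intro a b ha hb hab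
    rw [lt_imgL_iff hr hL ha hb] at hab
    rw [lt_imgL_iff hr hL' (by omega) (by omega), hposL ha, hposL hb, sh_lt_iff]
    exact hab
  · -- (9)
    rintro a b ⟨t, ht, rfl, rfl, hf⟩
    have htk : t ≠ k := by
      rintro rfl
      rw [hfk] at hf
      exact absurd hf Bool.false_ne_true
    refine ⟨sh k (dd z w) t, ?_, hlab t (by omega), ?_, ?_⟩
    · rw [← sh_succ htk, hlen]
      exact sh_lt ht
    · rw [← sh_succ htk]
      exact hlab _ ht
    · rw [hfl t (by omega)]
      exact Or.inl hf

end Pool.Agent.DMO
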