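import Pool.Agent.DMO.Targets

set_option autoImplicit false

namespace Pool.Agent.DMO

theorem p_IEXT : T_IEXT := by
  intro r L L' hr hL hL' hext
  obtain ⟨p, u, hp, hnew, hleast, hlt1, hlt2, hlen, hent, hentn⟩ := hext
  have hlab : ∀ t < L.length, lab L' (sh p 1 t) = lab L t := by
    intro t ht; unfold lab; rw [hent t ht]
  have him : ∀ t < L.length, im L' (sh p 1 t) = im L t := by
    intro t ht; unfold im; rw [hent t ht]
  have hfl : ∀ t < L.length, fl L' (sh p 1 t) = fl L t := by
    intro t ht; unfold fl; rw [hent t ht]
  have hshl : ∀ t < L.length, sh p 1 t < L'.length := by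
    intro t ht; rw [hlen]; exact sh_lt ht
  have himg : ∀ a < L.length, imgL L' a = imgL L a := by
    intro a ha
    obtain ⟨i, hi, hia⟩ := hL.exists_lab ha
    have h1 := imgL_lab hL' (hshl i hi)
    rw [hlab i hi, him i hi, hia] at h1
    have h2 := imgL_lab hL hi
    rw [hia] at h2
    rw [h1, h2]
  have himn : imgL L' L.length = u := by
    have h1 : p + 1 < L'.length := by omega
    have h2 := imgL_lab hL' h1
    have h3 : lab L' (p + 1) = L.length := by unfold lab; rw [hentn]
    have h4 : im L' (p + 1) = u := by unfold im; rw [hentn]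
    rwa [h3, h4] at h2
  have hflp : fl L p ≠ true := by
    intro h
    have hp' : p < L.length := by omega
    obtain ⟨_, hadj⟩ := hL.fl_adj p hp' h
    exact hadj.2 u hlt1 hlt2
  have hsucc : ∀ t, t ≠ p → sh p 1 (t + 1) = sh p 1 t + 1 := by
    intro t ht
    unfold sh
    split_ifs <;> omega
  refine ⟨hlen, himg, ?_, ?_, ?_, ?_⟩
  · intro a b
    constructor
    · rintro ⟨i, hi, ha, hb, hf⟩
      have hi' : i < L.length + 1 := by omega
      rcases sh_cases p 1 L.length i (by omega) hi' with ⟨t, ht, rfl⟩ | ⟨t, ht, rfl⟩
      · rw [hfl t ht] at hf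
        have htp : t ≠ p := by
          rintro rfl
          exact hflp hf
        rw [← hsucc t htp] at hi hb
        have ht1 : t + 1 < L.length := by
          rw [hlen] at hi
          unfold sh at hi
          split_ifs at hi <;> omega
        rw [hlab t ht] at ha
        rw [hlab (t + 1) ht1] at hb
        exact ⟨t, ht1, ha, hb, hf⟩
      · have h0 : t = 0 := by omega
        subst h0
        have : fl L' (p + 1 + 0) = false := by
          rw [add_zero]
          unfold fl
          rw [hentn]
        rw [this] at hf
        exact absurd hf Bool.false_ne_true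
    · rintro ⟨t, ht1, ha, hb, hf⟩
      have htp : t ≠ p := by
        rintro rfl
        exact hflp hf
      have ht : t < L.length := by omega
      refine ⟨sh p 1 t, ?_, ?_, ?_, ?_⟩
      · rw [← hsucc t htp]
        exact hshl _ ht1
      · rw [hlab t ht, ha]
      · rw [← hsucc t htp, hlab _ ht1, hb]
      · rw [hfl t ht, hf]
  · intro a ha
    rw [himn]
    exact hnew _ (pos_spec hL ha).1
  · intro v hv
    rw [himn] at hv
    obtain ⟨i, hi, hiv⟩ := hleast v hv
    exact ⟨lab L i, hL.lab_lt i hi, by rw [imgL_lab hL hi, hiv]⟩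
  · intro a b ha hb hab
    rw [himg a ha, himg b hb]
    exact hab

end Pool.Agent.DMO
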