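import Pool.Agent.DMO.Targets

set_option autoImplicit false

namespace Pool.Agent.DMO

theorem HINO.chain (L : List Ent) (a : ℕ) : ∀ d, a + d < L.length →
    (∀ k, a ≤ k → k < a + d → fl L k = true) →
    Relation.ReflTransGen (frzL L) (lab L a) (lab L (a + d)) := by
  intro d
  induction d with
  | zero => intro _ _; exact Relation.ReflTransGen.refl
  | succ d ih =>
    intro h1 h2
    refine (ih (by omega) (fun k hk hk' => h2 k hk (by omega))).tail ?_
    exact ⟨a + d, by omega, rfl, rfl, h2 _ (by omega) (by omega)⟩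

theorem p_INO : T_INO := by
  intro r L K e hr hL hV p q y z w hp hq hy hz hw hpy hyq hpz hzq hpw hwq hmon hlab hfp hfq
    hev1 hev2 hn1 hn2
  rw [lt_imgL_iff hr hL hp hy] at hpy
  rw [lt_imgL_iff hr hL hy hq] at hyq
  rw [lt_imgL_iff hr hL hp hz] at hpz
  rw [lt_imgL_iff hr hL hz hq] at hzq
  rw [lt_imgL_iff hr hL hp hw] at hpw
  rw [lt_imgL_iff hr hL hw hq] at hwq
  rw [lt_imgL_iff hr hL hy hz, lt_imgL_iff hr hL hz hw, lt_imgL_iff hr hL hw hz,
    lt_imgL_iff hr hL hz hy] at hmon
  obtain ⟨hp1, hp2⟩ := pos_spec hL hp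
  obtain ⟨hq1, hq2⟩ := pos_spec hL hq
  obtain ⟨hy1, hy2⟩ := pos_spec hL hy
  obtain ⟨hz1, hz2⟩ := pos_spec hL hz
  obtain ⟨hw1, hw2⟩ := pos_spec hL hw
  have hf1 : fl L (pos L p) = false := by
    by_contra h
    have h' : fl L (pos L p) = true := by simpa using h
    refine hfp (lab L (pos L p + 1)) ⟨pos L p, by omega, hp2, rfl, h'⟩ ?_
    rw [lt_imgL_iff hr hL (hL.lab_lt _ (by omega)) hq, pos_lab hL (by omega)]
    omega
  have hf2 : fl L (pos L q - 1) = false := by
    by_contra h
    have h' : fl L (pos L q - 1) = true := by simpa using h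
    refine hfq (lab L (pos L q - 1)) ⟨pos L q - 1, by omega, rfl, ?_, h'⟩ ?_
    · rw [show pos L q - 1 + 1 = pos L q by omega]
      exact hq2
    · rw [lt_imgL_iff hr hL hp (hL.lab_lt _ (by omega)), pos_lab hL (by omega)]
      omega
  obtain ⟨k, hk1, hk2, hk3⟩ : ∃ k, min (pos L y) (pos L z) ≤ k ∧
      k < max (pos L y) (pos L z) ∧ fl L k = false := by
    by_contra hcon
    push Not at hcon
    have hcon' : ∀ k, min (pos L y) (pos L z) ≤ k → k < max (pos L y) (pos L z) →
        fl L k = true := fun k h1 h2 => by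
      have := hcon k h1 h2
      simpa using this
    rcases hmon with ⟨h1, -⟩ | ⟨-, h1⟩
    · apply hn1
      have h2 := HINO.chain L (pos L y) (pos L z - pos L y) (by omega)
        (fun k h3 h4 => hcon' k (by omega) (by omega))
      rwa [show pos L y + (pos L z - pos L y) = pos L z by omega, hy2, hz2] at h2
    · apply hn2
      have h2 := HINO.chain L (pos L z) (pos L y - pos L z) (by omega)
        (fun k h3 h4 => hcon' k (by omega) (by omega))
      rwa [show pos L z + (pos L y - pos L z) = pos L y by omega, hy2, hz2] at h2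
  have h := hV (pos L p + 1) (pos L q - 1) (pos L y) (pos L z) (pos L w) k
    ⟨⟨by omega, by omega, by omega, by simpa using hf1, hf2⟩, ?_,
      ⟨by omega, by omega, by omega, by omega, by omega, by omega⟩, ?_, ?_, hk1, hk2, hk3⟩
  · rw [show pos L p + 1 - 1 = pos L p by omega,
      show pos L q - 1 + 1 = pos L q by omega] at h
    exact h
  · intro t h1 h2
    have h3 := hlab (lab L t) (hL.lab_lt _ (by omega))
      (by rw [lt_imgL_iff hr hL hp (hL.lab_lt _ (by omega)), pos_lab hL (by omega)]; omega)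
      (by rw [lt_imgL_iff hr hL (hL.lab_lt _ (by omega)) hq, pos_lab hL (by omega)]; omega)
    rwa [imgL_lab hL (by omega)] at h3
  · exact hmon
  · rw [hy2, hz2, hw2]
    exact ⟨hev1, hev2⟩

end Pool.Agent.DMO
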