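import Pool.Agent.DMO.Targets

set_option autoImplicit false

/-!
# Invariance of condition (b) under isomorphism (for MP_55b29c_lc)
-/

namespace Pool.Agent.DMO

/-- `HasSEta` is invariant under isomorphism. -/
theorem p_ISO : T_ISO := by
  rintro r s e he ⟨C, hC, f, hf1, hfb, d, hd⟩
  have he' : ∀ a b, s a b = r (e.symm a) (e.symm b) := by
    intro a b
    rw [he]
    simp
  refine ⟨{x | e.symm x ∈ C}, ?_, f, hf1, hfb, ?_⟩
  · intro a b c ha hc hab hbc
    rw [he'] at hab hbc
    exact hC _ _ _ ha hc hab hbc
  · let E : {x | e.symm x ∈ C} ≃ C :=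
      { toFun := fun x => ⟨e.symm x.1, x.2⟩
        invFun := fun x => ⟨e x.1, by simp⟩
        left_inv := fun x => by simp
        right_inv := fun x => by simp }
    refine ⟨E.trans d, fun a b => ?_⟩
    rw [he']
    exact hd (E a) (E b)

end Pool.Agent.DMO
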