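import Pool.Agent.DMO.Targets

set_option autoImplicit false

/-! # DMO, target LCA -/

namespace Pool.Agent.DMO

namespace HLCA

open Set

variable {β : Type} [LinearOrder β]

/-- the interval between the two elements is finite -/
def Close (x y : β) : Prop := (Icc x y).Finite ∧ (Icc y x).Finite

theorem Close.refl (x : β) : Close x x := by
  unfold Close
  simp

theorem Close.symm {x y : β} (h : Close x y) : Close y x := ⟨h.2, h.1⟩

theorem fin_trans {x y z : β} (h1 : (Icc x y).Finite) (h2 : (Icc y z).Finite) :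
    (Icc x z).Finite := by
  refine (h1.union h2).subset ?_
  intro t ht
  rcases le_total t y with h | h
  · exact Or.inl ⟨ht.1, h⟩
  · exact Or.inr ⟨h, ht.2⟩

theorem Close.trans {x y z : β} (h1 : Close x y) (h2 : Close y z) : Close x z :=
  ⟨fin_trans h1.1 h2.1, fin_trans h2.2 h1.2⟩

theorem close_of_lt {x y : β} (h : x < y) (hf : (Icc x y).Finite) : Close x y := by
  refine ⟨hf, ?_⟩
  rw [Icc_eq_empty (_root_.not_le.2 h)]
  exact finite_empty

/-- the class -/
def cls (x : β) : Set β := {y | Close x y}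

theorem card_le {N : ℕ} (h1 : ∀ x y : β, (Icc x y).Finite → (Icc x y).ncard ≤ N) (x : β)
    (S : Finset β) (hS : (S : Set β) ⊆ cls x) : S.card ≤ N := by
  by_cases hne : S.Nonempty
  · have hmin := S.min'_mem hne
    have hmax := S.max'_mem hne
    have hcl : Close (S.min' hne) (S.max' hne) :=
      (Close.symm (hS (Finset.mem_coe.2 hmin))).trans (hS (Finset.mem_coe.2 hmax))
    have hsub : (S : Set β) ⊆ Icc (S.min' hne) (S.max' hne) := by
      intro t ht
      exact ⟨S.min'_le t (Finset.mem_coe.1 ht), S.le_max' t (Finset.mem_coe.1 ht)⟩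
    have h2 := Set.ncard_le_ncard hsub hcl.1
    rw [Set.ncard_coe_finset] at h2
    exact h2.trans (h1 _ _ hcl.1)
  · rw [Finset.not_nonempty_iff_eq_empty] at hne
    rw [hne]
    simp

theorem cls_finite {N : ℕ} (h1 : ∀ x y : β, (Icc x y).Finite → (Icc x y).ncard ≤ N) (x : β) :
    (cls x).Finite := by
  by_contra hinf
  obtain ⟨S, hS, hc⟩ := Set.Infinite.exists_subset_card_eq hinf (N + 1)
  have := card_le h1 x S hS
  omega

end HLCA

open HLCA Set in
theorem p_LCA : T_LCA := by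
  intro β _ _ _ N h1 h2 h3 h4
  classical
  have hfin := cls_finite h1
  have hm : ∀ x : β, ∃ m, m ∈ cls x ∧ ∀ y ∈ cls x, m ≤ y := by
    intro x
    have hne : (hfin x).toFinset.Nonempty := ⟨x, by
      rw [Set.Finite.mem_toFinset]
      exact Close.refl x⟩
    refine ⟨(hfin x).toFinset.min' hne, ?_, ?_⟩
    · exact (Set.Finite.mem_toFinset _).1 (Finset.min'_mem _ hne)
    · intro y hy
      exact Finset.min'_le _ _ ((Set.Finite.mem_toFinset _).2 hy)
  choose m hm1 hm2 using hm
  have mcl : ∀ {x}, Close x (m x) := fun {x} => hm1 x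
  have mle : ∀ x, m x ≤ x := fun x => hm2 x x (Close.refl x)
  have mcon : ∀ {x y}, Close x y → m x = m y := by
    intro x y h
    apply le_antisymm
    · exact hm2 x _ (h.trans mcl)
    · exact hm2 y _ (h.symm.trans mcl)
  have mclose : ∀ {x y}, m x = m y → Close x y := by
    intro x y h
    have h1 : Close x (m x) := mcl
    have h2 : Close y (m y) := mcl
    rw [h] at h1
    exact h1.trans h2.symm
  have mm : ∀ x, m (m x) = m x := fun x => (mcon mcl).symm
  have mlt : ∀ {x y}, x < y → ¬ (Icc x y).Finite → x < m y := by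
    intro x y hxy hnf
    by_contra hle
    replace hle := le_of_not_gt hle
    exact hnf ((mcl (x := y)).2.subset (Icc_subset_Icc_left hle))
  have mlt' : ∀ {x y}, x < y → m x ≠ m y → m x < m y := by
    intro x y hxy hne
    refine lt_of_le_of_lt (mle x) (mlt hxy (fun hf => hne (mcon (close_of_lt hxy hf))))
  let D := {x : β // m x = x}
  have notfin : ∀ d d' : D, d < d' → ¬ (Icc d.1 d'.1).Finite := by
    intro d d' hlt hf
    have := mcon (close_of_lt (show d.1 < d'.1 from hlt) hf)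
    rw [d.2, d'.2] at this
    exact absurd (Subtype.ext this) (ne_of_lt hlt)
  haveI : Nonempty D := by
    obtain ⟨x⟩ := (inferInstance : Nonempty β)
    exact ⟨⟨m x, mm x⟩⟩
  haveI : Countable D := inferInstance
  haveI : DenselyOrdered D := by
    refine ⟨fun d d' hlt => ?_⟩
    obtain ⟨z, hz1, hz2, hz3, hz4⟩ := h2 d.1 d'.1 hlt (notfin d d' hlt)
    refine ⟨⟨m z, mm z⟩, ?_, ?_⟩
    · exact (mlt hz1 hz3 : d.1 < m z)
    · exact (lt_of_le_of_lt (mle z) hz2 : m z < d'.1)
  haveI : NoMaxOrder D := by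
    refine ⟨fun d => ?_⟩
    obtain ⟨y, hy1, hy2⟩ := h3 d.1
    exact ⟨⟨m y, mm y⟩, (mlt hy1 hy2 : d.1 < m y)⟩
  haveI : NoMinOrder D := by
    refine ⟨fun d => ?_⟩
    obtain ⟨y, hy1, hy2⟩ := h4 d.1
    exact ⟨⟨m y, mm y⟩, (lt_of_le_of_lt (mle y) hy1 : m y < d.1)⟩
  obtain ⟨φ⟩ := Order.iso_of_countable_dense D ℚ
  let B : ℚ → Finset β := fun q => (hfin (φ.symm q).1).toFinset
  have mB : ∀ {q y}, y ∈ B q ↔ Close (φ.symm q).1 y := by
    intro q y
    exact Set.Finite.mem_toFinset _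
  let I : ∀ q, Fin (B q).card ≃o B q := fun q => (B q).orderIsoOfFin rfl
  let Q : β → ℚ := fun x => φ ⟨m x, mm x⟩
  have mQ : ∀ x, x ∈ B (Q x) := by
    intro x
    rw [mB]
    simp only [Q, OrderIso.symm_apply_apply]
    exact (mcl (x := x)).symm
  have QB : ∀ {q y}, y ∈ B q → Q y = q := by
    intro q y hy
    rw [mB] at hy
    have e1 : (⟨m y, mm y⟩ : D) = φ.symm q := by
      apply Subtype.ext
      show m y = (φ.symm q).1
      rw [← mcon hy]
      exact (φ.symm q).2
    simp only [Q, e1, OrderIso.apply_symm_apply]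
  let F : β → Lex (Σ q : ℚ, Fin (B q).card) :=
    fun x => toLex ⟨Q x, (I (Q x)).symm ⟨x, mQ x⟩⟩
  have key : ∀ (q q' : ℚ) (h : q' = q) (i : Fin (B q).card) (y : β) (hy : y ∈ B q'),
      y = (I q i).1 → (⟨q', (I q').symm ⟨y, hy⟩⟩ : Σ q : ℚ, Fin (B q).card) = ⟨q, i⟩ := by
    intro q q' h i y hy hyi
    subst h
    subst hyi
    congr 1
    exact (I q').symm_apply_apply i
  have hinj : Function.Injective F := by
    intro x y hxy
    have e1 : (⟨Q x, (I (Q x)).symm ⟨x, mQ x⟩⟩ : Σ q : ℚ, Fin (B q).card) =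
        ⟨Q y, (I (Q y)).symm ⟨y, mQ y⟩⟩ := hxy
    have e2 : ∀ s t : (Σ q : ℚ, Fin (B q).card), s = t → (I s.1 s.2).1 = (I t.1 t.2).1 := by
      intro s t h
      rw [h]
    have e3 := e2 _ _ e1
    simp only [OrderIso.apply_symm_apply] at e3
    exact e3
  have hsur : Function.Surjective F := by
    intro s
    have hmem : (I (ofLex s).1 (ofLex s).2).1 ∈ B (ofLex s).1 := (I (ofLex s).1 (ofLex s).2).2
    refine ⟨(I (ofLex s).1 (ofLex s).2).1, ?_⟩
    exact congrArg toLex (key (ofLex s).1 _ (QB hmem) (ofLex s).2 _ (mQ _) rfl)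
  have hcmp : ∀ (q q' : ℚ) (h : q = q') (x y : β) (hx : x ∈ B q) (hy : y ∈ B q'), x < y →
      (h ▸ (I q).symm ⟨x, hx⟩ : Fin (B q').card) < (I q').symm ⟨y, hy⟩ := by
    intro q q' h x y hx hy hxy
    subst h
    exact (I q).symm.strictMono hxy
  have hmono : StrictMono F := by
    intro x y hxy
    rw [Sigma.Lex.lt_def]
    by_cases hQ : Q x = Q y
    · exact Or.inr ⟨hQ, hcmp _ _ hQ x y (mQ x) (mQ y) hxy⟩
    · refine Or.inl ?_
      show φ ⟨m x, mm x⟩ < φ ⟨m y, mm y⟩
      apply φ.strictMono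
      refine (mlt' hxy (fun he => hQ ?_) : m x < m y)
      show φ ⟨m x, mm x⟩ = φ ⟨m y, mm y⟩
      congr 1
      exact Subtype.ext he
  refine ⟨fun q => (B q).card, ?_, ?_, Equiv.ofBijective F ⟨hinj, hsur⟩, ?_⟩
  · intro q
    exact Finset.card_pos.2 ⟨(φ.symm q).1, mB.2 (Close.refl _)⟩
  · intro q
    apply card_le h1 (φ.symm q).1
    intro y hy
    exact mB.1 (Finset.mem_coe.1 hy)
  · intro a b
    exact hmono.le_iff_le.symm

end Pool.Agent.DMO
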