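import Pool.Agent.DMO.Targets

set_option autoImplicit false

/-!
# T_LCB: a strongly eta-like convex subset of an order with bounded finite intervals
-/

namespace Pool.Agent.DMO

namespace HLCB

variable {α : Type} [LinearOrder α]

theorem upper_finite (N : ℕ)
    (hN : ∀ x y : α, (Set.Icc x y).Finite → (Set.Icc x y).ncard ≤ N) (u : α) :
    {t : α | u ≤ t ∧ (Set.Icc u t).Finite}.Finite := by
  by_contra hinf
  obtain ⟨T, hT, hc⟩ := Set.Infinite.exists_subset_card_eq hinf (N + 1)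
  have hne : T.Nonempty := Finset.card_pos.1 (by omega)
  have hm := hT (Finset.mem_coe.2 (T.max'_mem hne))
  have h1 := hN u (T.max' hne) hm.2
  have h2 : (T : Set α) ⊆ Set.Icc u (T.max' hne) := fun t ht =>
    ⟨(hT ht).1, T.le_max' t (Finset.mem_coe.1 ht)⟩
  have h3 := Set.ncard_le_ncard h2 hm.2
  rw [Set.ncard_coe_finset] at h3
  omega

theorem lower_finite (N : ℕ)
    (hN : ∀ x y : α, (Set.Icc x y).Finite → (Set.Icc x y).ncard ≤ N) (v : α) :
    {t : α | t ≤ v ∧ (Set.Icc t v).Finite}.Finite := by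
  by_contra hinf
  obtain ⟨T, hT, hc⟩ := Set.Infinite.exists_subset_card_eq hinf (N + 1)
  have hne : T.Nonempty := Finset.card_pos.1 (by omega)
  have hm := hT (Finset.mem_coe.2 (T.min'_mem hne))
  have h1 := hN (T.min' hne) v hm.2
  have h2 : (T : Set α) ⊆ Set.Icc (T.min' hne) v := fun t ht =>
    ⟨T.min'_le t (Finset.mem_coe.1 ht), (hT ht).1⟩
  have h3 := Set.ncard_le_ncard h2 hm.2
  rw [Set.ncard_coe_finset] at h3
  omega

/-- Any two elements at infinite distance have one between them at infinite distance from both. -/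
theorem between (N : ℕ)
    (hN : ∀ x y : α, (Set.Icc x y).Finite → (Set.Icc x y).ncard ≤ N) {u v : α}
    (hinf : ¬ (Set.Icc u v).Finite) :
    ∃ z, u < z ∧ z < v ∧ ¬ (Set.Icc u z).Finite ∧ ¬ (Set.Icc z v).Finite := by
  obtain ⟨p, hp, hpm⟩ := Set.exists_max_image {t : α | u ≤ t ∧ (Set.Icc u t).Finite} id
    (upper_finite N hN u) ⟨u, le_refl u, by simp⟩
  obtain ⟨q, hq, hqm⟩ := Set.exists_min_image {t : α | t ≤ v ∧ (Set.Icc t v).Finite} id
    (lower_finite N hN v) ⟨v, le_refl v, by simp⟩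
  simp only [id, Set.mem_ofPred_eq] at hp hpm hq hqm
  have hz : ∃ z, p < z ∧ z < q := by
    by_contra hno
    push Not at hno
    apply hinf
    refine (hp.2.union hq.2).subset fun t ht => ?_
    rcases le_or_gt t p with h | h
    · exact Or.inl ⟨ht.1, h⟩
    · exact Or.inr ⟨hno t h, ht.2⟩
  obtain ⟨z, h1, h2⟩ := hz
  have huz : u < z := lt_of_le_of_lt hp.1 h1
  have hzv : z < v := lt_of_lt_of_le h2 hq.1
  refine ⟨z, huz, hzv, fun h => ?_, fun h => ?_⟩
  · exact absurd (hpm z ⟨huz.le, h⟩) (not_le.2 h1)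
  · exact absurd (hqm z ⟨hzv.le, h⟩) (not_le.2 h2)

/-- The elements at infinite distance from `x` and `y`. -/
def mid (x y : α) : Set α :=
  {t | x < t ∧ t < y ∧ ¬ (Set.Icc x t).Finite ∧ ¬ (Set.Icc t y).Finite}

theorem mid_conn (x y : α) : (mid x y).OrdConnected := by
  refine ⟨fun a ha b hb c hc => ?_⟩
  refine ⟨lt_of_lt_of_le ha.1 hc.1, lt_of_le_of_lt hc.2 hb.2.1, fun h => ha.2.2.1 ?_,
    fun h => hb.2.2.2 ?_⟩
  · exact h.subset (Set.Icc_subset_Icc le_rfl hc.1)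
  · exact h.subset (Set.Icc_subset_Icc hc.2 le_rfl)

theorem image_Icc (x y : α) (a b : mid x y) :
    Subtype.val '' (Set.Icc a b) = Set.Icc (a : α) (b : α) := by
  ext t
  constructor
  · rintro ⟨s, hs, rfl⟩
    exact ⟨hs.1, hs.2⟩
  · intro ht
    exact ⟨⟨t, (mid_conn x y).out a.2 b.2 ht⟩, ⟨ht.1, ht.2⟩, rfl⟩

theorem fin_iff (x y : α) (a b : mid x y) :
    (Set.Icc a b).Finite ↔ (Set.Icc (a : α) (b : α)).Finite := by
  rw [← image_Icc x y a b, Set.finite_image_iff Subtype.val_injective.injOn]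

theorem card_eq (x y : α) (a b : mid x y) :
    (Set.Icc a b).ncard = (Set.Icc (a : α) (b : α)).ncard := by
  rw [← image_Icc x y a b, Set.ncard_image_of_injective _ Subtype.val_injective]

end HLCB

open HLCB in
theorem p_LCB : T_LCA → T_LCB := by
  intro hA α _ _ N hN hxy
  obtain ⟨x, y, hle, hinf⟩ := hxy
  obtain ⟨z₀, hz₀⟩ := between N hN hinf
  have hne : Nonempty (mid x y) := ⟨⟨z₀, hz₀⟩⟩
  refine ⟨mid x y, mid_conn x y, ?_⟩
  refine hA (mid x y) N ?_ ?_ ?_ ?_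
  · intro a b h
    rw [card_eq]
    exact hN _ _ ((fin_iff x y a b).1 h)
  · intro a b hab h
    rw [fin_iff] at h
    obtain ⟨z, h1, h2, h3, h4⟩ := between N hN h
    refine ⟨⟨z, (mid_conn x y).out a.2 b.2 ⟨h1.le, h2.le⟩⟩, h1, h2, ?_, ?_⟩
    · rw [fin_iff]; exact h3
    · rw [fin_iff]; exact h4
  · intro a
    obtain ⟨z, h1, h2, h3, h4⟩ := between N hN a.2.2.2.2
    refine ⟨⟨z, lt_trans a.2.1 h1, h2, fun h => a.2.2.2.1 ?_, h4⟩, h1, ?_⟩
    · exact h.subset (Set.Icc_subset_Icc le_rfl h1.le)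
    · rw [fin_iff]; exact h3
  · intro a
    obtain ⟨z, h1, h2, h3, h4⟩ := between N hN a.2.2.2.1
    refine ⟨⟨z, h1, lt_trans h2 a.2.2.1, h3, fun h => a.2.2.2.2 ?_⟩, h2, ?_⟩
    · exact h.subset (Set.Icc_subset_Icc h2.le le_rfl)
    · rw [fin_iff]; exact h4

end Pool.Agent.DMO
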