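import Pool.Agent.DMO.Targets

set_option autoImplicit false

/-!
# Job DMO-LCC
-/

namespace Pool.Agent.DMO

namespace HLCC

/-- A finite open interval gives a finite path of immediate successors. -/
theorem path_of_finite {r : ℕ → ℕ → Bool} (hr : LO r) :
    ∀ (n : ℕ) (P Q : Car hr), P < Q → (Set.Ioo P Q).Finite → (Set.Ioo P Q).ncard = n →
      Path r P.val Q.val := by
  intro n
  induction n using Nat.strong_induction_on with
  | _ n ih =>
    intro P Q hPQ hfin hn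
    rcases Set.eq_empty_or_nonempty (Set.Ioo P Q) with h0 | ⟨z, hz⟩
    · refine Relation.ReflTransGen.single ⟨hPQ, fun c h1 h2 => ?_⟩
      have : Car.mk hr c ∈ Set.Ioo P Q := ⟨h1, h2⟩
      rw [h0] at this
      exact this
    · have s1 : Set.Ioo P z ⊂ Set.Ioo P Q := by
        refine ⟨fun t ht => ⟨ht.1, ht.2.trans hz.2⟩, fun h => ?_⟩
        exact (lt_irrefl z) (h hz).2
      have s2 : Set.Ioo z Q ⊂ Set.Ioo P Q := by
        refine ⟨fun t ht => ⟨hz.1.trans ht.1, ht.2⟩, fun h => ?_⟩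
        exact (lt_irrefl z) (h hz).1
      have c1 := Set.ncard_lt_ncard s1 hfin
      have c2 := Set.ncard_lt_ncard s2 hfin
      rw [hn] at c1 c2
      exact (ih _ c1 P z hz.1 (hfin.subset s1.1) rfl).trans
        (ih _ c2 z Q hz.2 (hfin.subset s2.1) rfl)

/-- The elements strictly between `P` and `Q`. -/
abbrev Bet {r : ℕ → ℕ → Bool} (hr : LO r) (P Q : Car hr) : Type :=
  {x : Car hr // P < x ∧ x < Q}

/-- Many elements in a finite interval give a long chain. -/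
theorem chain_of_interval {r : ℕ → ℕ → Bool} (hr : LO r) (P Q : Car hr) (N : ℕ)
    (x y : Bet hr P Q) (hfin : (Set.Icc x y).Finite) (hN : N ≤ (Set.Icc x y).ncard) :
    ∃ c : ℕ → ℕ, (∀ t < N, Lt r P.val (c t) ∧ Lt r (c t) Q.val) ∧
      ∀ t, t + 1 < N → Adj r (c t) (c (t + 1)) := by
  classical
  obtain ⟨n, hn⟩ : ∃ n, hfin.toFinset.card = n := ⟨_, rfl⟩
  have hn' : (Set.Icc x y).ncard = n := by
    rw [Set.ncard_eq_toFinset_card _ hfin, hn]
  rw [hn'] at hN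
  obtain ⟨E, hE⟩ : ∃ E : Fin n ↪o Bet hr P Q, E = hfin.toFinset.orderEmbOfFin hn := ⟨_, rfl⟩
  have hr1 : ∀ z : Bet hr P Q, z ∈ Set.Icc x y ↔ ∃ j, E j = z := by
    intro z
    have h := Finset.range_orderEmbOfFin hfin.toFinset hn
    rw [← hE] at h
    have h2 : z ∈ Set.range E ↔ z ∈ Set.Icc x y := by
      rw [h]
      simp
    rw [← h2]
    exact Iff.rfl
  refine ⟨fun t => if h : t < n then (E ⟨t, h⟩).1.val else 0, ?_, ?_⟩
  · intro t ht
    have h : t < n := lt_of_lt_of_le ht hN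
    simp only [dif_pos h]
    exact ⟨(E ⟨t, h⟩).2.1, (E ⟨t, h⟩).2.2⟩
  · intro t ht
    have h : t < n := by omega
    have h' : t + 1 < n := by omega
    simp only [dif_pos h, dif_pos h']
    refine ⟨?_, ?_⟩
    · have : E ⟨t, h⟩ < E ⟨t + 1, h'⟩ := by
        rw [E.lt_iff_lt]
        exact Fin.mk_lt_mk.2 (Nat.lt_succ_self t)
      exact this
    · intro z h1 h2
      have z1 : (E ⟨t, h⟩).1 < Car.mk hr z := h1
      have z2 : Car.mk hr z < (E ⟨t + 1, h'⟩).1 := h2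
      have hb : P < Car.mk hr z ∧ Car.mk hr z < Q :=
        ⟨(E ⟨t, h⟩).2.1.trans z1, z2.trans (E ⟨t + 1, h'⟩).2.2⟩
      have m1 : E ⟨t, h⟩ ∈ Set.Icc x y := (hr1 _).2 ⟨_, rfl⟩
      have m2 : E ⟨t + 1, h'⟩ ∈ Set.Icc x y := (hr1 _).2 ⟨_, rfl⟩
      have w1 : E ⟨t, h⟩ < (⟨Car.mk hr z, hb⟩ : Bet hr P Q) := z1
      have w2 : (⟨Car.mk hr z, hb⟩ : Bet hr P Q) < E ⟨t + 1, h'⟩ := z2
      obtain ⟨j, hj⟩ := (hr1 ⟨Car.mk hr z, hb⟩).1 ⟨m1.1.trans w1.le, w2.le.trans m2.2⟩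
      rw [← hj, E.lt_iff_lt] at w1 w2
      have k1 : t < j.val := w1
      have k2 : j.val < t + 1 := w2
      omega

/-- The transport of the subset. -/
theorem hasSEta_of {r : ℕ → ℕ → Bool} (hr : LO r) (P Q : Car hr) (N : ℕ)
    (C : Set (Bet hr P Q)) (hC : C.OrdConnected) (f : ℚ → ℕ) (h1 : ∀ q, 1 ≤ f q)
    (h2 : ∀ q, f q ≤ N) (e : C ≃ Lex (Σ q : ℚ, Fin (f q)))
    (he : ∀ a b, a ≤ b ↔ e a ≤ e b) : HasSEta r := by
  let C' : Set ℕ := {n | ∃ h : P < Car.mk hr n ∧ Car.mk hr n < Q,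
    (⟨Car.mk hr n, h⟩ : Bet hr P Q) ∈ C}
  let g : C' ≃ C :=
    { toFun := fun x => ⟨⟨Car.mk hr x.1, x.2.choose⟩, x.2.choose_spec⟩
      invFun := fun y => ⟨y.1.1.val, y.1.2, y.2⟩
      left_inv := fun x => rfl
      right_inv := fun y => rfl }
  refine ⟨C', ?_, f, h1, ⟨N, ?_⟩, g.trans e, ?_⟩
  · rintro a b c ⟨ha, ha'⟩ ⟨hc, hc'⟩ hab hbc
    have hb : P < Car.mk hr b ∧ Car.mk hr b < Q :=
      ⟨lt_of_lt_of_le ha.1 hab, lt_of_le_of_lt hbc hc.2⟩
    exact ⟨hb, hC.out ha' hc' ⟨hab, hbc⟩⟩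
  · rintro _ ⟨q, rfl⟩
    exact h2 q
  · intro a b
    have := he (g a) (g b)
    rw [Equiv.trans_apply, Equiv.trans_apply, ← this]
    exact Iff.rfl

end HLCC

theorem p_LCC : T_LCB → T_LCC := by
  intro hLCB r hr hE P Q hPQ hpath N
  by_contra hno
  have hPQ' : Car.mk hr P < Car.mk hr Q := hPQ
  have key : ∀ x y : HLCC.Bet hr (Car.mk hr P) (Car.mk hr Q), (Set.Icc x y).Finite →
      (Set.Icc x y).ncard ≤ N := by
    intro x y hfin
    by_contra hlt
    exact hno (HLCC.chain_of_interval hr (Car.mk hr P) (Car.mk hr Q) N x y hfin (by omega))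
  have hinf : Infinite (HLCC.Bet hr (Car.mk hr P) (Car.mk hr Q)) := by
    by_contra hf
    rw [not_infinite_iff_finite] at hf
    have hf' : (Set.Ioo (Car.mk hr P) (Car.mk hr Q)).Finite :=
      Set.finite_coe_iff.1 (show Finite (Set.Ioo (Car.mk hr P) (Car.mk hr Q)) from hf)
    exact hpath (HLCC.path_of_finite hr _ _ _ hPQ' hf' rfl)
  have hex : ∃ x y : HLCC.Bet hr (Car.mk hr P) (Car.mk hr Q), x ≤ y ∧
      ¬ (Set.Icc x y).Finite := by
    by_contra hne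
    push Not at hne
    obtain ⟨F, hF⟩ := Infinite.exists_subset_card_eq
      (HLCC.Bet hr (Car.mk hr P) (Car.mk hr Q)) (N + 1)
    have hFn : F.Nonempty := by
      rw [← Finset.card_pos, hF]
      exact Nat.succ_pos N
    have hsub : (F : Set _) ⊆ Set.Icc (F.min' hFn) (F.max' hFn) := fun z hz =>
      ⟨F.min'_le z hz, F.le_max' z hz⟩
    have hle : F.min' hFn ≤ F.max' hFn := F.min'_le_max' hFn
    have hfin := hne _ _ hle
    have h1 := Set.ncard_le_ncard hsub hfin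
    rw [Set.ncard_coe_finset, hF] at h1
    have h2 := key _ _ hfin
    omega
  obtain ⟨C, hC, f, h1, h2, e, he⟩ := hLCB _ N key hex
  exact hE (HLCC.hasSEta_of hr _ _ N C hC f h1 h2 e he)

end Pool.Agent.DMO
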