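import Pool.Agent.DMO.Targets

set_option autoImplicit false

/-!
# The images converge (target LIM)
-/

namespace Pool.Agent.DMO

namespace HLIM

variable {r : ℕ → ℕ → Bool} {N : ℕ → ℕ} {img : ℕ → ℕ → ℕ} {frz : ℕ → ℕ → ℕ → Prop}
  {acts : ℕ → ℕ → Prop}

lemma late (R : Run r N img frz acts) (a : ℕ) : ∃ k₀, ∀ k ≥ k₀, ∀ e, acts k e → a ≤ e := by
  induction a with
  | zero => exact ⟨0, fun _ _ _ _ => Nat.zero_le _⟩
  | succ a ih =>
    obtain ⟨k₀, hk₀⟩ := ih
    by_cases h : ∃ k, acts k a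
    · obtain ⟨k₁, hk₁⟩ := h
      refine ⟨max k₀ (k₁ + 1), fun k hk e he => ?_⟩
      have h1 := hk₀ k ((le_max_left _ _).trans hk) e he
      have h2 : e ≠ a := by
        intro h3
        rw [h3] at he
        have h4 := R.act_once k k₁ a he hk₁
        have h5 : k₁ + 1 ≤ k := (le_max_right _ _).trans hk
        omega
      omega
    · refine ⟨k₀, fun k hk e he => ?_⟩
      have h1 := hk₀ k hk e he
      have h2 : e ≠ a := by
        intro h3
        rw [h3] at he
        exact h ⟨k, he⟩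
      omega

lemma Nmono (R : Run r N img frz acts) {k k' : ℕ} (h : k ≤ k') : N k ≤ N k' :=
  monotone_nat_of_le_succ R.mono h

lemma Nlarge (R : Run r N img frz acts) (l : ℕ) : l + 2 ≤ N (2 * l) := by
  induction l with
  | zero => simpa using R.two 0
  | succ l ih =>
    have h1 := R.odd_N l
    have h2 := R.mono (2 * l)
    have h3 : 2 * (l + 1) = 2 * l + 2 := by ring
    rw [h3, h1]
    omega

lemma stable (R : Run r N img frz acts) {a k₀ : ℕ} (hk₀ : ∀ k ≥ k₀, ∀ e, acts k e → a ≤ e)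
    (ha : a < N k₀) (k : ℕ) (hk : k₀ ≤ k) : img k a = img k₀ a := by
  induction k, hk using Nat.le_induction with
  | base => rfl
  | succ k hk ih =>
    rw [← ih]
    have hak : a < N k := lt_of_lt_of_le ha (Nmono R hk)
    obtain ⟨l, hl⟩ := Nat.even_or_odd' k
    rcases hl with hl | hl
    · subst hl
      by_cases h : ∃ e, acts (2 * l) e
      · obtain ⟨e, he⟩ := h
        obtain ⟨Seg, y, z, w, m, h1, _, h3, _⟩ := R.act _ _ he
        refine h3 a hak fun hs => ?_
        have h4 := (h1 a hs).2.1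
        have h5 := hk₀ _ hk e he
        omega
      · exact (R.idle l (not_exists.1 h)).2.1 a hak
    · subst hl
      exact R.odd_img l a hak

lemma keep (R : Run r N img frz acts) {a b k : ℕ} (ha : a < N k) (hb : b < N k)
    (h : Lt r (img k a) (img k b)) (k' : ℕ) (hk : k ≤ k') : Lt r (img k' a) (img k' b) := by
  induction k', hk using Nat.le_induction with
  | base => exact h
  | succ k' hk ih =>
    exact R.ord k' a b (lt_of_lt_of_le ha (Nmono R hk)) (lt_of_lt_of_le hb (Nmono R hk)) ih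

lemma lim (R : Run r N img frz acts) (a : ℕ) : ∃ u k₀, ∀ k ≥ k₀, a < N k ∧ img k a = u := by
  obtain ⟨k₁, hk₁⟩ := late R a
  obtain ⟨k₀, hk⟩ : ∃ k₀, k₀ = max k₁ (2 * a) := ⟨_, rfl⟩
  have ha : a < N k₀ := by
    have h1 := Nlarge R a
    have h2 : N (2 * a) ≤ N k₀ := Nmono R (hk ▸ le_max_right k₁ (2 * a))
    omega
  refine ⟨img k₀ a, k₀, fun k hk2 => ⟨lt_of_lt_of_le ha (Nmono R hk2), ?_⟩⟩
  exact stable R (fun k h => hk₁ k ((le_max_left _ _).trans (hk ▸ h))) ha k hk2

end HLIM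

/-- Target LIM. -/
theorem p_LIM : T_LIM := by
  intro r N img frz acts R
  choose h hh using HLIM.lim R
  have hLim : Lim N img h := hh
  refine ⟨h, hLim, ?_, ?_⟩
  · intro a b hab
    obtain ⟨k₁, h1⟩ := hh a
    obtain ⟨k₂, h2⟩ := hh b
    have e1 := h1 (max k₁ k₂) (le_max_left _ _)
    have e2 := h2 (max k₁ k₂) (le_max_right _ _)
    refine R.img_inj (max k₁ k₂) a b e1.1 e2.1 ?_
    rw [e1.2, e2.2, hab]
  · intro k a b ha hb hlt
    obtain ⟨k₁, h1⟩ := hh a
    obtain ⟨k₂, h2⟩ := hh b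
    have hk1 : k₁ ≤ max k (max k₁ k₂) := (le_max_left _ _).trans (le_max_right _ _)
    have hk2 : k₂ ≤ max k (max k₁ k₂) := (le_max_right _ _).trans (le_max_right _ _)
    have e1 := h1 _ hk1
    have e2 := h2 _ hk2
    have h3 := HLIM.keep R ha hb hlt _ (le_max_left k (max k₁ k₂))
    rwa [e1.2, e2.2] at h3

end Pool.Agent.DMO
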