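import Pool.Agent.DMO.Targets

/-!
# T_NEVER

If the program `e` never acts and computes an embedding, then this is the identity.
-/

set_option autoImplicit false

namespace Pool.Agent.DMO

namespace HNEVER

/-- A copy of the natural numbers for the pulled back order. -/
def Al (_ : ℕ → ℕ) : Type := ℕ

/-- The statement about orbits for the order pulled back along `h`. -/
theorem orb (hORB : T_ORB) {r : ℕ → ℕ → Bool} (hr : LO r) (h : ℕ → ℕ)
    (hinj : Function.Injective h) (f : ℕ → ℕ)
    (hf : ∀ a b, Lt r (h a) (h b) → Lt r (h (f a)) (h (f b))) (x : ℕ) (hx : f x ≠ x)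
    (G : Finset ℕ) (hG1 : ∀ a, ∃ g ∈ G, r (h g) (h a) = true)
    (hG2 : ∀ a, ∃ g ∈ G, r (h a) (h g) = true) :
    ∃ p ∈ G, ∃ q ∈ G, (∀ g ∈ G, Lt r (h p) (h g) → Lt r (h g) (h q) → False) ∧
      ∃ n₀, ∀ n ≥ n₀, Lt r (h p) (h (f^[n] x)) ∧ Lt r (h (f^[n] x)) (h q) ∧
        (Lt r (h (f^[n] x)) (h (f^[n + 1] x)) ∧ Lt r (h (f^[n + 1] x)) (h (f^[n + 2] x)) ∨
          Lt r (h (f^[n + 2] x)) (h (f^[n + 1] x)) ∧ Lt r (h (f^[n + 1] x)) (h (f^[n] x))) := by
  let F : Al h → Car hr := fun a => Car.mk hr (h a)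
  have hF : Function.Injective F := hinj
  let _ : LinearOrder (Al h) := LinearOrder.lift' F hF
  exact hORB (Al h) f (fun a b hab => hf a b hab) x hx G hG1 hG2

/-- Only finitely many elements lie inside a path. -/
theorem path_finite {r : ℕ → ℕ → Bool} (hr : LO r) {P Q : ℕ} (h : Path r P Q) :
    {u | Lt r P u ∧ Lt r u Q}.Finite := by
  induction h with
  | refl =>
    refine Set.Finite.subset Set.finite_empty ?_
    rintro u ⟨h1, h2⟩
    exact (h1.asymm hr h2).elim
  | @tail b c _ hbc ih =>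
    refine Set.Finite.subset (ih.union (Set.finite_singleton b)) ?_
    rintro u ⟨h1, h2⟩
    rcases lt_trichotomy hr u b with h3 | h3 | h3
    · exact Or.inl ⟨h1, h3⟩
    · exact Or.inr h3
    · exact (hbc.2 u h3 h2).elim

/-- Frozen connections persist. -/
theorem con_mono {r : ℕ → ℕ → Bool} {N : ℕ → ℕ} {img : ℕ → ℕ → ℕ} {frz : ℕ → ℕ → ℕ → Prop}
    {acts : ℕ → ℕ → Prop} (hrun : Run r N img frz acts) {k k' a b : ℕ} (hk : k ≤ k')
    (h : Con frz k a b) : Con frz k' a b := by
  have hf : ∀ x y, frz k x y → frz k' x y := by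
    induction k', hk using Nat.le_induction with
    | base => exact fun x y h => h
    | succ m _ ih => exact fun x y hxy => hrun.frz_mono m x y (ih x y hxy)
  unfold Con at h ⊢
  induction h with
  | refl => exact Relation.ReflTransGen.refl
  | tail _ hxy ih =>
    refine ih.tail ?_
    rcases hxy with hxy | hxy
    · exact Or.inl (hf _ _ hxy)
    · exact Or.inr (hf _ _ hxy)

/-- A path of frozen pairs is a connection. -/
theorem con_of {frz : ℕ → ℕ → ℕ → Prop} {k a b : ℕ}
    (h : Relation.ReflTransGen (frz k) a b) : Con frz k a b := by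
  unfold Con
  induction h with
  | refl => exact Relation.ReflTransGen.refl
  | tail _ hxy ih => exact ih.tail (Or.inl hxy)

/-- Connections can be reversed. -/
theorem con_symm {frz : ℕ → ℕ → ℕ → Prop} {k a b : ℕ} (h : Con frz k a b) : Con frz k b a := by
  unfold Con at h ⊢
  induction h with
  | refl => exact Relation.ReflTransGen.refl
  | tail _ hxy ih => exact Relation.ReflTransGen.head hxy.symm ih

/-- From a certain index on the orbit is injective. -/
theorem orbit_inj {r : ℕ → ℕ → Bool} (hr : LO r) (g : ℕ → ℕ)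
    (hg : ∀ n, Lt r (g n) (g (n + 1)) ∧ Lt r (g (n + 1)) (g (n + 2)) ∨
      Lt r (g (n + 2)) (g (n + 1)) ∧ Lt r (g (n + 1)) (g n)) : Function.Injective g := by
  have key : (∀ n, Lt r (g n) (g (n + 1))) ∨ (∀ n, Lt r (g (n + 1)) (g n)) := by
    rcases hg 0 with h0 | h0
    · left
      intro n
      induction n with
      | zero => exact h0.1
      | succ n ih =>
        rcases hg n with h1 | h1
        · exact h1.2
        · exact (ih.asymm hr h1.2).elim
    · right
      intro n
      induction n with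
      | zero => exact h0.2
      | succ n ih =>
        rcases hg n with h1 | h1
        · exact (ih.asymm hr h1.1).elim
        · exact h1.1
  rcases key with key | key
  · have hlt : ∀ n d, Lt r (g n) (g (n + d + 1)) := by
      intro n d
      induction d with
      | zero => exact key n
      | succ d ih => exact ih.trans hr (key (n + d + 1))
    intro a b hab
    rcases Nat.lt_trichotomy a b with h1 | h1 | h1
    · obtain ⟨d, rfl⟩ := Nat.exists_eq_add_of_lt h1
      exact ((hlt a d).ne hr hab).elim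
    · exact h1
    · obtain ⟨d, rfl⟩ := Nat.exists_eq_add_of_lt h1
      exact ((hlt b d).ne hr hab.symm).elim
  · have hlt : ∀ n d, Lt r (g (n + d + 1)) (g n) := by
      intro n d
      induction d with
      | zero => exact key n
      | succ d ih => exact (key (n + d + 1)).trans hr ih
    intro a b hab
    rcases Nat.lt_trichotomy a b with h1 | h1 | h1
    · obtain ⟨d, rfl⟩ := Nat.exists_eq_add_of_lt h1
      exact ((hlt a d).ne hr hab.symm).elim
    · exact h1
    · obtain ⟨d, rfl⟩ := Nat.exists_eq_add_of_lt h1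
      exact ((hlt b d).ne hr hab).elim

end HNEVER

open HNEVER in
theorem p_NEVER : T_CON → T_GSET → T_ORB → T_NEVER := by
  intro hCON hGSET hORB r N img frz acts hr h0 h1 hrun h hlim hinj hsurj e f hna hcomp hmono
  by_contra hne
  obtain ⟨x, hx⟩ : ∃ x, f x ≠ x := by
    by_contra hcon
    push Not at hcon
    exact hne (funext hcon)
  obtain ⟨G, hG0, hG1, hGc, hGe, k₀, hk₀⟩ :=
    hGSET r N img frz acts hrun h hlim hinj hsurj e
  have hh0 : h 0 = 0 := by
    obtain ⟨k, hk⟩ := hlim 0
    rw [← (hk k le_rfl).2, hrun.img_zero]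
  have hh1 : h 1 = 1 := by
    obtain ⟨k, hk⟩ := hlim 1
    rw [← (hk k le_rfl).2, hrun.img_one]
  obtain ⟨p, hp, q, hq, hgap, n₀, hn₀⟩ := orb hORB hr h hinj f hmono x hx G
    (fun a => ⟨0, hG0, by rw [hh0]; exact h0 _⟩) (fun a => ⟨1, hG1, by rw [hh1]; exact h1 _⟩)
  -- the orbit
  have hginj : Function.Injective fun m => h (f^[n₀ + m] x) := by
    apply orbit_inj hr
    intro m
    exact (hn₀ (n₀ + m) (by omega)).2.2
  have hxinj : Function.Injective fun m => f^[n₀ + m] x := by
    intro a b hab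
    apply hginj
    change h (f^[n₀ + a] x) = h (f^[n₀ + b] x)
    exact congrArg h hab
  -- a step which is not a frozen connection
  obtain ⟨n, hn, hncon⟩ : ∃ n ≥ n₀, ∀ k, ¬ Con frz k (f^[n] x) (f^[n + 1] x) := by
    by_contra hcon
    push Not at hcon
    have hall : ∀ m, ∃ k, Con frz k (f^[n₀] x) (f^[n₀ + m] x) := by
      intro m
      induction m with
      | zero => exact ⟨0, Relation.ReflTransGen.refl⟩
      | succ m ih =>
        obtain ⟨k, hk⟩ := ih
        obtain ⟨k', hk'⟩ := hcon (n₀ + m) (by omega)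
        refine ⟨max k k', ?_⟩
        exact Relation.ReflTransGen.trans (con_mono hrun (le_max_left k k') hk)
          (con_mono hrun (le_max_right k k') hk')
    exact Set.infinite_of_injective_forall_mem hxinj hall
      (hCON r N img frz acts hrun (f^[n₀] x))
  -- the interval is infinite
  have hpath : ¬ Path r (h p) (h q) := by
    intro hcon
    refine Set.infinite_of_injective_forall_mem hginj ?_ (path_finite hr hcon)
    intro m
    have := hn₀ (n₀ + m) (by omega)
    exact ⟨this.1, this.2.1⟩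
  -- the three points
  obtain ⟨y, hy⟩ : ∃ y, y = f^[n] x := ⟨_, rfl⟩
  obtain ⟨z, hz⟩ : ∃ z, z = f^[n + 1] x := ⟨_, rfl⟩
  obtain ⟨w, hw⟩ : ∃ w, w = f^[n + 2] x := ⟨_, rfl⟩
  have hyz : f y = z := by
    rw [hy, hz]
    exact (Function.iterate_succ_apply' f n x).symm
  have hzw : f z = w := by
    rw [hz, hw]
    exact (Function.iterate_succ_apply' f (n + 1) x).symm
  have hy3 := hn₀ n hn
  have hz3 := hn₀ (n + 1) (by omega)
  have hw3 := hn₀ (n + 2) (by omega)
  rw [← hy, ← hz, ← hw] at hy3
  rw [← hz] at hz3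
  rw [← hw] at hw3
  rw [← hy, ← hz] at hncon
  have hev1 : z ∈ (prog e).eval y := by rw [← hyz]; exact hcomp y
  have hev2 : w ∈ (prog e).eval z := by rw [← hzw]; exact hcomp z
  rw [Nat.Partrec.Code.evaln_complete] at hev1 hev2
  obtain ⟨k1, hk1⟩ := hev1
  obtain ⟨k2, hk2⟩ := hev2
  obtain ⟨ky, hky⟩ := hlim y
  obtain ⟨kz, hkz⟩ := hlim z
  obtain ⟨kw, hkw⟩ := hlim w
  obtain ⟨l, hle, hl⟩ : ∃ l : ℕ, l.unpair.1 = e ∧ k₀ + k1 + k2 + ky + kz + kw ≤ l := by
    refine ⟨Nat.pair e (k₀ + k1 + k2 + ky + kz + kw), ?_, Nat.right_le_pair _ _⟩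
    rw [Nat.unpair_pair]
  have e1 : ev l e y z := Nat.Partrec.Code.evaln_mono (by omega) hk1
  have e2 : ev l e z w := Nat.Partrec.Code.evaln_mono (by omega) hk2
  obtain ⟨hG2, hG3⟩ := hk₀ (2 * l) (by omega)
  obtain ⟨hyN, hyi⟩ := hky (2 * l) (by omega)
  obtain ⟨hzN, hzi⟩ := hkz (2 * l) (by omega)
  obtain ⟨hwN, hwi⟩ := hkw (2 * l) (by omega)
  obtain ⟨hpN, hpi⟩ := hG2 p hp
  obtain ⟨hqN, hqi⟩ := hG2 q hq
  have hgapG : ∀ a ∈ G, Lt r (img (2 * l) p) (img (2 * l) a) →
      Lt r (img (2 * l) a) (img (2 * l) q) → False := by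
    intro a ha h2 h3
    rw [hpi, (hG2 a ha).2] at h2
    rw [hqi, (hG2 a ha).2] at h3
    exact hgap a ha h2 h3
  have hno := hrun.no_act l e hle hna p q y z w hpN hqN hyN hzN hwN
    (by rw [hpi, hyi]; exact hy3.1) (by rw [hyi, hqi]; exact hy3.2.1)
    (by rw [hpi, hzi]; exact hz3.1) (by rw [hzi, hqi]; exact hz3.2.1)
    (by rw [hpi, hwi]; exact hw3.1) (by rw [hwi, hqi]; exact hw3.2.1)
    (by rw [hyi, hzi, hwi]; exact hy3.2.2)
    (by
      intro a haN h2 h3
      have haG : a ∉ G := fun ha => hgapG a ha h2 h3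
      constructor
      · by_contra hcon
        exact haG (hGe a (by omega))
      · by_contra hcon
        exact haG (hG3 a haN (by omega)))
    (by
      intro a hfa h3
      have haG : a ∈ G := hGc (2 * l) p a (Relation.ReflTransGen.single (Or.inl hfa)) hp
      exact hgapG a haG (hrun.frz_adj _ _ _ hfa).1 h3)
    (by
      intro a hfa h2
      have haG : a ∈ G := hGc (2 * l) q a (Relation.ReflTransGen.single (Or.inr hfa)) hq
      exact hgapG a haG h2 (hrun.frz_adj _ _ _ hfa).1)
    e1 e2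
    (by
      intro hcon
      apply hncon (2 * l)
      exact con_of hcon)
    (by
      intro hcon
      apply hncon (2 * l)
      exact con_symm (con_of hcon))
  rw [hpi, hqi] at hno
  exact hpath hno

end Pool.Agent.DMO
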