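import Pool.Agent.DMO.Targets

set_option autoImplicit false

/-!
# Job DMO-ORB
-/

namespace Pool.Agent.DMO

namespace HORB

theorem seq_gap (α : Type) [LinearOrder α] (u : ℕ → α) (hu : StrictMono u) (G : Finset α)
    (h1 : ∀ a, ∃ g ∈ G, g ≤ a) (h2 : ∀ a, ∃ g ∈ G, a ≤ g) :
    ∃ p ∈ G, ∃ q ∈ G, (∀ g ∈ G, p < g → g < q → False) ∧ ∃ n₀, ∀ n ≥ n₀,
      p < u n ∧ u n < q := by
  classical
  have n1 : (G.filter fun g => ∃ n, g < u n).Nonempty := by
    obtain ⟨g, hg, hg'⟩ := h1 (u 0)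
    exact ⟨g, Finset.mem_filter.2 ⟨hg, 1, lt_of_le_of_lt hg' (hu Nat.zero_lt_one)⟩⟩
  have n2 : (G.filter fun g => ∀ n, u n ≤ g).Nonempty := by
    by_contra hne
    rw [Finset.not_nonempty_iff_eq_empty, Finset.filter_eq_empty_iff] at hne
    obtain ⟨g0, hg0, -⟩ := h1 (u 0)
    have hG : G.Nonempty := ⟨g0, hg0⟩
    have hM := hne (G.max'_mem hG)
    push Not at hM
    obtain ⟨n, hn⟩ := hM
    obtain ⟨g, hg, hg'⟩ := h2 (u n)
    exact absurd (lt_of_lt_of_le hn hg') (_root_.not_lt.2 (G.le_max' g hg))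
  have m1 := (Finset.mem_filter.1 (Finset.max'_mem _ n1))
  have m2 := (Finset.mem_filter.1 (Finset.min'_mem _ n2))
  refine ⟨_, m1.1, _, m2.1, ?_, ?_⟩
  · intro g hg hpg hgq
    by_cases h : ∃ n, g < u n
    · have hm : g ∈ G.filter fun g => ∃ n, g < u n := by
        rw [Finset.mem_filter]
        exact ⟨hg, h⟩
      have := Finset.le_max' _ g hm
      exact absurd hpg (_root_.not_lt.2 this)
    · push Not at h
      have hm : g ∈ G.filter fun g => ∀ n, u n ≤ g := by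
        rw [Finset.mem_filter]
        exact ⟨hg, h⟩
      have := Finset.min'_le _ g hm
      exact absurd hgq (_root_.not_lt.2 this)
  · obtain ⟨n₀, hn₀⟩ := m1.2
    refine ⟨n₀, fun n hn => ⟨lt_of_lt_of_le hn₀ (hu.monotone hn), ?_⟩⟩
    exact lt_of_lt_of_le (hu (Nat.lt_succ_self n)) (m2.2 (n + 1))

end HORB

theorem p_ORB : T_ORB := by
  intro α _ f hf x hx G h1 h2
  rcases lt_or_gt_of_ne hx with h | h
  · have hu : StrictAnti fun n => f^[n] x := hf.strictAnti_iterate_of_map_lt h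
    obtain ⟨q, hq, p, hp, hgap, n₀, hn₀⟩ := HORB.seq_gap αᵒᵈ (fun n => OrderDual.toDual (f^[n] x))
      (fun a b hab => OrderDual.toDual_lt_toDual.2 (hu hab)) G h2 h1
    refine ⟨p, hp, q, hq, fun g hg a b => hgap g hg b a, n₀, fun n hn => ?_⟩
    obtain ⟨a, b⟩ := hn₀ n hn
    exact ⟨b, a, Or.inr ⟨hu (Nat.lt_succ_self (n + 1)), hu (Nat.lt_succ_self n)⟩⟩
  · have hu : StrictMono fun n => f^[n] x := hf.strictMono_iterate_of_lt_map h
    obtain ⟨p, hp, q, hq, hgap, n₀, hn₀⟩ := HORB.seq_gap α (fun n => f^[n] x) hu G h1 h2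
    refine ⟨p, hp, q, hq, hgap, n₀, fun n hn => ?_⟩
    obtain ⟨a, b⟩ := hn₀ n hn
    exact ⟨a, b, Or.inl ⟨hu (Nat.lt_succ_self n), hu (Nat.lt_succ_self (n + 1))⟩⟩

end Pool.Agent.DMO
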