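import Pool.Agent.DMO.Targets

/-!
# `Far` is recursively enumerable
-/

set_option autoImplicit false

namespace Pool.Agent.DMO

open Pool.Agent.CeerI

namespace HRFAR

variable {α : Type} [Primcodable α]

theorem getD_comp {f : α → List ℕ} {g : α → ℕ} (hf : Computable f) (hg : Computable g) :
    Computable fun a => (f a).getD (g a) 0 :=
  (Primrec.list_getD (0 : ℕ)).to_comp.comp hf hg

theorem dec_Lt {s : ℕ → ℕ → Bool} (hs : Computable₂ s) {f g : α → ℕ} (hf : Computable f)
    (hg : Computable g) : ComputablePred fun a => Lt s (f a) (g a) := by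
  have h : Computable fun a => !(s (g a) (f a)) :=
    Primrec.not.to_comp.comp (hs.comp hg hf)
  refine dec_of_iff (dec_of_comp h) fun a => ?_
  unfold Lt
  simp

theorem nodup_iff (c : List ℕ) :
    c.Nodup ↔ ∀ i < c.length, ∀ j < c.length, c.getD i 0 = c.getD j 0 → i = j := by
  constructor
  · intro h i hi j hj hij
    rw [List.getD_eq_getElem _ _ hi, List.getD_eq_getElem _ _ hj] at hij
    exact (List.Nodup.getElem_inj_iff h).1 hij
  · intro h
    rw [List.nodup_iff_injective_get]
    intro i j hij
    apply Fin.ext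
    apply h i i.2 j j.2
    rw [List.getD_eq_getElem _ _ i.2, List.getD_eq_getElem _ _ j.2]
    simpa using hij

theorem mem_iff (c : List ℕ) (p : ℕ → Prop) :
    (∀ z ∈ c, p z) ↔ ∀ i < c.length, p (c.getD i 0) := by
  constructor
  · intro h i hi
    rw [List.getD_eq_getElem _ _ hi]
    exact h _ (List.getElem_mem hi)
  · intro h z hz
    obtain ⟨i, hi, rfl⟩ := List.getElem_of_mem hz
    have := h i hi
    rwa [List.getD_eq_getElem _ _ hi] at this

end HRFAR

open HRFAR

theorem p_RFAR : T_RFAR := by
  intro s N hs α _ x y hx hy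
  have hlen : Computable fun q : α × List ℕ => q.2.length :=
    Computable.list_length.comp Computable.snd
  have h1 : ComputablePred fun q : α × List ℕ => q.2.length = N :=
    dec_eq hlen (Computable.const N)
  have h2 : ComputablePred fun q : α × List ℕ =>
      ∀ i < q.2.length, ∀ j < q.2.length, q.2.getD i 0 = q.2.getD j 0 → i = j := by
    have h3 : ComputablePred fun q : (α × List ℕ) × ℕ =>
        ∀ j < q.1.2.length, q.1.2.getD q.2 0 = q.1.2.getD j 0 → q.2 = j := by
      have h4 : ComputablePred fun q : ((α × List ℕ) × ℕ) × ℕ =>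
          q.1.1.2.getD q.1.2 0 = q.1.1.2.getD q.2 0 → q.1.2 = q.2 := by
        have hl : Computable fun q : ((α × List ℕ) × ℕ) × ℕ => q.1.1.2 :=
          Computable.snd.comp (Computable.fst.comp Computable.fst)
        have hi : Computable fun q : ((α × List ℕ) × ℕ) × ℕ => q.1.2 :=
          Computable.snd.comp Computable.fst
        have hj : Computable fun q : ((α × List ℕ) × ℕ) × ℕ => q.2 := Computable.snd
        exact dec_imp (dec_eq (getD_comp hl hi) (getD_comp hl hj)) (dec_eq hi hj)
      exact dec_ball h4 (hlen.comp Computable.fst)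
    exact dec_ball h3 hlen
  have h5 : ComputablePred fun q : α × List ℕ =>
      ∀ i < q.2.length, Lt s (x q.1) (q.2.getD i 0) ∧ Lt s (q.2.getD i 0) (y q.1) := by
    have h6 : ComputablePred fun q : (α × List ℕ) × ℕ =>
        Lt s (x q.1.1) (q.1.2.getD q.2 0) ∧ Lt s (q.1.2.getD q.2 0) (y q.1.1) := by
      have hg : Computable fun q : (α × List ℕ) × ℕ => q.1.2.getD q.2 0 :=
        getD_comp (Computable.snd.comp Computable.fst) Computable.snd
      have hx' : Computable fun q : (α × List ℕ) × ℕ => x q.1.1 :=
        hx.comp (Computable.fst.comp Computable.fst)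
      have hy' : Computable fun q : (α × List ℕ) × ℕ => y q.1.1 :=
        hy.comp (Computable.fst.comp Computable.fst)
      exact dec_and (dec_Lt hs hx' hg) (dec_Lt hs hg hy')
    exact dec_ball h6 hlen
  refine (re_exists (dec_re (dec_and h1 (dec_and h2 h5)))).of_eq fun a => ?_
  unfold Far
  constructor
  · rintro ⟨c, hc1, hc2, hc3⟩
    exact ⟨c, hc1, (nodup_iff c).2 hc2, (mem_iff c _).2 hc3⟩
  · rintro ⟨c, hc1, hc2, hc3⟩
    exact ⟨c, hc1, (nodup_iff c).1 hc2, (mem_iff c _).1 hc3⟩

end Pool.Agent.DMO
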