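import Pool.Agent.DMO.Targets

/-!
# T_RPATH: the relation Path is recursively enumerable
-/

set_option autoImplicit false

namespace Pool.Agent.DMO

namespace HRPATH

/-- The list `c` codes a path of length `n` from `P` to `Q`. -/
def Code (r : ℕ → ℕ → Bool) (P Q : ℕ) (x : ℕ × List ℕ) : Prop :=
  (x.2.getD 0 0 = P ∧ x.2.getD x.1 0 = Q) ∧
    ∀ t < x.1, Adj r (x.2.getD t 0) (x.2.getD (t + 1) 0)

theorem path_iff (r : ℕ → ℕ → Bool) (P Q : ℕ) :
    Path r P Q ↔ ∃ x : ℕ × List ℕ, Code r P Q x := by
  constructor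
  · intro h
    unfold Path at h
    induction h using Relation.ReflTransGen.head_induction_on with
    | refl => exact ⟨(0, [Q]), ⟨rfl, rfl⟩, fun t ht => absurd ht (Nat.not_lt_zero t)⟩
    | @head a b h1 _ ih =>
      obtain ⟨⟨n, c⟩, ⟨h2, h3⟩, h4⟩ := ih
      refine ⟨(n + 1, a :: c), ⟨rfl, ?_⟩, ?_⟩
      · simpa using h3
      · rintro (- | t) ht
        · have h5 : c.getD 0 0 = b := h2
          simp only [Nat.zero_add, List.getD_cons_zero, List.getD_cons_succ]
          rw [h5]
          exact h1
        · simp only [List.getD_cons_succ]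
          exact h4 t (Nat.lt_of_succ_lt_succ ht)
  · rintro ⟨⟨n, c⟩, ⟨h1, h2⟩, h3⟩
    have h4 : ∀ s ≤ n, Path r (c.getD 0 0) (c.getD s 0) := by
      intro s
      induction s with
      | zero => exact fun _ => Relation.ReflTransGen.refl
      | succ s ih =>
        intro hs
        exact (ih (by omega)).tail (h3 s (by omega))
    have h5 := h4 n le_rfl
    simp only at h1 h2
    rw [h1, h2] at h5
    exact h5

end HRPATH

open HRPATH Pool.Agent.CeerI in
theorem p_RPATH : T_RPATH := by
  intro r hadj α _ P Q hP hQ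
  have hget : Computable fun x : List ℕ × ℕ => x.1.getD x.2 0 :=
    (Primrec.list_getD 0).to_comp
  have hn : Computable fun x : α × (ℕ × List ℕ) => x.2.1 :=
    Computable.fst.comp Computable.snd
  have hc : Computable fun x : α × (ℕ × List ℕ) => x.2.2 :=
    Computable.snd.comp Computable.snd
  have h1 : ComputablePred fun x : α × (ℕ × List ℕ) => x.2.2.getD 0 0 = P x.1 :=
    dec_eq (hget.comp (hc.pair (Computable.const 0))) (hP.comp Computable.fst)
  have h2 : ComputablePred fun x : α × (ℕ × List ℕ) => x.2.2.getD x.2.1 0 = Q x.1 :=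
    dec_eq (hget.comp (hc.pair hn)) (hQ.comp Computable.fst)
  have hc' : Computable fun x : (α × (ℕ × List ℕ)) × ℕ => x.1.2.2 :=
    hc.comp Computable.fst
  have h3 : ComputablePred fun x : (α × (ℕ × List ℕ)) × ℕ =>
      Adj r (x.1.2.2.getD x.2 0) (x.1.2.2.getD (x.2 + 1) 0) :=
    dec_comp hadj ((hget.comp (hc'.pair Computable.snd)).pair
      (hget.comp (hc'.pair (Computable.succ.comp Computable.snd))))
  have h4 : ComputablePred fun x : α × (ℕ × List ℕ) => Code r (P x.1) (Q x.1) x.2 :=
    dec_and (dec_and h1 h2) (dec_ball h3 hn)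
  refine (re_exists (dec_re h4)).of_eq fun a => ?_
  exact (path_iff r (P a) (Q a)).symm

end Pool.Agent.DMO
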