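import Pool.Agent.DMO.Targets

/-!
# The step relation is recursively enumerable (job DMO-RSTEP)
-/

set_option autoImplicit false

namespace Pool.Agent.DMO

open Pool.Agent.CeerI

namespace HRSTEP

/-- The type of the arguments of the step relation. -/
abbrev X := (ℕ × St) × St

theorem cK : Computable fun x : X => x.1.1 / 2 :=
  (Primrec.nat_div.to_comp).comp (Computable.fst.comp Computable.fst) (Computable.const 2)

theorem cE : Computable fun x : X => (x.1.1 / 2).unpair.1 :=
  Computable.fst.comp (Computable.unpair.comp cK)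

theorem cmod : Computable fun x : X => x.1.1 % 2 :=
  (Primrec.nat_mod.to_comp).comp (Computable.fst.comp Computable.fst) (Computable.const 2)

theorem cs : Computable fun x : X => x.1.2 := Computable.snd.comp Computable.fst

theorem cs1 : Computable fun x : X => x.1.2.1 := Computable.fst.comp cs

theorem cs2 : Computable fun x : X => x.1.2.2 := Computable.snd.comp cs

theorem ct1 : Computable fun x : X => x.2.1 := Computable.fst.comp Computable.snd

theorem ct2 : Computable fun x : X => x.2.2 := Computable.snd.comp Computable.snd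

theorem getD_comp {α : Type} [Primcodable α] {l : α → List ℕ} {i : α → ℕ} (hl : Computable l)
    (hi : Computable i) : Computable fun a => (l a).getD (i a) 0 :=
  (Primrec.list_getD 0).to_comp.comp hl hi

theorem mem_iff (l : List ℕ) (e : ℕ) : e ∈ l ↔ ∃ i < l.length, l.getD i 0 = e := by
  constructor
  · intro h
    obtain ⟨i, hi, h⟩ := List.mem_iff_getElem.1 h
    refine ⟨i, hi, ?_⟩
    rw [List.getD_eq_getElem _ _ hi]
    exact h
  · rintro ⟨i, hi, h⟩
    rw [List.getD_eq_getElem _ _ hi] at h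
    rw [← h]
    exact List.getElem_mem hi

theorem dec_mem : ComputablePred fun x : X => (x.1.1 / 2).unpair.1 ∈ x.1.2.1 := by
  have h : ComputablePred fun q : X × ℕ => q.1.1.2.1.getD q.2 0 = (q.1.1.1 / 2).unpair.1 :=
    dec_eq (getD_comp (cs1.comp Computable.fst) Computable.snd) (cE.comp Computable.fst)
  exact dec_of_iff (dec_bex h (Computable.list_length.comp cs1)) fun x => mem_iff _ _

theorem dec_same : ComputablePred fun x : X => x.2 = x.1.2 :=
  dec_eq Computable.snd cs

theorem dec_cons : ComputablePred fun x : X => x.2.1 = (x.1.1 / 2).unpair.1 :: x.1.2.1 :=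
  dec_eq ct1 (Computable.list_cons.comp cE cs1)

/-- The type of the data of an action. -/
abbrev D6 := ℕ × ℕ × ℕ × ℕ × ℕ × ℕ

theorem re_act (hval : T_CVAL) (hact : T_CACT) {r : ℕ → ℕ → Bool} (hr : Computable₂ r)
    (hadj : ComputablePred fun x : ℕ × ℕ => Adj r x.1 x.2) :
    REPred fun x : X => ∃ i j y z w k,
      Valid (x.1.1 / 2) (x.1.1 / 2).unpair.1 x.1.2.2 i j y z w k ∧
      ActTo r x.1.2.2 x.2.2 i j z w k := by
  have c0 : Computable fun q : X × D6 => q.1 := Computable.fst
  have d0 : Computable fun q : X × D6 => q.2 := Computable.snd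
  have ci : Computable fun q : X × D6 => q.2.1 := Computable.fst.comp d0
  have d1 : Computable fun q : X × D6 => q.2.2 := Computable.snd.comp d0
  have cj : Computable fun q : X × D6 => q.2.2.1 := Computable.fst.comp d1
  have d2 : Computable fun q : X × D6 => q.2.2.2 := Computable.snd.comp d1
  have cy : Computable fun q : X × D6 => q.2.2.2.1 := Computable.fst.comp d2
  have d3 : Computable fun q : X × D6 => q.2.2.2.2 := Computable.snd.comp d2
  have cz : Computable fun q : X × D6 => q.2.2.2.2.1 := Computable.fst.comp d3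
  have d4 : Computable fun q : X × D6 => q.2.2.2.2.2 := Computable.snd.comp d3
  have cw : Computable fun q : X × D6 => q.2.2.2.2.2.1 := Computable.fst.comp d4
  have ck : Computable fun q : X × D6 => q.2.2.2.2.2.2 := Computable.snd.comp d4
  have h1 := hval (X × D6) _ _ _ _ _ _ _ _ _ (cK.comp c0) (cE.comp c0) (cs2.comp c0) ci cj cy cz
    cw ck
  have h2 := hact r hr hadj (X × D6) _ _ _ _ _ _ _ (cs2.comp c0) (ct2.comp c0) ci cj cz cw ck
  refine (re_exists (dec_re (dec_and h1 h2))).of_eq fun x => ?_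
  constructor
  · rintro ⟨⟨i, j, y, z, w, k⟩, h⟩
    exact ⟨i, j, y, z, w, k, h⟩
  · rintro ⟨i, j, y, z, w, k, h⟩
    exact ⟨⟨i, j, y, z, w, k⟩, h⟩

theorem valid_lt {K e : ℕ} {L : List Ent} {i j y z w k : ℕ} (h : Valid K e L i j y z w k) :
    i < L.length ∧ j < L.length ∧ y < L.length ∧ z < L.length ∧ w < L.length ∧ k < L.length := by
  obtain ⟨⟨h1, h2, h3, -, -⟩, -, ⟨h4, h5, h6, h7, h8, h9⟩, -, -, ⟨h10, h11, -⟩⟩ := h
  have : k < max y z := h11
  refine ⟨by omega, by omega, by omega, by omega, by omega, ?_⟩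
  rcases le_total y z with h | h
  · rw [max_eq_right h] at this
    omega
  · rw [max_eq_left h] at this
    omega

theorem re_all (hval : T_CVAL) (hpath : T_RPATH) {r : ℕ → ℕ → Bool}
    (hadj : ComputablePred fun x : ℕ × ℕ => Adj r x.1 x.2) :
    REPred fun x : X => ∀ i j y z w k,
      Valid (x.1.1 / 2) (x.1.1 / 2).unpair.1 x.1.2.2 i j y z w k →
      Path r (im x.1.2.2 (i - 1)) (im x.1.2.2 (j + 1)) := by
  have e5 : Computable fun q : (((((X × ℕ) × ℕ) × ℕ) × ℕ) × ℕ) × ℕ => q.1 := Computable.fst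
  have ck : Computable fun q : (((((X × ℕ) × ℕ) × ℕ) × ℕ) × ℕ) × ℕ => q.2 := Computable.snd
  have cw : Computable fun q : (((((X × ℕ) × ℕ) × ℕ) × ℕ) × ℕ) × ℕ => q.1.2 :=
    Computable.snd.comp e5
  have e4 : Computable fun q : (((((X × ℕ) × ℕ) × ℕ) × ℕ) × ℕ) × ℕ => q.1.1 :=
    Computable.fst.comp e5
  have cz : Computable fun q : (((((X × ℕ) × ℕ) × ℕ) × ℕ) × ℕ) × ℕ => q.1.1.2 :=
    Computable.snd.comp e4
  have e3 : Computable fun q : (((((X × ℕ) × ℕ) × ℕ) × ℕ) × ℕ) × ℕ => q.1.1.1 :=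
    Computable.fst.comp e4
  have cy : Computable fun q : (((((X × ℕ) × ℕ) × ℕ) × ℕ) × ℕ) × ℕ => q.1.1.1.2 :=
    Computable.snd.comp e3
  have e2 : Computable fun q : (((((X × ℕ) × ℕ) × ℕ) × ℕ) × ℕ) × ℕ => q.1.1.1.1 :=
    Computable.fst.comp e3
  have cj : Computable fun q : (((((X × ℕ) × ℕ) × ℕ) × ℕ) × ℕ) × ℕ => q.1.1.1.1.2 :=
    Computable.snd.comp e2
  have e1 : Computable fun q : (((((X × ℕ) × ℕ) × ℕ) × ℕ) × ℕ) × ℕ => q.1.1.1.1.1 :=
    Computable.fst.comp e2
  have ci : Computable fun q : (((((X × ℕ) × ℕ) × ℕ) × ℕ) × ℕ) × ℕ => q.1.1.1.1.1.2 :=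
    Computable.snd.comp e1
  have e0 : Computable fun q : (((((X × ℕ) × ℕ) × ℕ) × ℕ) × ℕ) × ℕ => q.1.1.1.1.1.1 :=
    Computable.fst.comp e1
  have cL := cs2.comp e0
  have h1 := hval _ _ _ _ _ _ _ _ _ _ (cK.comp e0) (cE.comp e0) cL ci cj cy cz cw ck
  have cent : ∀ f : (((((X × ℕ) × ℕ) × ℕ) × ℕ) × ℕ) × ℕ → ℕ, Computable f →
      Computable fun q => im q.1.1.1.1.1.1.1.2.2 (f q) := by
    intro f hf
    have h : Computable fun q : (((((X × ℕ) × ℕ) × ℕ) × ℕ) × ℕ) × ℕ =>
        ent q.1.1.1.1.1.1.1.2.2 (f q) :=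
      (Primrec.list_getD ((0, 0, false) : Ent)).to_comp.comp cL hf
    exact Computable.fst.comp (Computable.snd.comp h)
  have h2 := hpath r hadj _ _ _
    (cent _ ((Primrec.nat_sub.to_comp).comp ci (Computable.const 1)))
    (cent _ (Computable.succ.comp cj))
  have h3 := re_imp h1 h2
  have n5 := re_ball h3 (Computable.list_length.comp
    (cs2.comp (Computable.fst.comp (Computable.fst.comp (Computable.fst.comp
      (Computable.fst.comp Computable.fst))))))
  have n4 := re_ball n5 (Computable.list_length.comp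
    (cs2.comp (Computable.fst.comp (Computable.fst.comp (Computable.fst.comp Computable.fst)))))
  have n3 := re_ball n4 (Computable.list_length.comp
    (cs2.comp (Computable.fst.comp (Computable.fst.comp Computable.fst))))
  have n2 := re_ball n3 (Computable.list_length.comp
    (cs2.comp (Computable.fst.comp Computable.fst)))
  have n1 := re_ball n2 (Computable.list_length.comp (cs2.comp Computable.fst))
  have n0 := re_ball n1 (Computable.list_length.comp cs2)
  refine n0.of_eq fun x => ?_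
  constructor
  · intro h i j y z w k hv
    obtain ⟨hi, hj, hy, hz, hw, hk⟩ := valid_lt hv
    exact h i hi j hj y hy z hz w hw k hk hv
  · intro h i _ j _ y _ z _ w _ k _ hv
    exact h i j y z w k hv

end HRSTEP

open HRSTEP in
theorem p_RSTEP : T_CEXT → T_CVAL → T_CACT → T_RPATH → T_RSTEP := by
  intro hext hval hact hpath r hr hadj
  have d0 : ComputablePred fun x : X => x.1.1 % 2 = 0 := dec_eq cmod (Computable.const 0)
  have d1 : ComputablePred fun x : X => x.1.1 % 2 = 1 := dec_eq cmod (Computable.const 1)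
  have hE : ComputablePred fun x : X => Ext r x.1.2.2 x.2.2 :=
    dec_comp (hext r hr) (cs2.pair ct2)
  have ho : REPred fun x : X => x.1.1 % 2 = 1 ∧ x.2.1 = x.1.2.1 ∧ Ext r x.1.2.2 x.2.2 :=
    dec_re (dec_and d1 (dec_and (dec_eq ct1 cs1) hE))
  have hA : REPred fun x : X => (x.1.1 / 2).unpair.1 ∈ x.1.2.1 ∧ x.2 = x.1.2 :=
    dec_re (dec_and dec_mem dec_same)
  have hB : REPred fun x : X => (x.1.1 / 2).unpair.1 ∉ x.1.2.1 ∧
      x.2.1 = (x.1.1 / 2).unpair.1 :: x.1.2.1 ∧ ∃ i j y z w k,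
        Valid (x.1.1 / 2) (x.1.1 / 2).unpair.1 x.1.2.2 i j y z w k ∧
        ActTo r x.1.2.2 x.2.2 i j z w k :=
    re_and (dec_re (dec_not dec_mem)) (re_and (dec_re dec_cons) (re_act hval hact hr hadj))
  have hC : REPred fun x : X => (x.1.1 / 2).unpair.1 ∉ x.1.2.1 ∧ x.2 = x.1.2 ∧
      ∀ i j y z w k, Valid (x.1.1 / 2) (x.1.1 / 2).unpair.1 x.1.2.2 i j y z w k →
        Path r (im x.1.2.2 (i - 1)) (im x.1.2.2 (j + 1)) :=
    re_and (dec_re (dec_not dec_mem)) (re_and (dec_re dec_same) (re_all hval hpath hadj))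
  have he : REPred fun x : X => x.1.1 % 2 = 0 ∧
      EvenStep r (x.1.1 / 2) (x.1.1 / 2).unpair.1 x.1.2 x.2 :=
    re_and (dec_re d0) (re_or hA (re_or hB hC))
  exact re_or he ho

end Pool.Agent.DMO
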