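import Pool.Agent.DMO.Targets

set_option autoImplicit false

namespace Pool.Agent.DMO

namespace HSORD

theorem pos_primrec : Primrec fun p : List Ent × ℕ => pos p.1 p.2 := by
  unfold pos
  refine Primrec.list_findIdx Primrec.fst ?_
  exact (Primrec.eq (α := ℕ)).decide.comp (Primrec.fst.comp Primrec.snd)
    (Primrec.snd.comp Primrec.fst)

theorem imgL_primrec : Primrec fun p : List Ent × ℕ => imgL p.1 p.2 := by
  unfold imgL im ent
  exact Primrec.fst.comp (Primrec.snd.comp
    ((Primrec.list_getD (0, 0, false)).comp Primrec.fst pos_primrec))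

theorem imgL_comp {α : Type} [Primcodable α] {f : α → List Ent} {g : α → ℕ}
    (hf : Computable f) (hg : Computable g) : Computable fun a => imgL (f a) (g a) :=
  imgL_primrec.to_comp.comp (hf.pair hg)

theorem len_mono {σ : ℕ → St} (hm : ∀ k, (σ k).2.length ≤ (σ (k + 1)).2.length) {k k' : ℕ}
    (h : k ≤ k') : (σ k).2.length ≤ (σ k').2.length := by
  induction h with
  | refl => exact le_rfl
  | step _ ih => exact ih.trans (hm _)

theorem lt_step {r : ℕ → ℕ → Bool} {σ : ℕ → St}
    (hm : ∀ k, (σ k).2.length ≤ (σ (k + 1)).2.length)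
    (ho : ∀ k a b, a < (σ k).2.length → b < (σ k).2.length →
      Lt r (imgL (σ k).2 a) (imgL (σ k).2 b) →
      Lt r (imgL (σ (k + 1)).2 a) (imgL (σ (k + 1)).2 b))
    {k k' a b : ℕ} (h : k ≤ k') (ha : a < (σ k).2.length) (hb : b < (σ k).2.length)
    (hl : Lt r (imgL (σ k).2 a) (imgL (σ k).2 b)) :
    Lt r (imgL (σ k').2 a) (imgL (σ k').2 b) := by
  induction h with
  | refl => exact hl
  | @step m hm' ih =>
    have := len_mono hm hm'
    exact ho m a b (by omega)
      (by omega) ih

/-- The order of two labels does not change. -/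
theorem le_iff_of_le {r : ℕ → ℕ → Bool} {σ : ℕ → St} (hr : LO r)
    (hinv : ∀ k, Inv r (σ k).2)
    (hm : ∀ k, (σ k).2.length ≤ (σ (k + 1)).2.length)
    (ho : ∀ k a b, a < (σ k).2.length → b < (σ k).2.length →
      Lt r (imgL (σ k).2 a) (imgL (σ k).2 b) →
      Lt r (imgL (σ (k + 1)).2 a) (imgL (σ (k + 1)).2 b))
    {k k' a b : ℕ} (h : k ≤ k') (ha : a < (σ k).2.length) (hb : b < (σ k).2.length) :
    r (imgL (σ k).2 a) (imgL (σ k).2 b) = true ↔
      r (imgL (σ k').2 a) (imgL (σ k').2 b) = true := by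
  have hl := len_mono hm h
  rcases lt_trichotomy hr (imgL (σ k).2 a) (imgL (σ k).2 b) with h1 | h1 | h1
  · have h2 := lt_step hm ho h ha hb h1
    exact ⟨fun _ => h2.le hr, fun _ => h1.le hr⟩
  · have h2 := imgL_inj hr (hinv k) ha hb h1
    subst h2
    exact ⟨fun _ => hr.refl _, fun _ => hr.refl _⟩
  · have h2 := lt_step hm ho h hb ha h1
    constructor
    · intro h3
      exact absurd h3 (by unfold Lt at h1; rw [h1]; exact Bool.false_ne_true)
    · intro h3
      exact absurd h3 (by unfold Lt at h2; rw [h2]; exact Bool.false_ne_true)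

end HSORD

open HSORD

theorem p_SORD : T_SORD := by
  intro r σ hr hrc hσ hinv hm hlen ho
  refine ⟨fun a b => r (imgL (σ (2 * (a + b))).2 a) (imgL (σ (2 * (a + b))).2 b), ?_, ?_⟩
  · have h1 : Computable fun p : ℕ × ℕ => (σ (2 * (p.1 + p.2))).2 := by
      refine Computable.snd.comp (hσ.comp ?_)
      exact (Primrec.nat_mul.comp (Primrec.const 2)
        (Primrec.nat_add.comp Primrec.fst Primrec.snd)).to_comp
    exact hrc.comp (imgL_comp h1 Computable.fst) (imgL_comp h1 Computable.snd)
  · intro k a b ha hb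
    have h2 := hlen (a + b)
    have ha' : a < (σ (2 * (a + b))).2.length := by omega
    have hb' : b < (σ (2 * (a + b))).2.length := by omega
    rcases Nat.le_total k (2 * (a + b)) with h | h
    · exact (le_iff_of_le hr hinv hm ho h ha hb).symm
    · exact le_iff_of_le hr hinv hm ho h ha' hb'

end Pool.Agent.DMO
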