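import Pool.Agent.DMO.Targets

set_option autoImplicit false

/-!
# Target SUR for MP_55b29c_lc: the limit is surjective
-/

namespace Pool.Agent.DMO

namespace HSUR

variable {r : ℕ → ℕ → Bool} {N : ℕ → ℕ} {img : ℕ → ℕ → ℕ} {frz : ℕ → ℕ → ℕ → Prop}
  {acts : ℕ → ℕ → Prop}

/-- Late actions belong to large programs. -/
theorem late (hR : Run r N img frz acts) (u : ℕ) :
    ∃ k₀, ∀ k ≥ k₀, ∀ e, acts k e → u ≤ e := by
  induction u with
  | zero => exact ⟨0, fun k _ e _ => Nat.zero_le e⟩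
  | succ u ih =>
    obtain ⟨k₀, h0⟩ := ih
    by_cases h : ∃ k₁, acts k₁ u
    · obtain ⟨k₁, h1⟩ := h
      refine ⟨max k₀ (k₁ + 1), fun k hk e he => ?_⟩
      have h2 := h0 k (by omega) e he
      rcases Nat.eq_or_lt_of_le h2 with h3 | h3
      · subst h3
        have := hR.act_once _ _ _ he h1
        omega
      · exact h3
    · refine ⟨k₀, fun k hk e he => ?_⟩
      have h2 := h0 k hk e he
      rcases Nat.eq_or_lt_of_le h2 with h3 | h3
      · subst h3
        exact absurd ⟨k, he⟩ h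
      · exact h3

/-- An image which is too small for the later programs stays. -/
theorem keep (hR : Run r N img frz acts) (u k₀ : ℕ) (h0 : ∀ k ≥ k₀, ∀ e, acts k e → u ≤ e)
    (k a : ℕ) (hk : k₀ ≤ k) (ha : a < N k) (hu : img k a = u) :
    a < N (k + 1) ∧ img (k + 1) a = u := by
  refine ⟨lt_of_lt_of_le ha (hR.mono k), ?_⟩
  rcases Nat.even_or_odd' k with ⟨l, rfl | rfl⟩
  · by_cases h : ∃ e, acts (2 * l) e
    · obtain ⟨e, he⟩ := h
      have h1 := h0 _ hk e he
      obtain ⟨Seg, y, z, w, m, hs1, -, hs3, -⟩ := hR.act _ _ he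
      have hns : ¬ Seg a := by
        intro hs
        have := (hs1 a hs).2.2 ha
        omega
      rw [hs3 a ha hns, hu]
    · have h1 := (hR.idle l (fun e he => h ⟨e, he⟩)).2.1 a ha
      rw [h1, hu]
  · rw [show 2 * l + 1 + 1 = 2 * l + 2 by ring, hR.odd_img l a ha, hu]

/-- Such an image stays for ever. -/
theorem stay (hR : Run r N img frz acts) (u k₀ : ℕ) (h0 : ∀ k ≥ k₀, ∀ e, acts k e → u ≤ e)
    (k a : ℕ) (hk : k₀ ≤ k) (ha : a < N k) (hu : img k a = u) :
    ∀ k' ≥ k, a < N k' ∧ img k' a = u := by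
  intro k' hk'
  induction k', hk' using Nat.le_induction with
  | base => exact ⟨ha, hu⟩
  | succ k' hk' ih => exact keep hR u k₀ h0 k' a (le_trans hk hk') ih.1 ih.2

theorem perm (hR : Run r N img frz acts) (u : ℕ) :
    ∃ a k₀, ∀ k ≥ k₀, a < N k ∧ img k a = u := by
  induction u using Nat.strong_induction_on with
  | _ u ih =>
    obtain ⟨k₀, h0⟩ := late hR u
    have hK : ∀ n ≤ u, ∃ K, ∀ v < n, ∀ k ≥ K, ∃ a, a < N k ∧ img k a = v := by
      intro n
      induction n with
      | zero => exact fun _ => ⟨0, fun v hv => absurd hv (Nat.not_lt_zero v)⟩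
      | succ n ihn =>
        intro hn
        obtain ⟨K, hK⟩ := ihn (by omega)
        obtain ⟨a, k₁, h1⟩ := ih n (by omega)
        refine ⟨max K k₁, fun v hv k hk => ?_⟩
        rcases Nat.lt_or_ge v n with h2 | h2
        · exact hK v h2 k (by omega)
        · have h3 : v = n := by omega
          subst h3
          exact ⟨a, h1 k (by omega)⟩
    obtain ⟨K, hK⟩ := hK u le_rfl
    obtain ⟨l, hl⟩ : ∃ l, l = max k₀ K := ⟨_, rfl⟩
    by_cases hex : ∃ a, a < N (2 * l + 1) ∧ img (2 * l + 1) a = u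
    · obtain ⟨a, ha, hau⟩ := hex
      exact ⟨a, 2 * l + 1, stay hR u k₀ h0 (2 * l + 1) a (by omega) ha hau⟩
    · have hx : img (2 * l + 2) (N (2 * l + 1)) = u := by
        rcases Nat.lt_trichotomy (img (2 * l + 2) (N (2 * l + 1))) u with h1 | h1 | h1
        · obtain ⟨a, ha, hau⟩ := hK _ h1 (2 * l + 1) (by omega)
          exact absurd hau (hR.odd_new l a ha)
        · exact h1
        · obtain ⟨a, ha, hau⟩ := hR.odd_least l u h1
          exact absurd ⟨a, ha, hau⟩ hex
      have hlt : N (2 * l + 1) < N (2 * l + 2) := by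
        rw [hR.odd_N l]
        omega
      exact ⟨N (2 * l + 1), 2 * l + 2, stay hR u k₀ h0 (2 * l + 2) _ (by omega) hlt hx⟩

end HSUR

theorem p_SUR : T_SUR := by
  intro r N img frz acts hR h hL u
  obtain ⟨a, k₀, h0⟩ := HSUR.perm hR u
  obtain ⟨k₁, h1⟩ := hL a
  refine ⟨a, ?_⟩
  rw [← (h1 (max k₀ k₁) (by omega)).2, (h0 (max k₀ k₁) (by omega)).2]

end Pool.Agent.DMO
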