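import Pool.Agent.DMO.Targets

set_option autoImplicit false

/-!
# The step relation is total and preserves the invariant (for MP_55b29c_lc)
-/

namespace Pool.Agent.DMO

theorem p_TOT : T_EXT1 → T_EXT2 → T_ACT1 → T_ACT2 → T_TOT := by
  intro hE1 hE2 hA1 hA2 r hr h0 h1 hLC
  refine ⟨fun k s hs => ?_, fun k s s' hs hstep => ?_⟩
  · rcases Nat.mod_two_eq_zero_or_one k with hk | hk
    · by_cases he : (k / 2).unpair.1 ∈ s.1
      · exact ⟨s, Or.inl ⟨hk, Or.inl ⟨he, rfl⟩⟩⟩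
      · by_cases hB : ∀ i j y z w k', Valid (k / 2) (k / 2).unpair.1 s.2 i j y z w k' →
            Path r (im s.2 (i - 1)) (im s.2 (j + 1))
        · exact ⟨s, Or.inl ⟨hk, Or.inr (Or.inr ⟨he, rfl, hB⟩)⟩⟩
        · push Not at hB
          obtain ⟨i, j, y, z, w, k', hV, hP⟩ := hB
          obtain ⟨L', hL'⟩ := hA1 r s.2 _ _ i j y z w k' hr hLC hs hV hP
          exact ⟨((k / 2).unpair.1 :: s.1, L'), Or.inl ⟨hk, Or.inr (Or.inl ⟨he, rfl,
            i, j, y, z, w, k', hV, hL'⟩)⟩⟩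
    · obtain ⟨L', hL'⟩ := hE1 r s.2 hr h0 h1 hs
      exact ⟨(s.1, L'), Or.inr ⟨hk, rfl, hL'⟩⟩
  · rcases hstep with ⟨-, h | ⟨-, -, i, j, y, z, w, k', hV, hL'⟩ | ⟨-, h, -⟩⟩ | ⟨-, -, h⟩
    · rw [h.2]
      exact hs
    · exact hA2 r s.2 s'.2 _ _ i j y z w k' hr hs hV hL'
    · rw [h]
      exact hs
    · exact hE2 r s.2 s'.2 hr hs h

end Pool.Agent.DMO
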