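import Pool.Agent.DMO.Lib

/-!
# Targets for MP_55b29c_lc: orders with computable adjacency relation

Every target is a `def T_X : Prop`; the job is `theorem p_X : T_X` (or `T_Y → T_X` where the
docstring says so) in the file `Pool/Agent/DMO/P_X.lean`, importing `Pool.Agent.DMO.Targets`.

Read `Defs.lean` first, then `Tool.lean` (closure properties of decidable and r.e. predicates) and
`Lib.lean` (orders, `ent`, `sh`, `pos`, `imgL`).

The proof in words. Let `r` be a computable linear order on `ℕ` with first element `0` and last
element `1`, with computable adjacency relation, without strongly eta-like convex subset. We build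
a computable copy `A` with labels `0, 1, 2, …` in stages. A state is the finite list of the labels
in the order of their images in `r`, with flags for frozen pairs (whose images are adjacent in
`r`). Stage `2 l + 1` gives the least missing element of `r` a new label. Stage `2 l` treats the
program `e = l.unpair.1`: if it has not yet acted, and there is a segment of labels (all labels
and images `> e`, no frozen pair leads out of the segment) with `y < z < w` or `w < z < y` in it,
`φ_e (y) = z`, `φ_e (z) = w`, and a not frozen pair between `y` and `z`, then put `m = |z - w|` new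
labels into this place, freeze all pairs between `z` and `w` and map the whole new segment to a
chain of consecutive elements of `r` between the images of the neighbours of the segment (such a
chain exists if the interval is infinite). Nothing is ever unfrozen, every `e` acts at most once.
If `e` has acted, then `φ_e` is not an embedding because `(z, w)` has `m - 1` elements for ever and
`(y, z)` at least `m`. If `e` never acts and `φ_e` is an embedding different from the identity,
then an orbit finally stays in one gap of the finite closed set of all labels which are frozen to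
labels `≤ e` or to the labels of images `≤ e`, and `e` must act there.
-/

namespace Pool.Agent.DMO

/-! ## Part II: verification from the abstract properties (`Run`) -/

/-- T_LIM. The images converge; the limit is injective and respects the order.
Proof. (1) For every `a` there is `k₀` such that `acts k e`, `k ≥ k₀` imply `a ≤ e`: induction on
`a`, every single `e` acts at most once (`act_once`). (2) `l + 2 ≤ N (2 l)` from `two, mono,
odd_N`, so `a < N k` for large `k`. (3) Take `k₀` from (1) with `a < N k₀`; then
`img (k+1) a = img k a` for all `k ≥ k₀`: for odd `k` by `odd_img`; for even `k = 2 l`: if nobody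
acts by `idle`; if `e` acts, `a ≤ e`, so `a` is not in `Seg` (`Seg a → e < a`) and the image is
unchanged. Put `h a = img k₀ a`. (4) For given `a, b` take `k` beyond both stages: injectivity
from `img_inj`. (5) `Lt r (img k a) (img k b) → Lt r (h a) (h b)` for `a, b < N k` by induction
with `ord` (the order is preserved from every stage to the next one, so to a stage where both
images are final). -/
def T_LIM : Prop := ∀ (r : ℕ → ℕ → Bool) (N : ℕ → ℕ) (img : ℕ → ℕ → ℕ) (frz : ℕ → ℕ → ℕ → Prop)
    (acts : ℕ → ℕ → Prop), Run r N img frz acts →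
  ∃ h : ℕ → ℕ, Lim N img h ∧ Function.Injective h ∧
    ∀ k a b, a < N k → b < N k → Lt r (img k a) (img k b) → Lt r (h a) (h b)

/-- T_SUR. The limit is surjective.
Proof. Strong induction on `u`: there are `a, k₀` with `a < N k` and `img k a = u` for all
`k ≥ k₀` (then `h a = u`). As in T_LIM (1) there is `k₁` such that `acts k e`, `k ≥ k₁` imply
`u ≤ e` (and `v ≤ e` for all `v < u`); enlarge `k₁` such that all `v < u` have their permanent
labels from stage `k₁` on.
(a) If `k ≥ k₁`, `a < N k`, `img k a = u`, then `img (k+1) a = u`: odd `k`: `odd_img`; even: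
`idle`, or `e` acts with `u ≤ e`: `Seg a` would give `e < img k a = u`, so not `Seg a`.
So it suffices to find one stage `k ≥ k₁` at which `u` is an image.
(b) Take an odd stage `2 l + 1 ≥ k₁` and assume that `u` is no image there. Let
`x = img (2 l + 2) (N (2 l + 1))` be the new image. `x < u` is impossible (`odd_new`, because
`x` is an image at the stage `2 l + 1` by the induction hypothesis), `u < x` is impossible by
`odd_least`. So `x = u`. -/
def T_SUR : Prop := ∀ (r : ℕ → ℕ → Bool) (N : ℕ → ℕ) (img : ℕ → ℕ → ℕ) (frz : ℕ → ℕ → ℕ → Prop)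
    (acts : ℕ → ℕ → Prop), Run r N img frz acts → ∀ h : ℕ → ℕ, Lim N img h →
  Function.Surjective h

/-- T_CON. The frozen component of every label is finite.
Proof. Let `k₀` be such that `acts k e`, `k ≥ k₀` imply `a ≤ e` (T_LIM (1)). Claim: for `k ≥ k₀`,
`Con frz (k+1) a b → Con frz k a b`. Odd `k`: `odd_frz`. Even `k`, nobody acts: `idle`. If `e`
acts: `Seg a` is false as `a ≤ e`. Induction along the path from `a`: all its labels are outside
`Seg` (`frz' x y → (Seg x ↔ Seg y)`) and each of its links is an old frozen pair
(`frz' x y → ¬ Seg x → frz x y`). For `k ≤ k₀` use `frz_mono`. So the set is contained in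
`{b | Con frz k₀ a b}`, and this is contained in `{a} ∪ {b | b < N k₀}` by `frz_lt`. -/
def T_CON : Prop := ∀ (r : ℕ → ℕ → Bool) (N : ℕ → ℕ) (img : ℕ → ℕ → ℕ) (frz : ℕ → ℕ → ℕ → Prop)
    (acts : ℕ → ℕ → Prop), Run r N img frz acts → ∀ a, {b | ∃ k, Con frz k a b}.Finite

/-- T_ACTED. A program which has acted does not compute an embedding.
Proof. Let `k` be the stage, `ActGen` with `Seg, y, z, w, m`. Write `x <' x'` for
`Lt r (h x) (h x')`. `prog e` computes `f`, so `f y = z`, `f z = w` (`Part.mem_unique`).
By the hypothesis on `h` (order preserved from the stage `k+1` to the limit; here the labels are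
`< N (k+1)`): first case: `y <' d_t <' z` for the `m` labels `d_t = N k + t`, `t < m`, which are
different. Applying `f`: `z <' f (d_t) <' w`, `m` different labels, their images `h (f (d_t))` are
`m` different elements strictly between `h z` and `h w`. On the other hand the pairs
`(c t, c (t+1))`, `t < m`, are frozen at stage `k+1` and at all later stages (`frz_mono`), so
`Adj r (img k' (c t)) (img k' (c (t+1)))` for all `k' ≥ k+1`, and for `k'` large this is
`Adj r (h (c t)) (h (c (t+1)))` (`Lim`). Hence every element strictly between `h z = h (c 0)` and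
`h w = h (c m)` is one of `h (c 1), …, h (c (m-1))`: for `u` with `h (c 0) < u < h (c m)` take
the largest `t ≤ m` with `h (c t) ≤ u`; then `t < m`, and `h (c t) = u` because nothing lies
between `h (c t)` and `h (c (t+1))`; `t ≠ 0`. So there are at most `m - 1` elements, pigeonhole
(map `t ↦` the index in `{1, …, m-1}`, injective on `m ≥ 1` values). The second case is the same
with all inequalities reversed. -/
def T_ACTED : Prop := ∀ (r : ℕ → ℕ → Bool) (N : ℕ → ℕ) (img : ℕ → ℕ → ℕ)
    (frz : ℕ → ℕ → ℕ → Prop) (acts : ℕ → ℕ → Prop), LO r → Run r N img frz acts →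
  ∀ h : ℕ → ℕ, Lim N img h →
    (∀ k a b, a < N k → b < N k → Lt r (img k a) (img k b) → Lt r (h a) (h b)) →
    ∀ (k e : ℕ) (f : ℕ → ℕ), acts k e → Computes e f →
      (∀ a b, Lt r (h a) (h b) → Lt r (h (f a)) (h (f b))) → False

/-- T_ORB (pure order theory). An orbit finally stays in one gap of a finite set.
Proof. Let `x_n = f^[n] x`. Case `x < f x`: by induction (strict monotonicity) `x_n < x_(n+1)` for
all `n`. Split `G` into `G₁ = {g ∈ G | ∃ n, g < x_n}` and `G₂ = {g ∈ G | ∀ n, x_n ≤ g}`. `G₁` is
nonempty (take `g ≤ x = x_0 < x_1`), `G₂` is nonempty: otherwise every `g ∈ G` is below some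
`x_n`; let `M` be the maximum of `G` (nonempty), `M < x_n`, but some `g ∈ G` has `x_n ≤ g ≤ M`.
For `g ∈ G₂` even `x_n < x_(n+1) ≤ g`. Let `p = max G₁`, `q = min G₂`, `p < x_(n₀)`. No element
`g` of `G` has `p < g < q`. For `n ≥ n₀`: `p < x_(n₀) ≤ x_n < q`. Case `f x < x`: apply the first
case to `αᵒᵈ` (order dual), or repeat the argument. -/
def T_ORB : Prop := ∀ (α : Type) [LinearOrder α] (f : α → α), StrictMono f → ∀ x, f x ≠ x →
  ∀ G : Finset α, (∀ a, ∃ g ∈ G, g ≤ a) → (∀ a, ∃ g ∈ G, a ≤ g) →
    ∃ p ∈ G, ∃ q ∈ G, (∀ g ∈ G, p < g → g < q → False) ∧ ∃ n₀, ∀ n ≥ n₀,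
      p < f^[n] x ∧ f^[n] x < q ∧
        (f^[n] x < f^[n + 1] x ∧ f^[n + 1] x < f^[n + 2] x ∨
          f^[n + 2] x < f^[n + 1] x ∧ f^[n + 1] x < f^[n] x)

/-- T_GSET. The finite closed set for the program `e`. Job: `theorem p_GSET : T_CON → T_GSET`.
Proof. Let `G₀` be the finite set of the labels `0, 1`, all `a ≤ e`, and all `a` with `h a ≤ e`
(finite as `h` is injective), and `G = {b | ∃ a ∈ G₀, ∃ k, Con frz k a b}`: finite by T_CON,
contains `G₀` (reflexivity). Closed: if `b ∈ G` by `Con frz k' a b` and `Con frz k b c`, then with
`K = max k k'` both hold at stage `K` (`frz_mono`, `Relation.ReflTransGen.mono`), so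
`Con frz K a c`. The last statement: `k₀` = maximum of the stages of `Lim` over the finite set
`G`; if `k ≥ k₀`, `a < N k`, `img k a ≤ e`, take `a'` with `h a' = img k a` (surjective), then
`a' ∈ G₀ ⊆ G`, so `a' < N k` and `img k a' = h a' = img k a`, so `a = a'` by `img_inj`. -/
def T_GSET : Prop := ∀ (r : ℕ → ℕ → Bool) (N : ℕ → ℕ) (img : ℕ → ℕ → ℕ)
    (frz : ℕ → ℕ → ℕ → Prop) (acts : ℕ → ℕ → Prop), Run r N img frz acts →
  ∀ h : ℕ → ℕ, Lim N img h → Function.Injective h → Function.Surjective h →
    ∀ e : ℕ, ∃ G : Finset ℕ, 0 ∈ G ∧ 1 ∈ G ∧ (∀ k a b, Con frz k a b → a ∈ G → b ∈ G) ∧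
      (∀ a ≤ e, a ∈ G) ∧
      ∃ k₀, ∀ k ≥ k₀, (∀ a ∈ G, a < N k ∧ img k a = h a) ∧ ∀ a < N k, img k a ≤ e → a ∈ G

/-- T_NEVER. If `e` never acts and computes an embedding, then this is the identity.
Job: `theorem p_NEVER : T_CON → T_GSET → T_ORB → T_NEVER`.
Proof. Suppose `f x ≠ x` for some `x`. Let `α` be `ℕ` with the order `a ≤ b :⇔ r (h a) (h b)`
(a linear order as `h` is injective; for example pull back the order of `Car hr` along `h` on a
type synonym, `LinearOrder.lift'`). `f` is strictly monotone. Let `G, k₀` be as in T_GSET. `G`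
contains the labels `0` and `1`, `h 0 = 0` and `h 1 = 1` (`img_zero, img_one`, `Lim`), so `0` is
the least and `1` the greatest element of `α`. T_ORB gives `p, q ∈ G`, `n₀`. Write `x_n = f^[n] x`,
all `x_n` are different (strictly monotone for `n ≥ n₀`). By T_CON the component of `x_(n₀)` is
finite, so not all `x_n`, `n ≥ n₀`, are in it; if `Con` held (at some stage) between `x_n` and
`x_(n+1)` for all `n ≥ n₀`, then by induction all `x_n` would be in it (transitivity at the
larger stage, `frz_mono`). So fix `n ≥ n₀` such that `Con frz k (x_n) (x_(n+1))` fails for every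
`k`. Put `y = x_n`, `z = x_(n+1) = f y`, `w = x_(n+2) = f z`. `Path r (h p) (h q)` is false:
otherwise only finitely many elements lie strictly between `h p` and `h q` (induction along the
path), but all the `h (x_m)`, `m ≥ n₀`, do. Now choose `l` with `l.unpair.1 = e` and so large
(`l = Nat.pair e i`, `i` large, `Nat.right_le_pair`) that `2 l ≥ k₀`, that `y, z, w, p, q` have
their final images at all stages `≥ 2 l`, and that `ev l e y z`, `ev l e z w`
(`Nat.Partrec.Code.evaln_complete`, `evaln_mono`). Apply `no_act l e`: the order conditions are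
those in `α` (final images). A label `a < N (2 l)` with `img p < img a < img q` is not in `G`:
if it was, `img (2l) a = h a`, so `a` would be strictly between `p` and `q` in `α`. So
`e < a` (labels `≤ e` are in `G`) and `e < img (2l) a`. `frz (2l) p a` implies `a ∈ G` (one
step of `Con`), `frz_lt` gives `a < N (2l)`, `frz_adj` gives `img p < img a`, and `img a < img q`
is impossible as just seen; similarly for `frz (2l) a q`. `ReflTransGen (frz (2l)) y z` implies
`Con frz (2l) y z`, and `ReflTransGen (frz (2l)) z y` as well (`Con` is symmetric). So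
`Path r (img (2l) p) (img (2l) q) = Path r (h p) (h q)`, contradiction. -/
def T_NEVER : Prop := ∀ (r : ℕ → ℕ → Bool) (N : ℕ → ℕ) (img : ℕ → ℕ → ℕ)
    (frz : ℕ → ℕ → ℕ → Prop) (acts : ℕ → ℕ → Prop), LO r → (∀ a, r 0 a = true) →
  (∀ a, r a 1 = true) → Run r N img frz acts →
  ∀ h : ℕ → ℕ, Lim N img h → Function.Injective h → Function.Surjective h →
    ∀ (e : ℕ) (f : ℕ → ℕ), (∀ k, ¬ acts k e) → Computes e f →
      (∀ a b, Lt r (h a) (h b) → Lt r (h (f a)) (h (f b))) → f = id

/-- T_HALF2. Job: `theorem p_HALF2 : T_LIM → T_SUR → T_ACTED → T_NEVER → T_HALF2`.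
Proof. `h` from T_LIM is bijective (`Equiv.ofBijective`), `h 0 = 0`, `h 1 = 1`. For `a, b` take a
large stage `k`: `s a b = true ↔ r (img k a) (img k b) = true ↔ r (h a) (h b) = true`. Rigid: let
`g` be computable, injective, monotone for `s`. There is `e` with `Computes e g`:
`Nat.Partrec.Code.exists_code` for the function `(g : ℕ →. ℕ)` (`Partrec.nat_iff`), `e` = the
number of the code (`Encodable.encode`, `Denumerable.ofNat_encode`). `Lt r (h a) (h b)` implies
`s a b = true`, `a ≠ b`, so `s (g a) (g b) = true`, `g a ≠ g b`, i.e. `Lt r (h (g a)) (h (g b))`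
(`lt_iff`). If `e` acts at some stage use T_ACTED, otherwise T_NEVER. -/
def T_HALF2 : Prop := ∀ (r : ℕ → ℕ → Bool) (N : ℕ → ℕ) (img : ℕ → ℕ → ℕ)
    (frz : ℕ → ℕ → ℕ → Prop) (acts : ℕ → ℕ → Prop), LO r → (∀ a, r 0 a = true) →
  (∀ a, r a 1 = true) → Run r N img frz acts → ∀ s : ℕ → ℕ → Bool,
    (∀ k a b, a < N k → b < N k → (s a b = true ↔ r (img k a) (img k b) = true)) →
    ∃ h : ℕ ≃ ℕ, h 0 = 0 ∧ h 1 = 1 ∧ (∀ a b, s a b = r (h a) (h b)) ∧ Rigid s

/-! ## Part I: the construction -/

/-- T_EXT1. The odd step is always possible.
Proof. Not every natural number is an image (the images are finitely many), let `u` be the least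
one which is none (`Nat.find`). `u ≠ 0, 1` since these are the images of the first and the last
position. So `im L 0 = 0 < u < 1 = im L (L.length - 1)` in the order `r`. Let `p` be the largest
position with `Lt r (im L p) u` (`Nat.findGreatest` or induction); then `p + 1 < L.length` and
`im L (p+1)` is above `u` (trichotomy). The list `L'` of length `L.length + 1` is given by the
function `F t = ent L t` for `t ≤ p`, `(L.length, u, false)` for `t = p + 1`, `ent L (t - 1)`
for `t > p + 1` (`exists_list`). -/
def T_EXT1 : Prop := ∀ (r : ℕ → ℕ → Bool) (L : List Ent), LO r → (∀ a, r 0 a = true) →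
  (∀ a, r a 1 = true) → Inv r L → ∃ L', Ext r L L'

/-- T_EXT2. The odd step preserves the invariant.
Proof. By `sh_cases` every position of `L'` is `sh p 1 t` with `t < L.length` or `p + 1`. Labels:
old ones `< L.length`, the new one is `L.length`. Images: old positions are shifted strictly
monotonically (`sh_lt_iff`), the new image is between those of the positions `p` and `p + 2`.
Flags: `fl L' (sh p 1 t) = fl L t`; if it is true then `t ≠ p` (because `u` is strictly between
`im L p` and `im L (p+1)`, not adjacent), so `sh p 1 (t+1) = sh p 1 t + 1`, adjacent images. The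
new flag is `false`. First and last positions: `sh p 1 0 = 0`,
`sh p 1 (L.length - 1) = L.length` (as `p + 1 < L.length`). -/
def T_EXT2 : Prop := ∀ (r : ℕ → ℕ → Bool) (L L' : List Ent), LO r → Inv r L → Ext r L L' →
  Inv r L'

/-- T_ACT1. The action is possible if the interval is infinite.
Proof. Let `m = dd z w`, `M = j - i + 1 + m`. `P = im L (i-1)`, `Q = im L (j+1)`, `Lt r P Q`
(`im_lt`). By `LongChains` there is a chain `c 0, …, c (M-1)` of consecutive elements strictly
between. Define `L'` of length `L.length + m` by `exists_list` with the function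
`F t = (label, image, flag)` where for the position `t`: if `t ≤ k`, the old position is `t`; if
`k < t ≤ k + m` the position is new, label `L.length + (t - k - 1)`, flag `false`; if `k + m < t`
the old position is `t - m`; label of the old position; image `c (t - i)` if `i ≤ t ≤ j + m`,
otherwise the old image; flag of an old position `t'`:
`fl L t' || (decide (min z w ≤ t') && decide (t' < max z w))`. Note `k < max y z ≤ j` and
`i ≤ min y z ≤ k`, so positions `t < i` are `≤ k` and positions `t > j` are `> k`. -/
def T_ACT1 : Prop := ∀ (r : ℕ → ℕ → Bool) (L : List Ent) (K e i j y z w k : ℕ), LO r →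
  LongChains r → Inv r L → Valid K e L i j y z w k →
  ¬ Path r (im L (i - 1)) (im L (j + 1)) → ∃ L', ActTo r L L' i j z w k

/-- T_ACT2. The action preserves the invariant.
Proof. `m = dd z w`; `i ≤ k < j`. By `sh_cases` every position of `L'` is `sh k m t`
(`t < L.length`) or `k + 1 + t` (`t < m`). Labels: as stated, different. Images: positions
`< i` are unchanged, positions `> j + m` are shifted old positions `> j` with old images; on
`i, …, j + m` the images increase by `Adj`; `im (i-1) < im i` and `im (j+m) < im (j+m+1)` by
the two `Lt` conditions (`im L' (i-1) = im L (i-1)`, `im L' (j+1+m) = im L (j+1)`). So the images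
increase from every position to the next one; conclude by induction. Flags: new positions have
the flag `false`. If `fl L' (sh k m t)` is true, then `t ≠ k` (`fl L k = false`; and `k` is not
in `[min z w, max z w)`: if `y < z < w` then `k < z`, if `w < z < y` then `z ≤ k`), `t ≠ j`,
`t ≠ i - 1` (flags false, and `[min z w, max z w) ⊆ [i, j)`). So `sh k m (t+1) = sh k m t + 1`;
if `i ≤ t < j` both positions are in the new segment and the images are adjacent; otherwise
`t + 1 < i` or `j < t`, the flag is an old one and both images are unchanged. First and last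
position: `0 < i`, `j < L.length - 1`. -/
def T_ACT2 : Prop := ∀ (r : ℕ → ℕ → Bool) (L L' : List Ent) (K e i j y z w k : ℕ), LO r →
  Inv r L → Valid K e L i j y z w k → ActTo r L L' i j z w k → Inv r L'

/-- T_TOT. Job: `theorem p_TOT : T_EXT1 → T_EXT2 → T_ACT1 → T_ACT2 → T_TOT`.
Proof. Odd stages: T_EXT1, T_EXT2. Even stages: if `e ∈ s.1` the state is unchanged. Otherwise, if
there are valid data with infinite interval (`¬ Path`) use T_ACT1 and T_ACT2, otherwise the third
alternative holds with `s' = s`. -/
def T_TOT : Prop := ∀ (r : ℕ → ℕ → Bool), LO r → (∀ a, r 0 a = true) → (∀ a, r a 1 = true) →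
  LongChains r →
  (∀ k s, Inv r s.2 → ∃ s', Step r k s s') ∧
    ∀ k s s', Inv r s.2 → Step r k s s' → Inv r s'.2

/-- T_CEXT. The odd step is a decidable relation.
Proof. `u` is determined by `L'`: `u = im L' (p+1)`. So the relation is
`∃ p < L.length, p + 1 < L.length ∧ …` with `u` replaced, only bounded quantifiers
(`∀ v < u`, `∃ i < L.length`, `∀ t < L.length`) over decidable relations: `dec_bex, dec_ball,
dec_and, dec_lt, dec_eq, dec_not, dec_of_iff` in `Tool.lean`. `ent L i` is computable in `(L, i)`:
`List.getD` (`Primrec.list_getD`), so also `lab, im, fl`; `sh p 1 t` is computable. -/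
def T_CEXT : Prop := ∀ (r : ℕ → ℕ → Bool), Computable₂ r →
  ComputablePred fun x : List Ent × List Ent => Ext r x.1 x.2

/-- T_CVAL. `Valid` is decidable.
Proof. Bounded quantifiers only (`∀ t, i ≤ t → t ≤ j → …` is `∀ t < j + 1, i ≤ t → …`).
`ev K e y z`: the function `(K, e, y) ↦ evaln K (ofNat e) y` is primitive recursive
(`Nat.Partrec.Code.primrec_evaln`, `Primrec.ofNat`). -/
def T_CVAL : Prop := ∀ (α : Type) [Primcodable α] (K e : α → ℕ) (L : α → List Ent)
    (i j y z w k : α → ℕ), Computable K → Computable e → Computable L → Computable i →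
  Computable j → Computable y → Computable z → Computable w → Computable k →
  ComputablePred fun a => Valid (K a) (e a) (L a) (i a) (j a) (y a) (z a) (w a) (k a)

/-- T_CACT. `ActTo` is decidable (bounded quantifiers only). -/
def T_CACT : Prop := ∀ (r : ℕ → ℕ → Bool), Computable₂ r →
  (ComputablePred fun x : ℕ × ℕ => Adj r x.1 x.2) →
  ∀ (α : Type) [Primcodable α] (L L' : α → List Ent) (i j z w k : α → ℕ), Computable L →
    Computable L' → Computable i → Computable j → Computable z → Computable w → Computable k →
    ComputablePred fun a => ActTo r (L a) (L' a) (i a) (j a) (z a) (w a) (k a)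

/-- T_RPATH. `Path` is recursively enumerable.
Proof. `Path r P Q` iff there is a list `c` of natural numbers with `c.getD 0 0 = P`,
`c.getD (c.length - 1) 0 = Q`, `1 ≤ c.length` and `Adj r (c.getD t 0) (c.getD (t+1) 0)` for all
`t < c.length - 1` (induction in both directions). The condition on `(P, Q, c)` is decidable;
`re_exists`. -/
def T_RPATH : Prop := ∀ (r : ℕ → ℕ → Bool),
  (ComputablePred fun x : ℕ × ℕ => Adj r x.1 x.2) →
  ∀ (α : Type) [Primcodable α] (P Q : α → ℕ), Computable P → Computable Q →
    REPred fun a => Path r (P a) (Q a)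

/-- T_RSTEP. The step relation is recursively enumerable.
Job: `theorem p_RSTEP : T_CEXT → T_CVAL → T_CACT → T_RPATH → T_RSTEP`.
Proof. `re_or, re_and`; `e ∈ s.1` is decidable (`∃ i < s.1.length, s.1.getD i 0 = e`).
In `EvenStep` all the quantifiers over `i, j, y, z, w, k` can be bounded by `L.length` since
`Valid` implies that all of them are `< L.length`; the last alternative is a bounded universal
quantifier (six of them, `re_ball`) over `Valid → Path` (`re_imp`). -/
def T_RSTEP : Prop := ∀ (r : ℕ → ℕ → Bool), Computable₂ r →
  (ComputablePred fun x : ℕ × ℕ => Adj r x.1 x.2) →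
  REPred fun x : (ℕ × St) × St => Step r x.1.1 x.1.2 x.2

/-- T_IEXT. The odd step in terms of labels.
Proof. `ent L' (sh p 1 t) = ent L t` for `t < L.length` and `ent L' (p+1) = (L.length, u, false)`.
For `a < L.length`: `a = lab L t` with `t = pos L a`, then `lab L' (sh p 1 t) = a`, so
`pos L' a = sh p 1 t` (`pos_lab`) and `imgL L' a = im L' (sh p 1 t) = im L t = imgL L a`.
`imgL L' L.length = u`. Frozen pairs: if `fl L t = true`, `t + 1 < L.length`, then `t ≠ p` as in
T_EXT2, so `sh p 1 (t+1) = sh p 1 t + 1`; conversely a frozen pair of `L'` is at a position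
`sh p 1 t` (the new position has the flag `false`), `t ≠ p` because the images of the positions
`p` and `p + 1` of `L'` ... are `im L p`, `u`, and `Inv r L'` would give `fl_adj`; if `t = p` then
`fl L p = true`, which contradicts `Adj r (im L p) (im L (p+1))` (`u` is between). -/
def T_IEXT : Prop := ∀ (r : ℕ → ℕ → Bool) (L L' : List Ent), LO r → Inv r L → Inv r L' →
  Ext r L L' →
    L'.length = L.length + 1 ∧ (∀ a < L.length, imgL L' a = imgL L a) ∧
    (∀ a b, frzL L' a b ↔ frzL L a b) ∧
    (∀ a < L.length, imgL L a ≠ imgL L' L.length) ∧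
    (∀ v < imgL L' L.length, ∃ a < L.length, imgL L a = v) ∧
    ∀ a b, a < L.length → b < L.length → Lt r (imgL L a) (imgL L b) →
      Lt r (imgL L' a) (imgL L' b)

/-- T_IACT. The action in terms of labels.
Proof. `m = dd z w ≥ 1`, `i ≤ k < j`. `Seg a := ∃ t, i ≤ t ∧ t ≤ j + m ∧ lab L' t = a`; the
witnesses of `ActGen` are the labels `lab L y, lab L z, lab L w` and `m`. For `t < L.length` the
label `a = lab L t` has `pos L' a = sh k m t` (`pos_lab`), the new labels are `L.length + t` at the
positions `k + 1 + t`. (1) `Seg a`: old labels are at the positions `i, …, j` of `L`, so `e < a`,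
`e < im L t` by `Valid`; new labels are `≥ L.length > lab L i > e`. (2) New labels are in `Seg`.
(3) Labels outside `Seg` have old positions `< i` or `> j`, same image. (4) A frozen pair of `L'` at
the positions `t, t+1`: `t` is no new position, `t = sh k m t'`; if exactly one of the two
positions is in `[i, j+m]` then `t = i - 1` (`t' = i - 1`) or `t = j + m` (`t' = j`), but there
the flags are `false` (`Valid`, and `[min z w, max z w) ⊆ [i, j)`). (5) If `t` is outside
`[i, j+m]` then `t'` is outside `[i, j]`, the flag is an old one, `t' + 1 < L.length`, and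
`lab L' (t+1) = lab L (t'+1)` because `sh k m (t'+1) = t + 1` (`t' ≠ k`). (6) `ev` implies
membership in `eval`: `Nat.Partrec.Code.evaln_sound`. (7) Case `y < z < w`: the new
positions `k + 1 + t` are strictly between `sh k m y = y` and `sh k m z = z + m`; images increase.
The path: `c t = lab L (z + t)`, `t ≤ m = w - z`: `fl L' (sh k m (z+t)) = true` and
`sh k m (z+t+1) = sh k m (z+t) + 1`. Case `w < z < y`: `z ≤ k < y`, new positions between
`z` and `y + m`, path `c t = lab L (w + t)`. (8) Order of the old labels is preserved:
`lt_imgL_iff` and `sh_lt_iff`. (9) Old frozen pairs remain: `fl L t = true` implies `t ≠ k`, so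
`sh k m (t+1) = sh k m t + 1`, and the flag stays `true`. -/
def T_IACT : Prop := ∀ (r : ℕ → ℕ → Bool) (L L' : List Ent) (K e i j y z w k : ℕ), LO r →
  Inv r L → Inv r L' → Valid K e L i j y z w k → ActTo r L L' i j z w k →
    ActGen r L.length L'.length (imgL L) (imgL L') (frzL L) (frzL L') e ∧
    (∀ a b, a < L.length → b < L.length → Lt r (imgL L a) (imgL L b) →
      Lt r (imgL L' a) (imgL L' b)) ∧
    ∀ a b, frzL L a b → frzL L' a b

/-- T_INO. The third alternative of the even step in terms of labels.
Proof. Given `p, q, y, z, w` as in `NoActGen`, let `i = pos L p + 1`, `j = pos L q - 1`,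
`y' = pos L y` etc. By `lt_imgL_iff`: `i ≤ y', z', w' ≤ j`. `fl L (i-1) = false`: otherwise
`frzL L p (lab L i)` and `lab L i` has its image below that of `q` (`i ≤ j < pos L q`),
contradiction. `fl L j = false`: otherwise `frzL L (lab L j) q`. For `i ≤ t ≤ j` the label
`lab L t` is between `p` and `q`, so `e < lab L t`, `e < im L t = imgL L (lab L t)`. There is
`k` with `min y' z' ≤ k < max y' z'` and `fl L k = false`: otherwise all flags between are true and
`ReflTransGen (frzL L) y z` (if `y' < z'`) or `ReflTransGen (frzL L) z y` by induction. So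
`Valid K e L i j y' z' w' k`, and `Path r (im L (i-1)) (im L (j+1))` is the claim
(`im L (i - 1) = imgL L p`, `im L (j + 1) = imgL L q`). -/
def T_INO : Prop := ∀ (r : ℕ → ℕ → Bool) (L : List Ent) (K e : ℕ), LO r → Inv r L →
  (∀ i j y z w k, Valid K e L i j y z w k → Path r (im L (i - 1)) (im L (j + 1))) →
  NoActGen r L.length (imgL L) (frzL L) K e

/-- T_SORD. The order of the labels is computable.
Proof. `imgL L a` is computable in `(L, a)` (`Primrec.list_findIdx`, `Primrec.list_getD`). Put
`s a b = r (imgL (σ K).2 a) (imgL (σ K).2 b)` with `K = 2 (a + b)`; by `hlen`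
`a, b < (σ K).2.length`. For every stage `k` with `a, b < (σ k).2.length`: the order of the images
of `a` and `b` is the same at the stages `k` and `K` (induction with `hord` from the smaller to the
larger one, trichotomy and `imgL_inj`). -/
def T_SORD : Prop := ∀ (r : ℕ → ℕ → Bool) (σ : ℕ → St), LO r → Computable₂ r → Computable σ →
  (∀ k, Inv r (σ k).2) → (∀ k, (σ k).2.length ≤ (σ (k + 1)).2.length) →
  (∀ l, l + 2 ≤ (σ (2 * l)).2.length) →
  (∀ k a b, a < (σ k).2.length → b < (σ k).2.length →
    Lt r (imgL (σ k).2 a) (imgL (σ k).2 b) →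
    Lt r (imgL (σ (k + 1)).2 a) (imgL (σ (k + 1)).2 b)) →
  ∃ s : ℕ → ℕ → Bool, Computable₂ s ∧ ∀ k a b, a < (σ k).2.length → b < (σ k).2.length →
    (s a b = true ↔ r (imgL (σ k).2 a) (imgL (σ k).2 b) = true)

/-- T_HALF1. Job: `theorem p_HALF1 : T_TOT → T_RSTEP → T_IEXT → T_IACT → T_INO → T_SORD →
T_HALF1`.
Proof. `seq` (Tool.lean) with the invariant `Inv r s.2` and `st0` (`Inv r st0.2` is a direct check)
gives a computable `σ` with `Step r k (σ k) (σ (k+1))`. Put `N k = (σ k).2.length`,
`img k = imgL (σ k).2`, `frz k = frzL (σ k).2`,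
`acts k e := e ∉ (σ k).1 ∧ e ∈ (σ (k+1)).1`. The lists `(σ k).1` only grow; `acts k e` happens only
in the second alternative of `EvenStep` (with this `e`); if nobody acts at an even stage then
`σ (k+1) = σ k`; if `e` never acts then `e ∉ (σ k).1` for all `k` (induction), so at `2 l` with
`l.unpair.1 = e` the third alternative holds and T_INO applies. `odd_*` from T_IEXT, `act, ord,
frz_mono` from T_IACT, `frz_lt` and `frz_adj` directly from `Inv` (`lab_lt`, `fl_adj`,
`imgL_lab`), `img_zero, img_one, img_inj` from Lib. `s` from T_SORD. -/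
def T_HALF1 : Prop := ∀ (r : ℕ → ℕ → Bool), LO r → (∀ a, r 0 a = true) → (∀ a, r a 1 = true) →
  Computable₂ r → (ComputablePred fun x : ℕ × ℕ => Adj r x.1 x.2) → LongChains r →
  ∃ (N : ℕ → ℕ) (img : ℕ → ℕ → ℕ) (frz : ℕ → ℕ → ℕ → Prop) (acts : ℕ → ℕ → Prop)
    (s : ℕ → ℕ → Bool), Run r N img frz acts ∧ Computable₂ s ∧
    ∀ k a b, a < N k → b < N k → (s a b = true ↔ r (img k a) (img k b) = true)

/-! ## Part III: the new end points -/

/-- T_ENDS. `ends r` is a computable linear order with first element `0` and last element `1`,
and the adjacency relation stays computable.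
Proof. Cases `a = 0, a = 1, a = n + 2`. Computability: `Primrec` for the Boolean combination,
`Computable₂ r`. Adjacency: `Adj (ends r) (n+2) (m+2) ↔ Adj r n m`;
`Adj (ends r) 0 (m+2) ↔ m` is the least element of `r`; `Adj (ends r) (n+2) 1 ↔ n` is the
greatest element of `r`; all other cases are false (`0, 1` are not adjacent as `2` is between
them; nothing is adjacent from `1` or to `0`). 'm is the least element of r' is decidable: either
`r` has no least element (always false) or it has one, `m₀` (decidable: `m = m₀`). -/
def T_ENDS : Prop := ∀ (r : ℕ → ℕ → Bool), LO r → Computable₂ r →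
  (ComputablePred fun x : ℕ × ℕ => Adj r x.1 x.2) →
  LO (ends r) ∧ Computable₂ (ends r) ∧ (∀ a, ends r 0 a = true) ∧ (∀ a, ends r a 1 = true) ∧
    ComputablePred fun x : ℕ × ℕ => Adj (ends r) x.1 x.2

/-- T_ENDH. New end points do not create a strongly eta-like convex subset.
Proof. Let `C, f, e` be the data for `ends r`. `0 ∉ C`: let `x ∈ C` be any element, `e x = ⟨q, i⟩`,
there is an element `y ∈ C` with `e y = ⟨q - 1, _⟩`, so `y < x` strictly; hence `C` has no least
element, but `0` would be one. In the same way `1 ∉ C`. So `C` consists of elements `n + 2`; put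
`C' = {n | n + 2 ∈ C}` (convex for `r`), with the equivalence `C' ≃ C`, `n ↦ n + 2`, and
`ends r (n+2) (m+2) = r n m`. -/
def T_ENDH : Prop := ∀ (r : ℕ → ℕ → Bool), LO r → HasSEta (ends r) → HasSEta r

/-- T_BACK. From a rigid copy of `1 + r + 1` to a rigid copy of `r`.
Proof. `s₀ n m = s (n+2) (m+2)`. As `h` is a bijection fixing `0` and `1`, `h (n+2) ≥ 2`; the
bijection `e` with `h (e n + 2) = n + 2`, i.e. `e n = h⁻¹ (n+2) - 2`, satisfies
`s₀ (e n) (e m) = ends r (n+2) (m+2) = r n m`. Rigid: for `g` computable, injective, monotone for
`s₀` let `g' 0 = 0, g' 1 = 1, g' (n+2) = g n + 2`: computable, injective, monotone for `s`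
(`0` is the first and `1` the last element of `s`), so `g' = id`, `g = id`. -/
def T_BACK : Prop := ∀ (r s : ℕ → ℕ → Bool) (h : ℕ ≃ ℕ), LO r → Computable₂ s → h 0 = 0 →
  h 1 = 1 → (∀ a b, s a b = ends r (h a) (h b)) → Rigid s →
  ∃ s₀ : ℕ → ℕ → Bool, Computable₂ s₀ ∧ (∃ e : ℕ ≃ ℕ, ∀ a b, r a b = s₀ (e a) (e b)) ∧
    Rigid s₀

/-! ## Part IV: long chains -/

/-- T_LCA (pure order theory). A countable linear order in which finite intervals have at most `N`
elements, any two elements at infinite distance have a third one at infinite distance from both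
between them, and every element has elements at infinite distance on both sides, is strongly
eta-like.
Proof. Call `x, y` close if the interval between them is finite (an equivalence relation with
convex classes). Every class has at most `N` elements (if it had `N + 1`, the interval from the
least to the greatest of these would be finite with more than `N` elements), so it is a finite
set with a least element `m x` (`x` in the class). `D = {x | m x = x}` is countable, nonempty,
dense without end points by the hypotheses (for `d < d'` in `D` the interval is infinite; take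
`z` between at infinite distance from both; then `d < m z < d'`: `m z ≤ z`, and `m z ≤ d` would
make `[d, z] ⊆ [m z, z]` finite). So `D ≃o ℚ` (`Order.iso_of_countable_dense`). For `q ∈ ℚ` let
`B q` be the class of the corresponding `d ∈ D` (a `Finset`), `f q = (B q).card`,
`1 ≤ f q ≤ N`. `Finset.orderIsoOfFin` gives `Fin (f q) ≃o B q`. Put
`e x = ⟨q, index of x in B q⟩`, `q` belonging to `m x`. `x ≤ y` iff `m x < m y`, or `m x = m y` and
`x ≤ y`, which is the lexicographic order (`Sigma.Lex.le_def` or `Sigma.lex_iff`). -/
def T_LCA : Prop := ∀ (β : Type) [LinearOrder β] [Countable β] [Nonempty β] (N : ℕ),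
  (∀ x y : β, (Set.Icc x y).Finite → (Set.Icc x y).ncard ≤ N) →
  (∀ x y : β, x < y → ¬ (Set.Icc x y).Finite →
    ∃ z, x < z ∧ z < y ∧ ¬ (Set.Icc x z).Finite ∧ ¬ (Set.Icc z y).Finite) →
  (∀ x : β, ∃ y, x < y ∧ ¬ (Set.Icc x y).Finite) →
  (∀ x : β, ∃ y, y < x ∧ ¬ (Set.Icc y x).Finite) →
  ∃ f : ℚ → ℕ, (∀ q, 1 ≤ f q) ∧ (∀ q, f q ≤ N) ∧
    ∃ e : β ≃ Lex (Σ q : ℚ, Fin (f q)), ∀ a b, a ≤ b ↔ e a ≤ e b

/-- T_LCB (pure order theory). Job: `theorem p_LCB : T_LCA → T_LCB`.
Proof. Let `x ≤ y` with infinite interval. (1) Any two elements `u < v` at infinite distance have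
`z` between them at infinite distance from both: the set `U = {t | u ≤ t, [u, t] finite}` is
bounded in size by `N`, so finite and nonempty with a largest element `u⁺`; similarly
`V = {t ≤ v, [t, v] finite}` has a least element `v⁻`. `u⁺ < v⁻` (otherwise `[u, v]` would be
finite, a union of two finite intervals). If nothing was strictly between `u⁺` and `v⁻`, then
`[u, v] = [u, u⁺] ∪ [v⁻, v]` would be finite. So there is `z` with `u⁺ < z < v⁻`; `z ∉ U`,
`z ∉ V`. (2) Let `C = {t | x < t < y, [x, t] infinite, [t, y] infinite}`: convex, nonempty by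
(1). In the subtype `C` intervals are the intervals of `α` (`C` is convex): finiteness and
`ncard` agree. Hypotheses of T_LCA for `C`: the first one is inherited; the second one by (1)
(`z ∈ C` because it lies between two elements of `C`); third: for `t ∈ C` apply (1) to `t, y` to
get `z` with `[t, z]` and `[z, y]` infinite, `z ∈ C`; the fourth is similar. -/
def T_LCB : Prop := ∀ (α : Type) [LinearOrder α] [Countable α] (N : ℕ),
  (∀ x y : α, (Set.Icc x y).Finite → (Set.Icc x y).ncard ≤ N) →
  (∃ x y : α, x ≤ y ∧ ¬ (Set.Icc x y).Finite) →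
  ∃ C : Set α, C.OrdConnected ∧ ∃ f : ℚ → ℕ, (∀ q, 1 ≤ f q) ∧ (∀ q, f q ≤ N) ∧
    ∃ e : C ≃ Lex (Σ q : ℚ, Fin (f q)), ∀ a b, a ≤ b ↔ e a ≤ e b

/-- T_LCC. Job: `theorem p_LCC : T_LCB → T_LCC`.
Proof. Suppose `LongChains r` fails: `Lt r P Q`, `¬ Path r P Q`, and `N` such that there is no chain
of `N` consecutive elements strictly between `P` and `Q`. Let
`α = {x : Car hr // P < x ∧ x < Q}`. (1) A finite interval `[x, y]` of `α` has at most `N` (even
`< N`) elements: enumerate its elements increasingly (`Finset.orderEmbOfFin`), consecutive ones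
are adjacent in `r` (the interval of `α` is the interval of `r`), so `N` elements would give a
chain of length `N`. (2) `α` is infinite: if it was finite, the interval `[P, Q]` of `Car hr` is
finite, and then `Path r P Q` (induction on the number of elements: if `P < Q`, take the least
element `P'` of `(P, Q]`, `Adj r P P'`, and go on with `P'`). (3) There are `x ≤ y` in `α` with
infinite interval: otherwise by (1) all intervals have at most `N` elements; take `N + 1`
elements of `α`, all in the interval from the least to the greatest one, contradiction. T_LCB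
gives `C ⊆ α`; its image in `ℕ` is convex for `r` and shows `HasSEta r`
(`BddAbove (Set.range f)` from `f q ≤ N`). -/
def T_LCC : Prop := ∀ (r : ℕ → ℕ → Bool), LO r → ¬ HasSEta r → LongChains r

/-! ## Part V: the easy direction -/

/-- T_ISO. `HasSEta` is invariant under isomorphism. Proof: `C' = e '' C` and the equivalence
`C' ≃ C` induced by `e`. -/
def T_ISO : Prop := ∀ (r s : ℕ → ℕ → Bool) (e : ℕ ≃ ℕ), (∀ a b, r a b = s (e a) (e b)) →
  HasSEta r → HasSEta s

/-- T_FD. In a strongly eta-like convex subset the relation `Far` is dense.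
Proof. `C, f, e` from `HasSEta`; `N = max (bound of f) 1`. Let `a, b ∈ C` be elements in the blocks
`0` and `1` (`e a = ⟨0, _⟩`, `e b = ⟨1, _⟩`). (1) If `x, y ∈ C` are in different blocks `q < q'`
then `Far s N x y`: take `N` different rationals strictly between `q` and `q'` and one element of
every block (the list of these elements; they are strictly between by the lexicographic
order). (2) If `x, y ∈ C` with `Far s N x y` then the block of `x` is strictly below the block of
`y`: all elements strictly between are in `C` (convex); if the blocks `q` agree, the `N`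
elements between and `x` are `N + 1` different elements of the block, but it has
`f q ≤ N` elements; the block of `x` is not above that of `y` since `Lt s x y` (`N ≥ 1`).
(3) `a, b` are `Far` by (1). If `a ≤ x`, `y ≤ b`, `Far s N x y` (so `x < y` and `x, y ∈ C` by
convexity) then the blocks are `q < q'`; an element `z` of the block `(q + q') / 2` is far from
both by (1). -/
def T_FD : Prop := ∀ (s : ℕ → ℕ → Bool), LO s → HasSEta s → FarDense s

/-- T_RFAR. `Far` is recursively enumerable.
Proof. `∃ c : List ℕ` (`re_exists`) with a decidable condition: `c.length = N`, `c.Nodup` as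
`∀ i < c.length, ∀ j < c.length, c.getD i 0 = c.getD j 0 → i = j`, and
`∀ i < c.length, Lt s x (c.getD i 0) ∧ Lt s (c.getD i 0) y`. -/
def T_RFAR : Prop := ∀ (s : ℕ → ℕ → Bool) (N : ℕ), Computable₂ s →
  ∀ (α : Type) [Primcodable α] (x y : α → ℕ), Computable x → Computable y →
    REPred fun a => Far s N (x a) (y a)

/-- T_GCON. A computable embedding different from the identity, from `FarDense`.
Job: `theorem p_GCON : T_RFAR → T_GCON`.
Proof. Let `N, a, b` be as in `FarDense`. `Far s N x y` implies `Lt s x y` (`1 ≤ N`), and it is
preserved if `x` is replaced by something smaller or `y` by something larger. Use `seq` with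
states `List (ℕ × ℕ)` (pairs (argument, image) of the arguments `< k` in `(a, b)`), initial state
`[]` and the step relation `R k l l'`: if `Lt s a k ∧ Lt s k b` (decidable) then there is `v` with
`l' = (k, v) :: l`, `v ≠ k`, `Far s N a v`, `Far s N v b`, and for all `(x', v') ∈ l` (as
`∀ i < l.length`): `Lt s x' k → Far s N v' v` and `Lt s k x' → Far s N v v'`; otherwise `l' = l`.
Invariant on `l`: all pairs `(x, v) ∈ l` satisfy `Far a v`, `Far v b`, and for
`(x, v), (x', v') ∈ l` with `Lt s x x'`: `Far s N v v'`. (To know also that the arguments in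
`σ k` are `< k`, prove it afterwards by induction.) Totality: let `A = {a} ∪ {v' | x' < k}`,
`B = {b} ∪ {v' | k < x'}`; every element of `A` is far from every element of `B`; let `α` be the
greatest element of `A` and `β` the least element of `B` (in the order `s`); `Far α β`; density
gives `z` with `Far α z`, `Far z β`, and `z'` with `Far α z'`, `Far z' z`; `z ≠ z'`, so one of
them is `≠ k`; take it as `v`. Define `g x = x` if not (`a < x < b`), otherwise `g x` = the second
component of the head of `σ (x+1)`; computable. `g` is strictly monotone: two arguments in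
`(a, b)`: both pairs are in `σ K` for large `K` (the lists only grow, induction), use the
invariant; one argument outside: `g` maps `(a, b)` into `(a, b)`. So it is injective and
monotone. `g ≠ id`: `(a, b)` is nonempty (`Far s N a b`), and `g x ≠ x` for `x` in it. -/
def T_GCON : Prop := ∀ (s : ℕ → ℕ → Bool), LO s → Computable₂ s → FarDense s →
  ∃ g : ℕ → ℕ, Computable g ∧ Function.Injective g ∧ g ≠ id ∧
    ∀ a b, s a b = true → s (g a) (g b) = true

end Pool.Agent.DMO
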